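import Mathlib

/-!
MP_59f3ad_nt, the range `p ^ (k+1) ≤ H ^ k` for the family `∏ (X - a_i) ∏ ((X - b_k)^2 + 2 c_k^2) - 1`.
Definitions and statements of the purely algebraic and combinatorial parts.
-/

open Polynomial

namespace Pool.Agent.Work.MP_59f3ad_nt.Cod

/-- The index set of the parameters `(a, b, c)`. -/
abbrev Ix (r1 r2 : ℕ) := Fin r1 ⊕ Fin r2 ⊕ Fin r2

section defs

variable {R : Type*} [CommRing R] {r1 r2 : ℕ}

/-- The factors `X - a_i` and `(X - b_k)^2 + 2 c_k^2`. -/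
noncomputable def fac (t : Ix r1 r2 → R) : Fin r1 ⊕ Fin r2 → R[X]
  | Sum.inl i => X - C (t (Sum.inl i))
  | Sum.inr k => (X - C (t (Sum.inr (Sum.inl k)))) ^ 2 + C (2 * t (Sum.inr (Sum.inr k)) ^ 2)

/-- The derivatives of the factors in the direction `s`. -/
noncomputable def dfac (t s : Ix r1 r2 → R) : Fin r1 ⊕ Fin r2 → R[X]
  | Sum.inl i => - C (s (Sum.inl i))
  | Sum.inr k => C (4 * t (Sum.inr (Sum.inr k)) * s (Sum.inr (Sum.inr k))) -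
      C (2 * s (Sum.inr (Sum.inl k))) * (X - C (t (Sum.inr (Sum.inl k))))

/-- The product `g_t` of the factors. -/
noncomputable def gg (t : Ix r1 r2 → R) : R[X] := ∏ j, fac t j

/-- The product of the factors of index different from `j`. -/
noncomputable def cof (t : Ix r1 r2 → R) (j : Fin r1 ⊕ Fin r2) : R[X] :=
  ∏ m ∈ Finset.univ.erase j, fac t m

/-- The derivative of `g_t` in the direction `s`. -/
noncomputable def dgg (t s : Ix r1 r2 → R) : R[X] := ∑ j, dfac t s j * cof t j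

/-- The summands of the derivative of `g_t` with respect to the variable. -/
noncomputable def WW (t : Ix r1 r2 → R) (j : Fin r1 ⊕ Fin r2) : R[X] :=
  derivative (fac t j) * cof t j

/-- The numerators of the logarithmic derivatives of the units in the direction `s`. -/
noncomputable def NN (t s : Ix r1 r2 → R) (j : Fin r1 ⊕ Fin r2) : R[X] :=
  ∑ m ∈ Finset.univ.erase j, (∏ i ∈ (Finset.univ.erase j).erase m, fac t i) *
    (dfac t s j * derivative (fac t m) - derivative (fac t j) * dfac t s m)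

/-- The determinant of the non-degeneracy condition. -/
noncomputable def DD (t : Ix r1 r2 → R) (z : Fin r2 → R) : R :=
  (Matrix.of fun j l : Fin r2 =>
    (∏ m ∈ Finset.univ.erase j, fac t (Sum.inr m)).eval (z l)).det

/-- The `k` parameters which are varied: `a_0` if `k` is odd, and the first `k / 2` pairs
`(b_j, c_j)`. -/
def Js (r1 r2 k : ℕ) : Finset (Ix r1 r2) :=
  (Finset.univ.filter fun i : Fin r1 => (i : ℕ) < k % 2).disjSum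
    ((Finset.univ.filter fun j : Fin r2 => (j : ℕ) < k / 2).disjSum
      (Finset.univ.filter fun j : Fin r2 => (j : ℕ) < k / 2))

theorem fac_map {S : Type*} [CommRing S] (f : R →+* S) (t : Ix r1 r2 → R)
    (j : Fin r1 ⊕ Fin r2) : (fac t j).map f = fac (fun i => f (t i)) j := by
  rcases j with i | k
  · simp [fac]
  · simp [fac, map_ofNat f 2]

theorem dfac_map {S : Type*} [CommRing S] (f : R →+* S) (t s : Ix r1 r2 → R)
    (j : Fin r1 ⊕ Fin r2) : (dfac t s j).map f = dfac (fun i => f (t i)) (fun i => f (s i)) j := by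
  rcases j with i | k
  · simp [dfac]
  · simp [dfac, map_ofNat f 2, map_ofNat f 4]

theorem gg_map {S : Type*} [CommRing S] (f : R →+* S) (t : Ix r1 r2 → R) :
    (gg t).map f = gg (fun i => f (t i)) := by
  simp only [gg, Polynomial.map_prod, fac_map]

theorem cof_map {S : Type*} [CommRing S] (f : R →+* S) (t : Ix r1 r2 → R)
    (j : Fin r1 ⊕ Fin r2) : (cof t j).map f = cof (fun i => f (t i)) j := by
  simp only [cof, Polynomial.map_prod, fac_map]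

theorem dgg_map {S : Type*} [CommRing S] (f : R →+* S) (t s : Ix r1 r2 → R) :
    (dgg t s).map f = dgg (fun i => f (t i)) (fun i => f (s i)) := by
  simp only [dgg, Polynomial.map_sum, Polynomial.map_mul, cof_map, dfac_map]

theorem WW_map {S : Type*} [CommRing S] (f : R →+* S) (t : Ix r1 r2 → R)
    (j : Fin r1 ⊕ Fin r2) : (WW t j).map f = WW (fun i => f (t i)) j := by
  simp only [WW, Polynomial.map_mul, ← derivative_map, fac_map, cof_map]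

theorem NN_map {S : Type*} [CommRing S] (f : R →+* S) (t s : Ix r1 r2 → R)
    (j : Fin r1 ⊕ Fin r2) : (NN t s j).map f = NN (fun i => f (t i)) (fun i => f (s i)) j := by
  simp only [NN, Polynomial.map_sum, Polynomial.map_mul, Polynomial.map_sub, Polynomial.map_prod,
    ← derivative_map, fac_map, dfac_map]

theorem DD_map {S : Type*} [CommRing S] (f : R →+* S) (t : Ix r1 r2 → R) (z : Fin r2 → R) :
    f (DD t z) = DD (fun i => f (t i)) (fun l => f (z l)) := by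
  rw [DD, DD, RingHom.map_det]
  congr 1
  ext j l
  simp only [RingHom.mapMatrix_apply, Matrix.map_apply, Matrix.of_apply]
  rw [← eval₂_at_apply, ← eval_map, Polynomial.map_prod]
  simp only [fac_map]

theorem mul_cof (t : Ix r1 r2 → R) (j : Fin r1 ⊕ Fin r2) : fac t j * cof t j = gg t :=
  Finset.mul_prod_erase Finset.univ (fac t) (Finset.mem_univ j)

theorem fac_monic (t : Ix r1 r2 → R) (j : Fin r1 ⊕ Fin r2) : (fac t j).Monic := by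
  rcases j with i | k
  · exact monic_X_sub_C _
  · have h : fac t (Sum.inr k) = (X - C (t (Sum.inr (Sum.inl k)))) ^ 2 +
      C (2 * t (Sum.inr (Sum.inr k)) ^ 2) := rfl
    rw [h]
    monicity!

theorem fac_natDegree [Nontrivial R] (t : Ix r1 r2 → R) (j : Fin r1 ⊕ Fin r2) :
    (fac t j).natDegree = Sum.elim (fun _ => 1) (fun _ => 2) j := by
  rcases j with i | k
  · exact natDegree_X_sub_C _
  · have h : fac t (Sum.inr k) = (X - C (t (Sum.inr (Sum.inl k)))) ^ 2 +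
      C (2 * t (Sum.inr (Sum.inr k)) ^ 2) := rfl
    rw [h, Sum.elim_inr]
    compute_degree!

theorem gg_monic (t : Ix r1 r2 → R) : (gg t).Monic :=
  monic_prod_of_monic _ _ fun j _ => fac_monic t j

theorem gg_natDegree [Nontrivial R] (t : Ix r1 r2 → R) : (gg t).natDegree = r1 + 2 * r2 := by
  rw [gg, natDegree_prod_of_monic _ _ fun j _ => fac_monic t j]
  simp only [fac_natDegree, Fintype.sum_sum_type, Sum.elim_inl, Sum.elim_inr]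
  simp
  ring

theorem ff_monic [Nontrivial R] (t : Ix r1 r2 → R) (hd : 1 ≤ r1 + 2 * r2) :
    (gg t - 1).Monic := by
  refine (gg_monic t).sub_of_left ?_
  rw [degree_eq_natDegree (gg_monic t).ne_zero, gg_natDegree, degree_one]
  exact_mod_cast hd

theorem ff_natDegree [Nontrivial R] (t : Ix r1 r2 → R) :
    (gg t - 1).natDegree = r1 + 2 * r2 := by
  rw [← C_1, natDegree_sub_C, gg_natDegree]

theorem Ix_card (r1 r2 : ℕ) : Fintype.card (Ix r1 r2) = r1 + 2 * r2 := by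
  have h : Fintype.card (Fin r1 ⊕ Fin r2 ⊕ Fin r2) = r1 + 2 * r2 := by
    rw [Fintype.card_sum, Fintype.card_sum, Fintype.card_fin, Fintype.card_fin]
    ring
  exact h

end defs

/-- Reduction modulo `p`. -/
abbrev red (p : ℕ) : ℤ →+* ZMod p := Int.castRingHom (ZMod p)

/-- The shifted parameters. -/
abbrev sh {r1 r2 : ℕ} (t s : Ix r1 r2 → ℤ) (p : ℕ) : Ix r1 r2 → ℤ := fun i => t i + p * s i

/-! ### Algebra -/

def StId : Prop := ∀ (R : Type) [CommRing R] [Nontrivial R] (r1 r2 : ℕ) (t s : Ix r1 r2 → R)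
  (j : Fin r1 ⊕ Fin r2),
  derivative (gg t) = ∑ m, WW t m ∧
  gg t * NN t s j = cof t j * (dfac t s j * derivative (gg t) - derivative (fac t j) * dgg t s) ∧
  (NN t s j).degree < ((r1 + 2 * r2 - 1 : ℕ) : WithBot ℕ)

def StTay : Prop := ∀ (r1 r2 : ℕ) (t s : Ix r1 r2 → ℤ) (p : ℕ),
  (∀ j, C ((p : ℤ) ^ 2) ∣ fac (sh t s p) j - fac t j - C (p : ℤ) * dfac t s j) ∧
  C ((p : ℤ) ^ 2) ∣ gg (sh t s p) - gg t - C (p : ℤ) * dgg t s

def StQCH : Prop := ∀ (p : ℕ) [Fact p.Prime] (M : ℕ) (f0 f1 H0 H1 φ θ q0 q1 δ : ℤ[X]),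
  f0.Monic → f1.Monic → f1 = f0 + C (p : ℤ) * φ → H1 = H0 + C (p : ℤ) * θ →
  f0 ∣ H0 ^ M - 1 - C (p : ℤ) * q0 → f1 ∣ H1 ^ M - 1 - C (p : ℤ) * q1 →
  f0.map (red p) ∣ (derivative f0 * δ + φ).map (red p) →
  f0.map (red p) ∣ (H0 * (q1 - q0) - C (M : ℤ) * (θ + derivative H0 * δ)).map (red p)

def StOrd : Prop := ∀ (p : ℕ) [Fact p.Prime] (f : (ZMod p)[X]), f.Monic → f.Separable →
  ∃ M : ℕ, 0 < M ∧ ¬ p ∣ M ∧ ∀ h : (ZMod p)[X], IsCoprime f h → f ∣ h ^ M - 1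

def StQN : Prop := ∀ (p : ℕ) [Fact p.Prime] (r1 r2 : ℕ), 1 ≤ r1 + 2 * r2 →
  ∀ (t s : Ix r1 r2 → ℤ) (M : ℕ) (j : Fin r1 ⊕ Fin r2) (q0 q1 : ℤ[X]),
  ((gg t - 1).map (red p)).Separable →
  gg t - 1 ∣ fac t j ^ M - 1 - C (p : ℤ) * q0 →
  gg (sh t s p) - 1 ∣ fac (sh t s p) j ^ M - 1 - C (p : ℤ) * q1 →
  (gg t - 1).map (red p) ∣
    (derivative (gg t) * (q1 - q0) - C (M : ℤ) * NN t s j).map (red p)

/-- The number of common zeros of `g'` and of the derivative of `g` in a direction of the digits. -/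
def StHZ : Prop := ∀ (F : Type) [Field F] (r1 r2 k : ℕ), 1 ≤ k → (2 : F) ≠ 0 →
  ∀ t s : Ix r1 r2 → F, (gg t).Separable → (∀ i, i ∉ Js r1 r2 k → s i = 0) → s ≠ 0 →
  ∀ Z : Finset F, (∀ ζ ∈ Z, (derivative (gg t)).eval ζ = 0 ∧ (dgg t s).eval ζ = 0) →
  Z.card ≤ k - 1

/-- The code of the values of the `W_j` at the critical points has the right minimal distance. -/
def StMDS : Prop := ∀ (F : Type) [Field F] [IsAlgClosed F] (r1 r2 k : ℕ),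
  1 ≤ r1 + 2 * r2 → 1 ≤ k → k ≤ r2 + 1 →
  ∀ t : Ix r1 r2 → F, ((r1 + 2 * r2 : ℕ) : F) ≠ 0 → (gg t).Separable →
  (derivative (gg t)).Separable →
  (∀ z : Fin r2 → F, Function.Injective z → (∀ l, (derivative (gg t)).eval (z l) = 0) →
    DD t z ≠ 0) →
  ∀ (c : Fin r1 ⊕ Fin r2 → F) (T : Finset F), (∀ ζ ∈ T, (derivative (gg t)).eval ζ = 0) →
  r1 + 2 * r2 - k ≤ T.card → (∀ ζ ∈ T, ∑ j, c j * (WW t j).eval ζ = 0) → ∀ i j, c i = c j

def StJs : Prop := ∀ r1 r2 k : ℕ, 1 ≤ r1 + 2 * r2 → k ≤ r2 + 1 → (Even k ∨ 1 ≤ r1) →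
  (Js r1 r2 k).card = k

/-! ### Genericity -/

def StNorm : Prop := ∀ r1 r2 : ℕ, 1 ≤ r1 + 2 * r2 →
  ∃ (Γ : MvPolynomial (Ix r1 r2) ℤ) (e : ℕ), ∀ (F : Type) [Field F] (t : Ix r1 r2 → F)
  (ζ : Fin (r1 + 2 * r2 - 1) → F),
  derivative (gg t) = C ((r1 + 2 * r2 : ℕ) : F) * ∏ i, (X - C (ζ i)) →
  MvPolynomial.aeval t Γ = ((r1 + 2 * r2 : ℕ) : F) ^ e *
    ∏ φ : Fin r2 ↪ Fin (r1 + 2 * r2 - 1), DD t (fun l => ζ (φ l))

/-- Rolle's theorem for a polynomial with distinct real zeros. -/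
def StRolle : Prop := ∀ (n : ℕ) (z : Fin (n + 1) → ℝ), StrictMono z → ∃ ζ : Fin n → ℝ,
  StrictMono ζ ∧ (∀ i, z i.castSucc < ζ i ∧ ζ i < z i.succ) ∧
  derivative (∏ i, (X - C (z i))) = C ((n + 1 : ℕ) : ℝ) * ∏ i, (X - C (ζ i)) ∧
  ∀ i, ∑ j, (ζ i - z j)⁻¹ = 0

/-- A determinant of Cauchy type. -/
def StCau : Prop := ∀ (F : Type) [Field F] (n : ℕ) (w e : Fin n → F), Function.Injective w →
  Function.Injective e → (∀ l j, w l ≠ e j) →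
  (Matrix.of fun j l : Fin n => ∏ m ∈ Finset.univ.erase j, (w l - e m)).det ≠ 0

def Spec (r1 r2 : ℕ) : Prop := ∃ (t : Ix r1 r2 → ℂ) (ζ : Fin (r1 + 2 * r2 - 1) → ℂ),
  (gg t).Separable ∧ Function.Injective ζ ∧
  derivative (gg t) = C ((r1 + 2 * r2 : ℕ) : ℂ) * ∏ i, (X - C (ζ i)) ∧
  ∀ φ : Fin r2 ↪ Fin (r1 + 2 * r2 - 1), DD t (fun l => ζ (φ l)) ≠ 0

def StSpec1 : Prop := ∀ r1 r2 : ℕ, 1 ≤ r1 → Spec r1 r2

def StSpec0 : Prop := ∀ r2 : ℕ, 1 ≤ r2 → Spec 0 r2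

def StRes : Prop := ∀ (σ : Type) [Fintype σ] (P : (MvPolynomial σ ℤ)[X]) (t0 : σ → ℂ),
  (P.map (MvPolynomial.aeval t0 : MvPolynomial σ ℤ →ₐ[ℤ] ℂ).toRingHom).natDegree = P.natDegree →
  (P.map (MvPolynomial.aeval t0 : MvPolynomial σ ℤ →ₐ[ℤ] ℂ).toRingHom).Separable →
  ∃ Γ : MvPolynomial σ ℤ, Γ ≠ 0 ∧ ∀ (F : Type) [Field F] (t : σ → F),
    ((P.natDegree.factorial : ℕ) : F) ≠ 0 → MvPolynomial.aeval t Γ ≠ 0 →
    (P.map (MvPolynomial.aeval t : MvPolynomial σ ℤ →ₐ[ℤ] F).toRingHom).Separable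

def StSep : Prop := ∀ r1 r2 : ℕ, 1 ≤ r1 + 2 * r2 → ∃ Γ : MvPolynomial (Ix r1 r2) ℤ, Γ ≠ 0 ∧
  ∀ (F : Type) [Field F] (t : Ix r1 r2 → F), (((r1 + 2 * r2).factorial : ℕ) : F) ≠ 0 →
    MvPolynomial.aeval t Γ ≠ 0 →
    (gg t).Separable ∧ (gg t - 1).Separable ∧ (derivative (gg t)).Separable

def StSZ : Prop := ∀ (σ : Type) [Fintype σ] (Γ : MvPolynomial σ ℤ), Γ ≠ 0 →
  ∃ C p0 : ℕ, ∀ (p : ℕ) [Fact p.Prime], p0 < p →
    {t : σ → ZMod p | MvPolynomial.aeval t Γ = 0}.ncard ≤ C * p ^ (Fintype.card σ - 1)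

/-! ### Pencils -/

def StChain : Prop := ∀ k n : ℕ, ∃ D : ℕ, ∀ (F : Type) [Field F] [IsAlgClosed F] (m : ℕ)
  (A : Fin k → Matrix (Fin n) (Fin m) F),
  (∀ s : Fin k → F, s ≠ 0 → ∀ c : Fin n → F, Matrix.vecMul c (∑ i, s i • A i) = 0 → c = 0) →
  ∀ j : ℕ, D ≤ j → ∀ v : (Fin k → ℕ) → Fin n → F,
  (∀ μ : Fin k → ℕ, (∑ i, μ i) + 1 = j →
    ∑ i, Matrix.vecMul (v (μ + Pi.single i 1)) (A i) = 0) →
  ∀ μ : Fin k → ℕ, ∑ i, μ i = j → v μ = 0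

def StFin : Prop := ∀ k n : ℕ, ∃ N : ℕ, ∀ (F : Type) [Field F] [IsAlgClosed F] (m : ℕ)
  (K0 : Matrix (Fin n) (Fin m) F) (A : Fin k → Matrix (Fin n) (Fin m) F),
  (∀ s : Fin k → F, s ≠ 0 → ∀ c : Fin n → F, Matrix.vecMul c (∑ i, s i • A i) = 0 → c = 0) →
  ∀ T : Finset (Fin k → F),
  (∀ s ∈ T, ∃ c : Fin n → F, c ≠ 0 ∧ Matrix.vecMul c (K0 + ∑ i, s i • A i) = 0) → T.card ≤ N

/-- The bound for the digits, over an algebraically closed field. -/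
def StEv : Prop := ∀ r1 r2 k : ℕ, 1 ≤ r1 + 2 * r2 → 1 ≤ k → k ≤ r2 + 1 → (Even k ∨ 1 ≤ r1) →
  ∃ N : ℕ, ∀ (F : Type) [Field F] [IsAlgClosed F] (t : Ix r1 r2 → F), (2 : F) ≠ 0 →
  ((r1 + 2 * r2 : ℕ) : F) ≠ 0 → (gg t).Separable → (derivative (gg t)).Separable →
  (∀ z : Fin r2 → F, Function.Injective z → (∀ l, (derivative (gg t)).eval (z l) = 0) →
    DD t z ≠ 0) →
  ∀ (j0 : Fin r1 ⊕ Fin r2) (L : Fin r1 ⊕ Fin r2 → F[X]) (M : F), M ≠ 0 →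
  ∀ (s' : Ix r1 r2 → F) (T : Finset (Ix r1 r2 → F)),
  (∀ s ∈ T, (∀ i, i ∉ Js r1 r2 k → s i = s' i) ∧ ∃ c : Fin r1 ⊕ Fin r2 → F, c j0 = 0 ∧ c ≠ 0 ∧
    ∑ j, C (c j) * (L j + C M * NN t s j) = 0) → T.card ≤ N

/-! ### Counting -/

/-- The number of points of a box in a residue class with restricted digits. -/
def StGC : Prop := ∀ (σ : Type) [Fintype σ] (J : Finset σ) (N : ℕ), ∃ C : ℕ,
  ∀ (p : ℕ) [Fact p.Prime] (H : ℕ), p ≤ H → H ≤ p ^ 2 → ∀ (S : Set (σ → ℤ)) (t0 : σ → ℤ),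
  (∀ i, 0 ≤ t0 i ∧ t0 i < p) →
  (∀ s' : σ → ℤ, {τ : J → ZMod p | ∃ s : σ → ℤ, (∀ i, i ∉ J → s i = s' i) ∧
    (∀ i : J, ((s i : ℤ) : ZMod p) = τ i) ∧ (fun i => t0 i + p * s i) ∈ S}.ncard ≤ N) →
  {t : σ → ℤ | (∀ i, |t i| ≤ H) ∧ (∀ i, (p : ℤ) ∣ t i - t0 i) ∧ t ∈ S}.ncard ≤
    C * (H / p) ^ (Fintype.card σ - J.card)

/-- The sum over the residue classes. -/
def StTot : Prop := ∀ (σ : Type) [Fintype σ] (k C1 C2 C3 : ℕ), 1 ≤ Fintype.card σ →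
  k ≤ Fintype.card σ → ∃ C : ℕ,
  ∀ (p : ℕ) [Fact p.Prime] (H : ℕ), p ≤ H → ∀ (S : Set (σ → ℤ)) (E : Set (σ → ZMod p)),
  E.ncard ≤ C1 * p ^ (Fintype.card σ - 1) →
  (∀ t0 : σ → ℤ, {t : σ → ℤ | (∀ i, |t i| ≤ H) ∧ (∀ i, (p : ℤ) ∣ t i - t0 i) ∧
    t ∈ S}.ncard ≤ C2 * (H / p + 1) ^ (Fintype.card σ - 1)) →
  (∀ t0 : σ → ℤ, (∀ i, 0 ≤ t0 i ∧ t0 i < p) → (fun i => ((t0 i : ℤ) : ZMod p)) ∉ E →
    {t : σ → ℤ | (∀ i, |t i| ≤ H) ∧ (∀ i, (p : ℤ) ∣ t i - t0 i) ∧ t ∈ S}.ncard ≤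
      C3 * (H / p) ^ (Fintype.card σ - k)) →
  {t : σ → ℤ | (∀ i, |t i| ≤ H) ∧ t ∈ S}.ncard ≤
    C * (p ^ k * H ^ (Fintype.card σ - k) + H ^ (Fintype.card σ - 1))

/-- The sum over the primes. -/
def StDens : Prop := ∀ (σ : Type) [Fintype σ] (k C p0 : ℕ), 1 ≤ k → k ≤ Fintype.card σ →
  ∀ Bad : ℕ → Set (σ → ℤ),
  (∀ p : ℕ, p.Prime → p0 < p → ∀ H : ℕ, p ≤ H → H ≤ p ^ 2 →
    {t : σ → ℤ | (∀ i, |t i| ≤ H) ∧ t ∈ Bad p}.ncard ≤
      C * (p ^ k * H ^ (Fintype.card σ - k) + H ^ (Fintype.card σ - 1))) →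
  ∃ C' : ℝ, ∀ H : ℕ, 2 ≤ H →
    ({t : σ → ℤ | (∀ i, |t i| ≤ H) ∧ ∃ p : ℕ, p.Prime ∧ H < p ^ 2 ∧ p ^ (k + 1) ≤ H ^ k ∧
      t ∈ Bad p}.ncard : ℝ) ≤ C' * (H : ℝ) ^ Fintype.card σ / Real.log H

end Pool.Agent.Work.MP_59f3ad_nt.Cod
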