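import Mathlib
import Pool.Agent.Work.MP_59f3ad_nt.Cod.Stmts
import Pool.Agent.Work.MP_59f3ad_nt.Bd.B04

/-!
MP_59f3ad_nt, the range `p ^ (k+1) ≤ H ^ k`: the statements which use the `p`-adic independence
`PInd` of a system of units.
-/

open Polynomial NumberField

namespace Pool.Agent.Work.MP_59f3ad_nt.Cod

universe u

/-- The conclusion about the units: a `p`-adically independent system of `r1 + r2 - 1` units in every
number field of degree `r1 + 2 r2` with a root of `g_t - 1`. -/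
def NB (r1 r2 p : ℕ) (t : Ix r1 r2 → ℤ) : Prop :=
  ∀ (K : Type u) [Field K] [NumberField K] (x : 𝓞 K), Module.finrank ℚ K = r1 + 2 * r2 →
    aeval x (gg t - 1) = 0 → ∃ (w : Fin (r1 + r2 - 1) → (𝓞 K)ˣ) (c : ℕ), PInd K p w c

/-- The criterion of first order for the `p`-adic independence of units. -/
def StCrit : Prop := ∀ (p : ℕ) [Fact p.Prime], p ≠ 2 → ∀ f : ℤ[X], f.Monic → Irreducible f →
  (f.map (red p)).Separable → ∀ (n : ℕ) (H G q : Fin n → ℤ[X]) (M : ℕ), 0 < M →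
  (∀ l, f ∣ H l * G l - 1) → (∀ l, f ∣ H l ^ M - 1 - C (p : ℤ) * q l) →
  (∀ c : Fin n → ZMod p, f.map (red p) ∣ ∑ l, C (c l) * (q l).map (red p) → c = 0) →
  ∀ (K : Type u) [Field K] [NumberField K] (x : 𝓞 K), Module.finrank ℚ K = f.natDegree →
  aeval x f = 0 → ∃ (w : Fin n → (𝓞 K)ˣ) (c : ℕ), PInd K p w c

/-- The digits for which the criterion of first order fails. -/
def StDig : Prop := ∀ (p : ℕ) [Fact p.Prime], p ≠ 2 → ∀ r1 r2 : ℕ, 1 ≤ r1 + 2 * r2 →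
  ∀ t0 : Ix r1 r2 → ℤ, ((gg t0 - 1).map (red p)).Separable →
  ∃ (M : ℕ) (L : Fin r1 ⊕ Fin r2 → (ZMod p)[X]), ¬ p ∣ M ∧
  ∀ s : Ix r1 r2 → ℤ, Irreducible (gg (sh t0 s p) - 1) → ¬ NB.{u} r1 r2 p (sh t0 s p) →
  ∀ j0 : Fin r1 ⊕ Fin r2, ∃ c : Fin r1 ⊕ Fin r2 → ZMod p, c j0 = 0 ∧ c ≠ 0 ∧
    ∑ j, C (c j) * (L j + C (M : ZMod p) * NN (fun i => ((t0 i : ℤ) : ZMod p))
      (fun i => ((s i : ℤ) : ZMod p)) j) = 0

/-- The number of bad digits in a residue class. -/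
def StClassFin : Prop := ∀ r1 r2 k : ℕ, 1 ≤ r1 + 2 * r2 → 1 ≤ k → k ≤ r2 + 1 →
  (Even k ∨ 1 ≤ r1) → ∃ N : ℕ, ∀ (p : ℕ) [Fact p.Prime], p ≠ 2 → ¬ p ∣ r1 + 2 * r2 →
  ∀ t0 : Ix r1 r2 → ℤ,
  (gg fun i => ((t0 i : ℤ) : AlgebraicClosure (ZMod p))).Separable →
  (gg (fun i => ((t0 i : ℤ) : AlgebraicClosure (ZMod p))) - 1).Separable →
  (derivative (gg fun i => ((t0 i : ℤ) : AlgebraicClosure (ZMod p)))).Separable →
  (∀ z : Fin r2 → AlgebraicClosure (ZMod p), Function.Injective z →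
    (∀ l, (derivative (gg fun i => ((t0 i : ℤ) : AlgebraicClosure (ZMod p)))).eval (z l) = 0) →
    DD (fun i => ((t0 i : ℤ) : AlgebraicClosure (ZMod p))) z ≠ 0) →
  ∀ s' : Ix r1 r2 → ℤ, {τ : Js r1 r2 k → ZMod p | ∃ s : Ix r1 r2 → ℤ,
    (∀ i, i ∉ Js r1 r2 k → s i = s' i) ∧ (∀ i : Js r1 r2 k, ((s i : ℤ) : ZMod p) = τ i) ∧
    Irreducible (gg (sh t0 s p) - 1) ∧ ¬ NB.{u} r1 r2 p (sh t0 s p)}.ncard ≤ N

end Pool.Agent.Work.MP_59f3ad_nt.Cod
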