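import Mathlib
import Pool.Agent.Work.MP_59f3ad_nt.Cod.Stmts2

open Polynomial NumberField

namespace Pool.Agent.Work.MP_59f3ad_nt.Cod

universe u

namespace CritX

variable {K : Type*} [Field K] [NumberField K]

/-- The order `ℤ[x]` is maximal at a prime modulo which `f` is separable. -/
theorem index (p : ℕ) (hp : p.Prime) (f : ℤ[X]) (hf : f.Monic) (hirr : Irreducible f)
    (hsep : (f.map (red p)).Separable) (x : 𝓞 K) (hfin : Module.finrank ℚ K = f.natDegree)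
    (hx : aeval x f = 0) (A : ℤ[X]) (hA : (p : 𝓞 K) ∣ aeval x A) :
    f.map (red p) ∣ A.map (red p) := by
  have : Fact p.Prime := ⟨hp⟩
  have hlin := linearIndependent_of_irreducible f hf hirr x hx
  obtain ⟨c1, hc1⟩ := exists_index_const p hp f.natDegree x hlin hfin.symm
  have hd : 0 < f.natDegree := by rw [← hfin]; exact Module.finrank_pos
  set B : ℤ[X] := A ^ (c1 + 1) %ₘ f with hB
  have hBA : A ^ (c1 + 1) = B + f * (A ^ (c1 + 1) /ₘ f) := (modByMonic_add_div _ f).symm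
  have hBdeg : B.natDegree < f.natDegree := natDegree_modByMonic_lt _ hf (by
    intro h; rw [h, natDegree_one] at hd; exact lt_irrefl _ hd)
  have h1 : aeval x B = (aeval x A) ^ (c1 + 1) := by
    rw [← map_pow, hBA, map_add, map_mul, hx, zero_mul, add_zero]
  have h2 : aeval x B = ∑ i ∈ Finset.range f.natDegree, ((B.coeff i : ℤ) : 𝓞 K) * x ^ i := by
    rw [aeval_eq_sum_range' hBdeg]
    refine Finset.sum_congr rfl fun i _ => ?_
    rw [zsmul_eq_mul]
  have h3 : (p : 𝓞 K) ^ (c1 + 1) ∣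
      ∑ i ∈ Finset.range f.natDegree, ((B.coeff i : ℤ) : 𝓞 K) * x ^ i := by
    rw [← h2, h1]; exact pow_dvd_pow_of_dvd hA _
  have h4 := hc1 (c1 + 1) (fun i => B.coeff i) h3
  have h5 : B.map (red p) = 0 := by
    ext i
    rw [coeff_map, coeff_zero]
    by_cases hi : i < f.natDegree
    · have h6 := h4 i hi
      rw [Nat.add_sub_cancel_left, pow_one] at h6
      exact (ZMod.intCast_zmod_eq_zero_iff_dvd _ _).2 h6
    · rw [coeff_eq_zero_of_natDegree_lt (by omega), map_zero]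
  have h6 : f.map (red p) ∣ (A.map (red p)) ^ (c1 + 1) := by
    rw [← Polynomial.map_pow, hBA, Polynomial.map_add, h5, zero_add, Polynomial.map_mul]
    exact dvd_mul_right _ _
  exact (hsep.squarefree.dvd_pow_iff_dvd (Nat.succ_ne_zero c1)).1 h6

end CritX

theorem pr_Crit : StCrit.{u} := by
  intro p hpF hp2 f hf hirr hsep n H G q M hM hHG hHq hind K _ _ x hfin hx
  have hp : p.Prime := hpF.out
  have hpO : (p : 𝓞 K) ≠ 0 := by exact_mod_cast hp.ne_zero
  have hev : ∀ A : ℤ[X], f ∣ A → aeval x A = 0 := by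
    rintro A ⟨B, rfl⟩
    rw [map_mul, hx, zero_mul]
  have hHG' : ∀ l, aeval x (H l) * aeval x (G l) = 1 := by
    intro l
    have h1 := hev _ (hHG l)
    rw [map_sub, map_mul, map_one, sub_eq_zero] at h1
    exact h1
  set u' : Fin n → (𝓞 K)ˣ := fun l => ⟨aeval x (H l), aeval x (G l), hHG' l,
    by rw [mul_comm]; exact hHG' l⟩ with hu'
  have hu : ∀ l, (u' l : 𝓞 K) = aeval x (H l) := fun l => rfl
  set μ : Fin n → 𝓞 K := fun l => aeval x (q l) with hμ
  have hw : ∀ l, ((u' l ^ M : (𝓞 K)ˣ) : 𝓞 K) = 1 + (p : 𝓞 K) * μ l := by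
    intro l
    have h1 := hev _ (hHq l)
    rw [map_sub, map_sub, map_mul, map_pow, map_one, ← hu, aeval_C] at h1
    rw [Units.val_pow_eq_pow_val]
    have h2 : (algebraMap ℤ (𝓞 K)) (p : ℤ) = (p : 𝓞 K) := by simp
    rw [h2] at h1
    linear_combination h1
  have hpow : ∀ E : Fin n → ℤ, ((∏ l, (u' l ^ M) ^ E l : (𝓞 K)ˣ) : 𝓞 K) - 1 ∈
      Ideal.span {(p : 𝓞 K)} ∧ (p : 𝓞 K) ^ 2 ∣ ((∏ l, (u' l ^ M) ^ E l : (𝓞 K)ˣ) : 𝓞 K) -
        (1 + (p : 𝓞 K) * ∑ l, (E l : 𝓞 K) * μ l) := by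
    intro E
    have h1 := prod_zpow_congr (p : 𝓞 K) _ μ hw E Finset.univ
    refine ⟨?_, h1⟩
    rw [Ideal.mem_span_singleton]
    have h2 : (p : 𝓞 K) ∣ (p : 𝓞 K) ^ 2 := dvd_pow_self _ two_ne_zero
    have h3 := dvd_add (h2.trans h1) (dvd_mul_right (p : 𝓞 K) (∑ l, (E l : 𝓞 K) * μ l))
    refine h3.trans (Dvd.intro 1 ?_)
    ring
  have key : ∀ m : ℕ, ∀ E : Fin n → ℤ,
      (p : 𝓞 K) ^ (m + 1) ∣ ((∏ l, (u' l ^ M) ^ E l : (𝓞 K)ˣ) : 𝓞 K) - 1 →
      ∀ l, (p : ℤ) ^ m ∣ E l := by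
    intro m
    induction m with
    | zero => intro E _ l; rw [pow_zero]; exact one_dvd _
    | succ m ih =>
      intro E hE
      have h1 : (p : 𝓞 K) ^ 2 ∣ (p : 𝓞 K) * ∑ l, (E l : 𝓞 K) * μ l := by
        have h2 : (p : 𝓞 K) ^ 2 ∣ ((∏ l, (u' l ^ M) ^ E l : (𝓞 K)ˣ) : 𝓞 K) - 1 :=
          (pow_dvd_pow _ (by omega)).trans hE
        refine (dvd_sub h2 (hpow E).2).trans (Dvd.intro 1 ?_)
        ring
      rw [pow_two, mul_dvd_mul_iff_left hpO] at h1
      have h2 : ∑ l, (E l : 𝓞 K) * μ l = aeval x (∑ l, C (E l) * q l) := by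
        rw [map_sum]
        refine Finset.sum_congr rfl fun l _ => ?_
        rw [map_mul, aeval_C]
        simp [hμ]
      rw [h2] at h1
      have h3 := CritX.index p hp f hf hirr hsep x hfin hx _ h1
      rw [Polynomial.map_sum] at h3
      simp only [Polynomial.map_mul, map_C] at h3
      have h4 := hind (fun l => red p (E l)) h3
      have h5 : ∀ l, (p : ℤ) ∣ E l := fun l =>
        (ZMod.intCast_zmod_eq_zero_iff_dvd _ _).1 (congrFun h4 l)
      choose E' hE' using h5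
      have h6 : ∏ l, (u' l ^ M) ^ E l = (∏ l, (u' l ^ M) ^ E' l) ^ p := by
        rw [← Finset.prod_pow]
        refine Finset.prod_congr rfl fun l _ => ?_
        rw [hE' l, mul_comm, zpow_mul, zpow_natCast]
      rw [h6, Units.val_pow_eq_pow_val] at hE
      have h7 : (p : 𝓞 K) ^ 1 ∣ ((∏ l, (u' l ^ M) ^ E' l : (𝓞 K)ˣ) : 𝓞 K) - 1 := by
        rw [pow_one]
        exact Ideal.mem_span_singleton.1 (hpow E').1
      have h8 := dvd_of_pow_prime_dvd p hp 1 le_rfl (fun h => absurd h hp2) _ h7 (m + 1) hE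
      intro l
      rw [hE' l, pow_succ']
      exact mul_dvd_mul_left _ (ih E' h8 l)
  refine ⟨u', 1, ?_⟩
  intro m E hdvd
  refine key m E ?_
  have h1 : ∏ l, (u' l ^ M) ^ E l = (∏ l, u' l ^ E l) ^ M := by
    rw [← Finset.prod_pow]
    refine Finset.prod_congr rfl fun l _ => ?_
    rw [← zpow_natCast, ← zpow_natCast, ← zpow_mul, ← zpow_mul, mul_comm]
  rw [h1, Units.val_pow_eq_pow_val]
  exact hdvd.trans (sub_one_dvd_pow_sub_one _ _)

end Pool.Agent.Work.MP_59f3ad_nt.Cod
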