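import Mathlib
import Pool.Agent.Work.MP_59f3ad_nt.Cod.Stmts2

/-!
MP_59f3ad_nt: the number of bad digits in a residue class (version modulo `p`; the proof is the one
of `ClassFin.lean`).
-/

open Polynomial NumberField

namespace Pool.Agent.Work.MP_59f3ad_nt.Cod

universe u

/-- The number of bad digits in a residue class, with the other digits fixed modulo `p`. -/
def StClassFinM : Prop := ∀ r1 r2 k : ℕ, 1 ≤ r1 + 2 * r2 → 1 ≤ k → k ≤ r2 + 1 →
  (Even k ∨ 1 ≤ r1) → ∃ N : ℕ, ∀ (p : ℕ) [Fact p.Prime], p ≠ 2 → ¬ p ∣ r1 + 2 * r2 →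
  ∀ t0 : Ix r1 r2 → ℤ,
  (gg fun i => ((t0 i : ℤ) : AlgebraicClosure (ZMod p))).Separable →
  (gg (fun i => ((t0 i : ℤ) : AlgebraicClosure (ZMod p))) - 1).Separable →
  (derivative (gg fun i => ((t0 i : ℤ) : AlgebraicClosure (ZMod p)))).Separable →
  (∀ z : Fin r2 → AlgebraicClosure (ZMod p), Function.Injective z →
    (∀ l, (derivative (gg fun i => ((t0 i : ℤ) : AlgebraicClosure (ZMod p)))).eval (z l) = 0) →
    DD (fun i => ((t0 i : ℤ) : AlgebraicClosure (ZMod p))) z ≠ 0) →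
  ∀ s' : Ix r1 r2 → ℤ, {τ : Js r1 r2 k → ZMod p | ∃ s : Ix r1 r2 → ℤ,
    (∀ i, i ∉ Js r1 r2 k → ((s i : ℤ) : ZMod p) = ((s' i : ℤ) : ZMod p)) ∧
    (∀ i : Js r1 r2 k, ((s i : ℤ) : ZMod p) = τ i) ∧
    Irreducible (gg (sh t0 s p) - 1) ∧ ¬ NB.{u} r1 r2 p (sh t0 s p)}.ncard ≤ N

namespace ClassFinMX

theorem natCast_ne_zero_of_not_dvd (p : ℕ) [Fact p.Prime] (F : Type*) [Field F]
    [Algebra (ZMod p) F] {n : ℕ} (hn : ¬ p ∣ n) : (n : F) ≠ 0 := by
  intro h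
  apply hn
  rw [← ZMod.natCast_eq_zero_iff]
  apply (algebraMap (ZMod p) F).injective
  rw [map_natCast, map_zero, h]

theorem exists_index (r1 r2 : ℕ) (hd : 1 ≤ r1 + 2 * r2) : Nonempty (Fin r1 ⊕ Fin r2) := by
  rcases Nat.eq_zero_or_pos r1 with h | h
  · exact ⟨Sum.inr ⟨0, by omega⟩⟩
  · exact ⟨Sum.inl ⟨0, h⟩⟩

end ClassFinMX

open ClassFinMX in
theorem pr_ClassFinM : StDig.{u} → StEv → StClassFinM.{u} := by
  intro hDig hEv r1 r2 k hd hk1 hk2 hk
  obtain ⟨N, hN⟩ := hEv r1 r2 k hd hk1 hk2 hk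
  refine ⟨N, fun p _ hp2 hpd t0 h1 h2 h3 h4 s' => ?_⟩
  classical
  have hpr : p.Prime := Fact.out
  let ι : ZMod p →+* AlgebraicClosure (ZMod p) := algebraMap (ZMod p) _
  have hι : Function.Injective ι := ι.injective
  have hιz : ∀ z : ℤ, ι (z : ZMod p) = (z : AlgebraicClosure (ZMod p)) := fun z => map_intCast ι z
  have hsep : ((gg t0 - 1).map (red p)).Separable := by
    have e : ((gg t0 - 1).map (red p)).map ι =
        (gg fun i => ((t0 i : ℤ) : AlgebraicClosure (ZMod p))) - 1 := by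
      rw [Polynomial.map_map, Polynomial.map_sub, Polynomial.map_one, gg_map]
      congr 2
    rw [← Polynomial.separable_map ι, e]
    exact h2
  have h2F : (2 : AlgebraicClosure (ZMod p)) ≠ 0 := by
    have := natCast_ne_zero_of_not_dvd p (AlgebraicClosure (ZMod p)) (n := 2)
      (fun h => hp2 ((Nat.prime_dvd_prime_iff_eq hpr Nat.prime_two).1 h))
    exact_mod_cast this
  have hdF : ((r1 + 2 * r2 : ℕ) : AlgebraicClosure (ZMod p)) ≠ 0 :=
    natCast_ne_zero_of_not_dvd p _ hpd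
  obtain ⟨j0⟩ := exists_index r1 r2 hd
  obtain ⟨M, L, hM, hL⟩ := hDig p hp2 r1 r2 hd t0 hsep
  have hMF : (M : AlgebraicClosure (ZMod p)) ≠ 0 := natCast_ne_zero_of_not_dvd p _ hM
  set S : Set (Js r1 r2 k → ZMod p) := {τ | ∃ s : Ix r1 r2 → ℤ,
    (∀ i, i ∉ Js r1 r2 k → ((s i : ℤ) : ZMod p) = ((s' i : ℤ) : ZMod p)) ∧
    (∀ i : Js r1 r2 k, ((s i : ℤ) : ZMod p) = τ i) ∧
    Irreducible (gg (sh t0 s p) - 1) ∧ ¬ NB.{u} r1 r2 p (sh t0 s p)} with hS
  have hex : ∀ τ : S, ∃ s : Ix r1 r2 → ℤ,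
    (∀ i, i ∉ Js r1 r2 k → ((s i : ℤ) : ZMod p) = ((s' i : ℤ) : ZMod p)) ∧
    (∀ i : Js r1 r2 k, ((s i : ℤ) : ZMod p) = τ.1 i) ∧
    Irreducible (gg (sh t0 s p) - 1) ∧ ¬ NB.{u} r1 r2 p (sh t0 s p) := fun τ => τ.2
  choose s hs1 hs2 hs3 hs4 using hex
  let σ : S → Ix r1 r2 → AlgebraicClosure (ZMod p) := fun τ i => ((s τ i : ℤ) : _)
  have hσ : Function.Injective σ := by
    intro τ τ' h
    apply Subtype.ext
    funext i
    rw [← hs2 τ i, ← hs2 τ' i]
    apply hι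
    rw [hιz, hιz]
    exact congrFun h i
  have : Fintype S := Fintype.ofFinite S
  have hcard : ((Finset.univ : Finset S).image σ).card = S.ncard := by
    rw [Finset.card_image_of_injective _ hσ, Finset.card_univ, ← Nat.card_eq_fintype_card,
      Nat.card_coe_set_eq]
  rw [← hcard]
  refine hN (AlgebraicClosure (ZMod p)) (fun i => ((t0 i : ℤ) : _)) h2F hdF h1 h3 h4 j0
    (fun j => (L j).map ι) (M : _) hMF (fun i => ((s' i : ℤ) : _)) _ ?_
  intro x hx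
  obtain ⟨τ, -, rfl⟩ := Finset.mem_image.1 hx
  refine ⟨fun i hi => ?_, ?_⟩
  · change ((s τ i : ℤ) : AlgebraicClosure (ZMod p)) = ((s' i : ℤ) : _)
    rw [← hιz, ← hιz, hs1 τ i hi]
  · obtain ⟨c, hc0, hc, hrel⟩ := hL (s τ) (hs3 τ) (hs4 τ) j0
    refine ⟨fun j => ι (c j), by simp [hc0], ?_, ?_⟩
    · intro h
      apply hc
      funext j
      apply hι
      rw [Pi.zero_apply, map_zero]
      exact congrFun h j
    · have h := congrArg (Polynomial.map ι) hrel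
      rw [Polynomial.map_zero, Polynomial.map_sum] at h
      rw [← h]
      refine Finset.sum_congr rfl fun j _ => ?_
      rw [Polynomial.map_mul, Polynomial.map_add, Polynomial.map_mul, Polynomial.map_C,
        Polynomial.map_C, NN_map, map_natCast]
      simp only [hιz]
      rfl

end Pool.Agent.Work.MP_59f3ad_nt.Cod
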