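import Mathlib
import Pool.Agent.Work.MP_59f3ad_nt.Bridge
import Pool.Agent.Work.MP_59f3ad_nt.Defect
import Pool.Agent.Work.MP_59f3ad_nt.Bdx.B03
import Pool.Agent.Work.MP_59f3ad_nt.Bdx.B02

/-!
MP_59f3ad_nt: the main theorem, from the statements.
-/

open Polynomial NumberField IsDedekindDomain

namespace Pool.Agent.Work.MP_59f3ad_nt.Cod

open Pool.Agent.Work.MP_59f3ad_nt Pool.Agent.Work.MP_59f3ad_nt.Multi

universe u

namespace MainX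

theorem gg_eq {r1 r2 : ℕ} (t : Ix r1 r2 → ℤ) :
    gg t = (∏ i : Fin r1, (X - C (t (Sum.inl i)))) *
      ∏ k : Fin r2, ((X - C (t (Sum.inr (Sum.inl k)))) ^ 2 +
        C (2 * t (Sum.inr (Sum.inr k)) ^ 2)) := by
  rw [gg, Fintype.prod_sum_type]
  rfl

theorem setup (r1 r2 : ℕ) (hd : 1 ≤ r1 + 2 * r2) :
    ∃ (Bad : ℕ → Set (Ix r1 r2 → ℤ)) (C : ℕ),
      (∀ p : ℕ, p.Prime → ∀ H : ℕ, 1 ≤ H →
        {t : Ix r1 r2 → ℤ | (∀ i, |t i| ≤ H) ∧ t ∈ Bad p}.ncard ≤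
          C * p * H ^ (Fintype.card (Ix r1 r2) - 1)) ∧
      (∀ p : ℕ, p.Prime → ∀ (m : ℕ) (t0 : Ix r1 r2 → ℤ) (H : ℕ), 1 ≤ m → 1 ≤ H →
        {t : Ix r1 r2 → ℤ | (∀ i, |t i| ≤ H) ∧ (∀ i, (p : ℤ) ^ m ∣ t i - t0 i) ∧
          t ∈ Bad p}.ncard ≤ C * (H / p ^ m + 1) ^ (Fintype.card (Ix r1 r2) - 1)) ∧
      ∀ p : ℕ, p.Prime → ∀ t : Ix r1 r2 → ℤ, t ∉ Bad p → Irreducible (gg t - 1) →
        NB.{u} r1 r2 p t := by
  classical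
  have : Nonempty (Fin r1 ⊕ Fin r2) := by
    rcases Nat.eq_zero_or_pos r1 with h | h
    · exact ⟨Sum.inr ⟨0, by omega⟩⟩
    · exact ⟨Sum.inl ⟨0, h⟩⟩
  obtain ⟨j0⟩ := this
  have : Nonempty (Ix r1 r2) := by
    rcases Nat.eq_zero_or_pos r1 with h | h
    · exact ⟨Sum.inr (Sum.inl ⟨0, by omega⟩)⟩
    · exact ⟨Sum.inl ⟨0, h⟩⟩
  obtain ⟨i0⟩ := this
  obtain ⟨hPm, hPd⟩ := GenUnits.genP_monic_natDegree r1 r2 hd
  have hprod : (∏ j, AdjoinRoot.mk (genP r1 r2) (Multi.genH r1 r2 j)) = 1 := by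
    rw [← map_prod]
    have h1 : (∏ j, Multi.genH r1 r2 j) = genP r1 r2 + 1 := by
      rw [GenUnits.genP_eq]
      ring
    rw [h1, map_add, AdjoinRoot.mk_self, zero_add, map_one]
  have hunit : ∀ j, IsUnit (AdjoinRoot.mk (genP r1 r2) (Multi.genH r1 r2 j)) := by
    intro j
    rw [isUnit_iff_dvd_one, ← hprod]
    exact Finset.dvd_prod_of_mem _ (Finset.mem_univ j)
  let u0 : Fin r1 ⊕ Fin r2 → (AdjoinRoot (genP r1 r2))ˣ := fun j => (hunit j).unit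
  have hu0 : ∀ j, (u0 j : AdjoinRoot (genP r1 r2)) = AdjoinRoot.mk _ (Multi.genH r1 r2 j) := fun j => rfl
  have hn' : Fintype.card {j : Fin r1 ⊕ Fin r2 // j ≠ j0} = r1 + r2 - 1 := by
    rw [Fintype.card_subtype_compl, Fintype.card_sum, Fintype.card_fin, Fintype.card_fin]
    simp
  let e : Fin (r1 + r2 - 1) ≃ {j : Fin r1 ⊕ Fin r2 // j ≠ j0} :=
    (finCongr hn'.symm).trans (Fintype.equivFin _).symm
  have hu : ∀ E : Fin (r1 + r2 - 1) → ℤ, E ≠ 0 → Transcendental ℤ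
      ((∏ i, u0 (e i).1 ^ E i : (AdjoinRoot (genP r1 r2))ˣ) : AdjoinRoot (genP r1 r2)) := by
    intro E hE
    let E' : Fin r1 ⊕ Fin r2 → ℤ := fun j => if h : j ≠ j0 then E (e.symm ⟨j, h⟩) else 0
    have hE'0 : E' j0 = 0 := by simp [E']
    have hE'e : ∀ i, E' (e i).1 = E i := by
      intro i
      have h1 : (e i).1 ≠ j0 := (e i).2
      simp only [E']
      rw [dif_pos h1]
      simp
    have hE' : E' ≠ 0 := by
      intro h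
      apply hE
      funext i
      rw [← hE'e, h]
      rfl
    have h1 : ∏ j, u0 j ^ E' j = ∏ i, u0 (e i).1 ^ E i := by
      have h2 : ∏ j, u0 j ^ E' j = ∏ j : {j : Fin r1 ⊕ Fin r2 // j ≠ j0}, u0 j.1 ^ E' j.1 := by
        rw [← Finset.mul_prod_erase Finset.univ _ (Finset.mem_univ j0), hE'0, zpow_zero, one_mul]
        exact Finset.prod_subtype _ (fun j => by simp) _
      rw [h2, ← e.prod_comp]
      exact Finset.prod_congr rfl fun i _ => by rw [hE'e]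
    rw [← h1]
    exact gen_transcendental r1 r2 hd u0 hu0 j0 E' hE'0 hE'
  obtain ⟨Bad, C, hC1, hC2, hBad⟩ := exceptions_box_class_pow.{u} (genP r1 r2) hPm i0 (r1 + r2 - 1)
    (fun i => u0 (e i).1) hu
  refine ⟨Bad, C, hC1, fun p hp m t0 H hm _ => hC2 p hp m hm t0 H,
    fun p hp t ht hirr K _ _ x hK hx => ?_⟩
  have hmap : (genP r1 r2).map (MvPolynomial.eval t) = gg t - 1 := by
    rw [gg_eq, genP, Multi.genF_map, Multi.genF, genG]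
    simp
  exact hBad p hp t ht (by rw [hmap]; exact hirr) K x (hK.trans hPd.symm) (by rw [hmap]; exact hx)

end MainX

open MainX

theorem main_of (hCF : StClassFinM.{u}) (hJs : StJs) (hNorm : StNorm) (hS1 : StSpec1)
    (hS0 : StSpec0) (hSep : StSep) (hSZ : StSZ) (hGC : StGC) (hTot : StTot) (hSm : StSm)
    (hDens : StDens) (hSum : StSum)
    (r1 r2 k : ℕ) (hd : 1 ≤ r1 + 2 * r2) (hk1 : 1 ≤ k) (hk2 : k ≤ r2 + 1)
    (hk3 : Even k ∨ 1 ≤ r1) :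
    ∃ Bad : ℕ → Set (Fin r1 ⊕ Fin r2 ⊕ Fin r2 → ℤ),
      (∃ C : ℕ, ∀ p : ℕ, p.Prime → ∀ H : ℕ, 1 ≤ H →
        {t : Fin r1 ⊕ Fin r2 ⊕ Fin r2 → ℤ | (∀ i, |t i| ≤ H) ∧ t ∈ Bad p}.ncard ≤
          C * (p ^ k * H ^ (r1 + 2 * r2 - k) + H ^ (r1 + 2 * r2 - 1))) ∧
      (∃ C : ℝ, ∀ H P : ℕ, 1 ≤ H → 2 ≤ P →
        ({t : Fin r1 ⊕ Fin r2 ⊕ Fin r2 → ℤ | (∀ i, |t i| ≤ H) ∧
          ∃ p : ℕ, p.Prime ∧ p ≤ P ∧ t ∈ Bad p}.ncard : ℝ) ≤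
          C * ((P : ℝ) ^ (k + 1) * (H : ℝ) ^ (r1 + 2 * r2 - k) +
            P * (H : ℝ) ^ (r1 + 2 * r2 - 1)) / Real.log P) ∧
      (∃ C : ℝ, ∀ H : ℕ, 2 ≤ H →
        ({t : Fin r1 ⊕ Fin r2 ⊕ Fin r2 → ℤ | (∀ i, |t i| ≤ H) ∧
          ∃ p : ℕ, p.Prime ∧ p ^ (k + 1) ≤ H ^ k ∧ t ∈ Bad p}.ncard : ℝ) ≤
          C * (H : ℝ) ^ (r1 + 2 * r2) / Real.log H) ∧
      ∀ (p : ℕ) [Fact p.Prime] (t : Fin r1 ⊕ Fin r2 ⊕ Fin r2 → ℤ), t ∉ Bad p →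
        ∀ f : ℤ[X], f = (∏ i : Fin r1, (X - C (t (Sum.inl i)))) *
          ∏ j : Fin r2, ((X - C (t (Sum.inr (Sum.inl j)))) ^ 2 +
            C (2 * t (Sum.inr (Sum.inr j)) ^ 2)) - 1 →
        Irreducible (f.map (Int.castRingHom ℚ)) ∧
        ∀ (K : Type u) [Field K] [NumberField K] (x : K), aeval x f = 0 →
          Module.finrank ℚ K = r1 + 2 * r2 →
          InfinitePlace.nrRealPlaces K = r1 ∧ InfinitePlace.nrComplexPlaces K = r2 ∧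
          ∀ S : Set (HeightOneSpectrum (𝓞 K)),
            (∀ v : HeightOneSpectrum (𝓞 K), (p : 𝓞 K) ∈ v.asIdeal → v ∈ S) →
            Sha1 K p 1 S = ⊥ := by
  classical
  have hcard : Fintype.card (Ix r1 r2) = r1 + 2 * r2 := Ix_card r1 r2
  have : Nonempty (Ix r1 r2) := by
    rcases Nat.eq_zero_or_pos r1 with h | h
    · exact ⟨Sum.inr (Sum.inl ⟨0, by omega⟩)⟩
    · exact ⟨Sum.inl ⟨0, h⟩⟩
  obtain ⟨Bad0, C0, hC1, hC2, hBad⟩ := setup.{u} r1 r2 hd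
  obtain ⟨Cp, hp0⟩ := all_bound.{u} hCF hJs hNorm hS1 hS0 hSep hSZ hGC hTot hSm r1 r2 k hd hk1
    hk2 hk3 Bad0 C0 hC1 hC2
  obtain ⟨C2, hS⟩ := sep_count r1 r2
  rw [hcard] at hp0 hC1
  have hbox := fun H => BoundX.box_finite (Ix r1 r2) H
  let Sep : (Ix r1 r2 → ℤ) → Prop := fun t =>
    (∀ i j : Fin r1, i ≠ j → 4 ≤ |t (Sum.inl i) - t (Sum.inl j)|) ∧
    (∀ k l : Fin r2, k ≠ l → 4 ≤ |t (Sum.inr (Sum.inl k)) - t (Sum.inr (Sum.inl l))|) ∧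
    (∀ k : Fin r2, 3 ≤ |t (Sum.inr (Sum.inr k))|)
  let Bd : ℕ → Set (Ix r1 r2 → ℤ) := fun p =>
    {t | t ∈ Bad0 p ∧ Irreducible (gg t - 1) ∧ ¬ NB.{u} r1 r2 p t} ∪ {t | ¬ Sep t}
  have hsplit : ∀ (p H : ℕ), {t : Ix r1 r2 → ℤ | (∀ i, |t i| ≤ H) ∧ t ∈ Bd p}.ncard ≤
      {t : Ix r1 r2 → ℤ | (∀ i, |t i| ≤ H) ∧
        t ∈ {t | t ∈ Bad0 p ∧ Irreducible (gg t - 1) ∧ ¬ NB.{u} r1 r2 p t}}.ncard +
      {t : Ix r1 r2 → ℤ | (∀ i, |t i| ≤ H) ∧ ¬ Sep t}.ncard := by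
    intro p H
    have h1 : {t : Ix r1 r2 → ℤ | (∀ i, |t i| ≤ H) ∧ t ∈ Bd p} ⊆
        {t : Ix r1 r2 → ℤ | (∀ i, |t i| ≤ H) ∧
        t ∈ {t | t ∈ Bad0 p ∧ Irreducible (gg t - 1) ∧ ¬ NB.{u} r1 r2 p t}} ∪
        {t : Ix r1 r2 → ℤ | (∀ i, |t i| ≤ H) ∧ ¬ Sep t} := by
      rintro t ⟨ht, ht' | ht'⟩
      · exact Or.inl ⟨ht, ht'⟩
      · exact Or.inr ⟨ht, ht'⟩
    refine (Set.ncard_le_ncard h1 ?_).trans (Set.ncard_union_le _ _)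
    exact ((hbox H).subset fun t ht => ht.1).union ((hbox H).subset fun t ht => ht.1)
  have hsep : ∀ H : ℕ, 1 ≤ H → {t : Ix r1 r2 → ℤ | (∀ i, |t i| ≤ H) ∧ ¬ Sep t}.ncard ≤
      C2 * H ^ (r1 + 2 * r2 - 1) := fun H hH => hS H hH
  -- the bound for every prime
  have hB : ∀ p : ℕ, p.Prime → ∀ H : ℕ, 1 ≤ H →
      {t : Ix r1 r2 → ℤ | (∀ i, |t i| ≤ H) ∧ t ∈ Bd p}.ncard ≤
        (Cp + C2) * (p ^ k * H ^ (r1 + 2 * r2 - k) + H ^ (r1 + 2 * r2 - 1)) := by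
    intro p hp H hH
    refine (hsplit p H).trans ?_
    have h5 : C2 * H ^ (r1 + 2 * r2 - 1) ≤
        C2 * (p ^ k * H ^ (r1 + 2 * r2 - k) + H ^ (r1 + 2 * r2 - 1)) :=
      Nat.mul_le_mul_left _ (Nat.le_add_left _ _)
    calc _ ≤ Cp * (p ^ k * H ^ (r1 + 2 * r2 - k) + H ^ (r1 + 2 * r2 - 1)) +
          C2 * (p ^ k * H ^ (r1 + 2 * r2 - k) + H ^ (r1 + 2 * r2 - 1)) :=
          Nat.add_le_add (hp0 p hp H hH) ((hsep H hH).trans h5)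
      _ = _ := by ring
  -- the weaker bound used for the density
  have hB1 : ∀ p : ℕ, p.Prime → ∀ H : ℕ, 1 ≤ H →
      {t : Ix r1 r2 → ℤ | (∀ i, |t i| ≤ H) ∧ t ∈ Bd p}.ncard ≤
        (C0 + C2) * p * H ^ (r1 + 2 * r2 - 1) := by
    intro p hp H hH
    refine (hsplit p H).trans ?_
    have h3 : {t : Ix r1 r2 → ℤ | (∀ i, |t i| ≤ H) ∧
        t ∈ {t | t ∈ Bad0 p ∧ Irreducible (gg t - 1) ∧ ¬ NB.{u} r1 r2 p t}}.ncard ≤
        C0 * p * H ^ (r1 + 2 * r2 - 1) := by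
      refine le_trans (Set.ncard_le_ncard ?_ ?_) (hC1 p hp H hH)
      · rintro t ⟨h1, h2, -⟩
        exact ⟨h1, h2⟩
      · exact (hbox H).subset fun t ht => ht.1
    have h5 : C2 * H ^ (r1 + 2 * r2 - 1) ≤ C2 * p * H ^ (r1 + 2 * r2 - 1) :=
      Nat.mul_le_mul_right _ (Nat.le_mul_of_pos_right _ hp.pos)
    calc _ ≤ C0 * p * H ^ (r1 + 2 * r2 - 1) + C2 * p * H ^ (r1 + 2 * r2 - 1) :=
          Nat.add_le_add h3 ((hsep H hH).trans h5)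
      _ = _ := by ring
  refine ⟨Bd, ⟨Cp + C2, hB⟩, ?_, ?_, ?_⟩
  · obtain ⟨D, hD⟩ := hSum (Ix r1 r2) k (Cp + C2) Bd (fun p hp H hH => by
      rw [hcard]
      exact hB p hp H hH)
    rw [hcard] at hD
    exact ⟨D, hD⟩
  · obtain ⟨D1, hD1⟩ := density_bound_box Bd (C0 + C2) (fun p hp H hH => by
      rw [hcard]
      exact hB1 p hp H hH)
    obtain ⟨D2, hD2⟩ := hDens (Ix r1 r2) k (Cp + C2) 0 hk1 (by rw [hcard]; omega) Bd
      (fun p hp _ H h1 _ => by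
        rw [hcard]
        exact hB p hp H (hp.pos.trans_le h1))
    rw [hcard] at hD1 hD2
    refine ⟨D1 + D2, fun H hH => ?_⟩
    have h1 : {t : Ix r1 r2 → ℤ | (∀ i, |t i| ≤ H) ∧ ∃ p : ℕ, p.Prime ∧ p ^ (k + 1) ≤ H ^ k ∧
        t ∈ Bd p} ⊆
        {t : Ix r1 r2 → ℤ | (∀ i, |t i| ≤ H) ∧ ∃ p : ℕ, p.Prime ∧ p ^ 2 ≤ H ∧ t ∈ Bd p} ∪
        {t : Ix r1 r2 → ℤ | (∀ i, |t i| ≤ H) ∧ ∃ p : ℕ, p.Prime ∧ H < p ^ 2 ∧
          p ^ (k + 1) ≤ H ^ k ∧ t ∈ Bd p} := by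
      rintro t ⟨ht, p, hp, hpH, htp⟩
      by_cases h : p ^ 2 ≤ H
      · exact Or.inl ⟨ht, p, hp, h, htp⟩
      · exact Or.inr ⟨ht, p, hp, by omega, hpH, htp⟩
    have h2 := (Set.ncard_le_ncard h1 (((hbox H).subset fun t ht => ht.1).union
      ((hbox H).subset fun t ht => ht.1))).trans (Set.ncard_union_le _ _)
    have h3 : (({t : Ix r1 r2 → ℤ | (∀ i, |t i| ≤ H) ∧ ∃ p : ℕ, p.Prime ∧
        p ^ (k + 1) ≤ H ^ k ∧ t ∈ Bd p}.ncard : ℕ) : ℝ) ≤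
        ({t : Ix r1 r2 → ℤ | (∀ i, |t i| ≤ H) ∧ ∃ p : ℕ, p.Prime ∧ p ^ 2 ≤ H ∧
          t ∈ Bd p}.ncard : ℝ) +
        ({t : Ix r1 r2 → ℤ | (∀ i, |t i| ≤ H) ∧ ∃ p : ℕ, p.Prime ∧ H < p ^ 2 ∧
          p ^ (k + 1) ≤ H ^ k ∧ t ∈ Bd p}.ncard : ℝ) := by
      exact_mod_cast h2
    calc _ ≤ _ := h3
      _ ≤ D1 * (H : ℝ) ^ (r1 + 2 * r2) / Real.log H + D2 * (H : ℝ) ^ (r1 + 2 * r2) /
          Real.log H := add_le_add (hD1 H hH) (hD2 H hH)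
      _ = _ := by ring
  · intro p hpf t ht f hf
    rw [Set.mem_union, not_or, Set.mem_ofPred_eq, Set.mem_ofPred_eq, not_not] at ht
    obtain ⟨htBad, hta, htb, htc⟩ := ht
    have hfam : f = Multi.genF (fun i => t (Sum.inl i)) (fun k => t (Sum.inr (Sum.inl k)))
      (fun k => t (Sum.inr (Sum.inr k))) := by rw [hf, Multi.genF, genG]
    have hgg : f = gg t - 1 := by rw [hf, gg_eq]
    have hinj : ∀ {m : ℕ} (a : Fin m → ℤ), (∀ i j, i ≠ j → 4 ≤ |a i - a j|) →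
        Function.Injective a := by
      intro m a h i j hij
      by_contra hne
      have h1 := h i j hne
      rw [hij, sub_self, abs_zero] at h1
      norm_num at h1
    have hfm : f.Monic := by
      rw [hgg]
      exact ff_monic t hd
    have hirr : Irreducible f := by
      rw [hfam]
      exact Multi.genF_irreducible _ _ _ (hinj _ hta) (hinj _ htb)
        (fun k h => by have := htc k; rw [h] at this; norm_num at this) hd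
    have hNB : NB.{u} r1 r2 p t := by
      by_contra hcon
      by_cases h : t ∈ Bad0 p
      · exact htBad ⟨h, by rw [← hgg]; exact hirr, hcon⟩
      · exact hcon (hBad p hpf.out t h (by rw [← hgg]; exact hirr))
    refine ⟨(IsPrimitive.Int.irreducible_iff_irreducible_map_cast hfm.isPrimitive).mp hirr,
      fun K _ _ x hx hK => ?_⟩
    have hxint : IsIntegral ℤ x := ⟨f, hfm, hx⟩
    obtain ⟨y, hy⟩ : ∃ y : 𝓞 K, algebraMap (𝓞 K) K y = x := ⟨⟨x, hxint⟩, rfl⟩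
    have hy0 : aeval y f = 0 := by
      apply FaithfulSMul.algebraMap_injective (𝓞 K) K
      rw [map_zero, ← hx, ← hy]
      exact (aeval_algebraMap_apply K y f).symm
    have hr := gen_nrReal_eq _ _ _ y hta htb htc hd hK (by rw [← hfam]; exact hy0)
    have hc := gen_nrComplex_eq _ _ _ y hta htb htc hd hK (by rw [← hfam]; exact hy0)
    refine ⟨hr, hc, fun S hS => ?_⟩
    obtain ⟨w, c, hw⟩ := hNB K y hK (by rw [← hgg]; exact hy0)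
    have hrank : Units.rank K = r1 + r2 - 1 := by
      rw [Units.rank, InfinitePlace.card_eq_nrRealPlaces_add_nrComplexPlaces, hr, hc]
    obtain ⟨c', hc'⟩ := sleo_of_pind p hpf.out w c hw hrank
    exact sha_eq_bot_of_sleo K p c' hc' S hS

end Pool.Agent.Work.MP_59f3ad_nt.Cod
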