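import Mathlib
import Pool.Agent.Work.MP_59f3ad_nt.Cod.Stmts
import Pool.Agent.Work.MP_59f3ad_nt.Cod.Stmts2

/-!
MP_59f3ad_nt, `Cod.Dig`: the digits for which the criterion of first order fails.
-/

open Polynomial NumberField

namespace Pool.Agent.Work.MP_59f3ad_nt.Cod

universe u

namespace DigX

/-- A divisibility modulo `p` lifts. -/
theorem lift (p : ℕ) {f h : ℤ[X]} (hf : f.Monic) (hd : f.map (red p) ∣ h.map (red p)) :
    ∃ q : ℤ[X], f ∣ h - C (p : ℤ) * q := by
  have h1 : (h %ₘ f).map (red p) = 0 := by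
    rw [map_modByMonic _ hf, modByMonic_eq_zero_iff_dvd (hf.map _)]
    exact hd
  have h2 : C (p : ℤ) ∣ h %ₘ f := by
    rw [C_dvd_iff_dvd_coeff]
    intro i
    have h3 := congrArg (fun g => coeff g i) h1
    simp only [coeff_map, coeff_zero] at h3
    exact (CharP.intCast_eq_zero_iff (ZMod p) p _).1 h3
  obtain ⟨q, hq⟩ := h2
  refine ⟨q, h /ₘ f, ?_⟩
  rw [← hq]
  have h4 := modByMonic_add_div h f
  linear_combination -h4

theorem fb_isCoprime {R : Type*} [CommRing R] {r1 r2 : ℕ} (t : Ix r1 r2 → R)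
    (j : Fin r1 ⊕ Fin r2) : IsCoprime (gg t - 1) (fac t j) :=
  ⟨-1, cof t j, by rw [← mul_cof t j]; ring⟩

theorem exq (p : ℕ) {r1 r2 : ℕ} (h1 : 1 ≤ r1 + 2 * r2) (t : Ix r1 r2 → ℤ)
    (M : ℕ) (hM : ∀ h : (ZMod p)[X], IsCoprime ((gg t - 1).map (red p)) h →
      (gg t - 1).map (red p) ∣ h ^ M - 1) (j : Fin r1 ⊕ Fin r2) :
    ∃ q : ℤ[X], gg t - 1 ∣ fac t j ^ M - 1 - C (p : ℤ) * q := by
  apply lift p (ff_monic t h1)
  have h2 := hM ((fac t j).map (red p)) (by
    have := (fb_isCoprime t j).map (mapRingHom (red p))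
    simpa only [coe_mapRingHom] using this)
  simpa only [Polynomial.map_sub, Polynomial.map_pow, Polynomial.map_one] using h2

theorem exists_equiv {r1 r2 : ℕ} (j0 : Fin r1 ⊕ Fin r2) :
    Nonempty (Fin (r1 + r2 - 1) ≃ {j : Fin r1 ⊕ Fin r2 // j ≠ j0}) := by
  refine ⟨(Fintype.equivFinOfCardEq ?_).symm⟩
  rw [Fintype.card_subtype_compl, Fintype.card_subtype_eq]
  simp

end DigX

open DigX

theorem pr_Dig : StId → StOrd → StQN → StCrit.{u} → StDig.{u} := by
  intro hId hOrd hQN hCrit p _ hp2 r1 r2 h1 t0 hsep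
  set fb : (ZMod p)[X] := (gg t0 - 1).map (red p) with hfb
  have hmon : (gg t0 - 1).Monic := ff_monic t0 h1
  have hfbm : fb.Monic := hmon.map _
  obtain ⟨M, hM0, hpM, hM⟩ := hOrd p fb hfbm hsep
  have h0 := exq p h1 t0 M hM
  choose q0 hq0 using h0
  refine ⟨M, fun j => (derivative (gg t0) * q0 j).map (red p) %ₘ fb, hpM, ?_⟩
  intro s hirr hNB j0
  set t1 : Ix r1 r2 → ℤ := sh t0 s p with ht1
  have hcast : ∀ i, red p (t1 i) = red p (t0 i) := by
    intro i
    simp [ht1, sh]
  have hfb1 : (gg t1 - 1).map (red p) = fb := by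
    rw [hfb, Polynomial.map_sub, Polynomial.map_sub, gg_map, gg_map]
    simp only [hcast]
  have h2 := exq p h1 t1 M (by rw [hfb1]; exact hM)
  choose q1 hq1 using h2
  unfold NB at hNB
  push Not at hNB
  obtain ⟨K, _, _, x, hK, hx, hno⟩ := hNB
  obtain ⟨e⟩ := exists_equiv j0
  have h3 : ∃ c' : Fin (r1 + r2 - 1) → ZMod p,
      fb ∣ ∑ l, C (c' l) * (q1 (e l)).map (red p) ∧ c' ≠ 0 := by
    by_contra hcon
    push Not at hcon
    obtain ⟨w, c, hwc⟩ := hCrit p hp2 (gg t1 - 1) (ff_monic t1 h1) hirr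
      (by rw [hfb1]; exact hsep) (r1 + r2 - 1) (fun l => fac t1 (e l)) (fun l => cof t1 (e l))
      (fun l => q1 (e l)) M hM0 (fun l => by rw [mul_cof]) (fun l => hq1 _)
      (fun c' hc' => hcon c' (by rw [← hfb1]; exact hc')) K x
      (by rw [hK, ff_natDegree]) hx
    exact hno w c hwc
  obtain ⟨c', hc', hc0⟩ := h3
  set c : Fin r1 ⊕ Fin r2 → ZMod p := fun j =>
    if h : j ≠ j0 then c' (e.symm ⟨j, h⟩) else 0 with hc
  have hcj0 : c j0 = 0 := by simp [hc]
  have hce : ∀ l, c (e l) = c' l := by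
    intro l
    have : (e l : Fin r1 ⊕ Fin r2) ≠ j0 := (e l).2
    simp [hc, this]
  have hsum : ∀ F : Fin r1 ⊕ Fin r2 → (ZMod p)[X],
      ∑ j, C (c j) * F j = ∑ l, C (c' l) * F (e l) := by
    intro F
    have h4 : ∑ l, C (c' l) * F (e l) =
        ∑ j : {j : Fin r1 ⊕ Fin r2 // j ≠ j0}, C (c j) * F j := by
      rw [← Equiv.sum_comp e]
      exact Finset.sum_congr rfl fun l _ => by rw [hce]
    rw [h4]
    have h5 := Fintype.sum_subtype_add_sum_subtype (fun j => j ≠ j0) (fun j => C (c j) * F j)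
    rw [← h5]
    have h6 : ∑ j : {j : Fin r1 ⊕ Fin r2 // ¬ j ≠ j0}, C (c j) * F j = 0 := by
      apply Finset.sum_eq_zero
      intro j _
      have h7 : (j : Fin r1 ⊕ Fin r2) = j0 := not_not.1 j.2
      rw [h7, hcj0, C_0, zero_mul]
    rw [h6, add_zero]
  refine ⟨c, hcj0, ?_, ?_⟩
  · intro h
    apply hc0
    funext l
    rw [← hce, h]
    rfl
  · -- the congruence
    have hN : ∀ j, (NN t0 s j).map (red p) = NN (fun i => ((t0 i : ℤ) : ZMod p))
        (fun i => ((s i : ℤ) : ZMod p)) j := fun j => by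
      rw [NN_map]; rfl
    have hk : ∀ j, fb ∣ (derivative (gg t0)).map (red p) * ((q1 j).map (red p) -
        (q0 j).map (red p)) - C (M : ZMod p) * NN (fun i => ((t0 i : ℤ) : ZMod p))
        (fun i => ((s i : ℤ) : ZMod p)) j := by
      intro j
      have h8 : fb ∣ _ := hQN p r1 r2 h1 t0 s M j (q0 j) (q1 j) hsep (hq0 j) (hq1 j)
      rw [Polynomial.map_sub, Polynomial.map_mul, Polynomial.map_mul, Polynomial.map_sub,
        Polynomial.map_C, hN] at h8
      simpa using h8
    have hL : ∀ j, fb ∣ (derivative (gg t0)).map (red p) * (q0 j).map (red p) -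
        (derivative (gg t0) * q0 j).map (red p) %ₘ fb := by
      intro j
      refine ⟨(derivative (gg t0) * q0 j).map (red p) /ₘ fb, ?_⟩
      have h9 := modByMonic_add_div ((derivative (gg t0) * q0 j).map (red p)) fb
      rw [← Polynomial.map_mul]
      linear_combination -h9
    have htot : fb ∣ ∑ j, C (c j) * ((derivative (gg t0) * q0 j).map (red p) %ₘ fb +
        C (M : ZMod p) * NN (fun i => ((t0 i : ℤ) : ZMod p))
        (fun i => ((s i : ℤ) : ZMod p)) j) := by
      have h10 : fb ∣ (derivative (gg t0)).map (red p) *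
          ∑ j, C (c j) * (q1 j).map (red p) := by
        rw [hsum]
        exact Dvd.dvd.mul_left hc' _
      have h11 : fb ∣ ∑ j, C (c j) * ((derivative (gg t0)).map (red p) * ((q1 j).map (red p) -
          (q0 j).map (red p)) - C (M : ZMod p) * NN (fun i => ((t0 i : ℤ) : ZMod p))
          (fun i => ((s i : ℤ) : ZMod p)) j) :=
        Finset.dvd_sum fun j _ => (hk j).mul_left _
      have h12 : fb ∣ ∑ j, C (c j) * ((derivative (gg t0)).map (red p) * (q0 j).map (red p) -
          (derivative (gg t0) * q0 j).map (red p) %ₘ fb) :=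
        Finset.dvd_sum fun j _ => (hL j).mul_left _
      have h13 := (h10.sub h11).sub h12
      convert h13 using 1
      rw [Finset.mul_sum, ← Finset.sum_sub_distrib, ← Finset.sum_sub_distrib]
      exact Finset.sum_congr rfl fun j _ => by ring
    have hnt : Nontrivial (ZMod p) := inferInstance
    have hfbd : fb.degree = ((r1 + 2 * r2 : ℕ) : WithBot ℕ) := by
      rw [hfb, hmon.degree_map, degree_eq_natDegree hmon.ne_zero, ff_natDegree]
    refine eq_zero_of_dvd_of_degree_lt htot ?_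
    rw [hfbd]
    refine (degree_sum_le _ _).trans_lt ((Finset.sup_lt_iff (WithBot.bot_lt_coe _)).2 ?_)
    intro j _
    rw [← smul_eq_C_mul]
    refine (degree_smul_le _ _).trans_lt ?_
    refine (degree_add_le _ _).trans_lt (max_lt ?_ ?_)
    · rw [← hfbd]
      exact degree_modByMonic_lt _ hfbm
    · rw [← smul_eq_C_mul]
      refine (degree_smul_le _ _).trans_lt ?_
      refine ((hId (ZMod p) r1 r2 _ _ j).2.2).trans_le ?_
      exact_mod_cast Nat.sub_le _ _

end Pool.Agent.Work.MP_59f3ad_nt.Cod
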