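import Mathlib
import Pool.Agent.Work.MP_59f3ad_nt.Cod.Stmts

/-!
MP_59f3ad_nt, Cod, item QCH: the change of the quotients under a change of the polynomial.
-/

open Polynomial

namespace Pool.Agent.Work.MP_59f3ad_nt.Cod

namespace QCHX

theorem dvd_of_map {p : ℕ} {h : ℤ[X]} (hh : h.map (red p) = 0) : C (p : ℤ) ∣ h := by
  rw [C_dvd_iff_dvd_coeff]
  intro i
  have h1 : (h.map (red p)).coeff i = 0 := by rw [hh, coeff_zero]
  rw [coeff_map] at h1
  exact (CharP.intCast_eq_zero_iff (ZMod p) p (h.coeff i)).1 h1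

theorem lift_dvd {p : ℕ} {f h : ℤ[X]} (hd : f.map (red p) ∣ h.map (red p)) :
    ∃ e e' : ℤ[X], h = f * e + C (p : ℤ) * e' := by
  obtain ⟨e', he'⟩ := hd
  obtain ⟨e, rfl⟩ := map_surjective (red p) (ZMod.intCast_surjective) e'
  have h1 : (h - f * e).map (red p) = 0 := by
    rw [Polynomial.map_sub, Polynomial.map_mul, he', sub_self]
  obtain ⟨w, hw⟩ := dvd_of_map h1
  exact ⟨e, w, by rw [← hw]; ring⟩

theorem pow_lemma {B : Type*} [CommRing B] (w P T : B) (hP : P * P = 0) : ∀ M : ℕ,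
    w * (w + P * T) ^ M = w ^ (M + 1) + M * w ^ M * (P * T)
  | 0 => by simp
  | M + 1 => by
    have ih := pow_lemma w P T hP M
    have h1 : w * (w + P * T) ^ (M + 1) = (w * (w + P * T) ^ M) * (w + P * T) := by ring
    rw [h1, ih]
    push_cast
    linear_combination (M * w ^ M * T * T) * hP

end QCHX

theorem pr_QCH : StQCH := by
  intro p hp M f0 f1 H0 H1 φ θ q0 q1 δ hf0 hf1 hf hH h0 h1 hd
  obtain ⟨e, e', he⟩ := QCHX.lift_dvd hd
  obtain ⟨a0, ha0⟩ := h0
  obtain ⟨a1, ha1⟩ := h1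
  set I : Ideal ℤ[X] := Ideal.span {f1, C ((p : ℤ) ^ 2)} with hI
  set mk : ℤ[X] →ₐ[ℤ] ℤ[X] ⧸ I := Ideal.Quotient.mkₐ ℤ I with hmk
  have hmk0 : ∀ x : ℤ[X], mk x = 0 ↔ x ∈ I := fun x => Ideal.Quotient.eq_zero_iff_mem
  have hf1I : mk f1 = 0 := (hmk0 _).2 (Ideal.subset_span (by simp))
  set P := mk (C (p : ℤ)) with hPdef
  have hP : P * P = 0 := by
    rw [hPdef, ← map_mul, ← C_mul, ← pow_two]
    exact (hmk0 _).2 (Ideal.subset_span (by simp))
  have hae : ∀ h : ℤ[X], aeval (mk X) h = mk h := by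
    intro h
    rw [aeval_algHom_apply, aeval_X_left_apply]
  set ψ : ℤ[X] →ₐ[ℤ] ℤ[X] ⧸ I := aeval (mk X + -(P * mk δ)) with hψdef
  have hψ : ∀ h : ℤ[X], ψ h = mk h - P * mk (derivative h * δ) := by
    intro h
    have hy : (-(P * mk δ)) ^ 2 = 0 := by
      linear_combination (mk δ * mk δ) * hP
    rw [hψdef, aeval_add_of_sq_eq_zero _ _ _ hy, hae, hae, map_mul]
    ring
  -- step 1
  have hmf0 : mk f0 = -(P * mk φ) := by
    have h2 := hf1I
    rw [hf, map_add, map_mul, ← hPdef] at h2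
    linear_combination h2
  have hψf0 : ψ f0 = 0 := by
    rw [hψ, hmf0]
    have h2 : mk (derivative f0 * δ) + mk φ = mk f0 * mk e + P * mk e' := by
      rw [← map_add, he, map_add, map_mul, map_mul]
    rw [hmf0] at h2
    linear_combination (-P) * h2 + (mk φ * mk e - mk e') * hP
  -- step 2
  set w := ψ H0 with hw
  have hPψ : ∀ h : ℤ[X], P * ψ h = P * mk h := by
    intro h
    rw [hψ]
    linear_combination (-mk (derivative h * δ)) * hP
  have hψC : ψ (C (p : ℤ)) = P := by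
    rw [hψ, derivative_C, zero_mul, map_zero, mul_zero, sub_zero]
  have hw1 : w ^ M = 1 + P * mk q0 := by
    have h2 := congrArg ψ ha0
    rw [map_sub, map_sub, map_mul, map_mul, map_pow, map_one, hψf0, hψC, zero_mul, hPψ] at h2
    linear_combination h2
  -- step 3
  set T := mk (θ + derivative H0 * δ) with hT
  have hT' : T = mk θ + mk (derivative H0 * δ) := by rw [hT, map_add]
  have hmH1 : mk H1 = w + P * T := by
    rw [hH, map_add, map_mul, ← hPdef, hw, hψ, hT']
    ring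
  have hH1 : (w + P * T) ^ M = 1 + P * mk q1 := by
    have h2 := congrArg mk ha1
    rw [map_sub, map_sub, map_mul, map_mul, map_pow, map_one, hf1I, ← hPdef, zero_mul,
      hmH1] at h2
    linear_combination h2
  -- step 4
  have hY : P * mk (H0 * (q1 - q0) - C (M : ℤ) * (θ + derivative H0 * δ)) = 0 := by
    have h2 := QCHX.pow_lemma w P T hP M
    rw [hH1, pow_succ, hw1] at h2
    have h3 : P * w = P * mk H0 := hPψ H0
    have h4 : mk (C (M : ℤ)) = (M : ℤ[X] ⧸ I) := by
      rw [← Polynomial.algebraMap_eq, AlgHom.commutes]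
      simp
    rw [map_sub, map_mul, map_sub, map_mul, h4, ← hT]
    linear_combination h2 - (mk q1 - mk q0) * h3 + (M * mk q0 * T) * hP
  -- step 5
  have hY' : C (p : ℤ) * (H0 * (q1 - q0) - C (M : ℤ) * (θ + derivative H0 * δ)) ∈ I := by
    rw [← hmk0, map_mul, ← hPdef]
    exact hY
  rw [hI, Ideal.mem_span_pair] at hY'
  obtain ⟨a, b, hab⟩ := hY'
  have hpp : (red p) (p : ℤ) = 0 := by simp
  have hf01 : f1.map (red p) = f0.map (red p) := by
    rw [hf, Polynomial.map_add, Polynomial.map_mul, map_C, hpp, C_0, zero_mul, add_zero]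
  have ha : a.map (red p) = 0 := by
    have h2 := congrArg (Polynomial.map (red p)) hab
    rw [Polynomial.map_add, Polynomial.map_mul, Polynomial.map_mul, Polynomial.map_mul, map_C,
      map_C, map_pow, hpp, C_0, zero_mul, zero_pow two_ne_zero, C_0, mul_zero, add_zero] at h2
    rcases mul_eq_zero.1 h2 with h3 | h3
    · exact h3
    · exact absurd h3 (hf1.map (red p)).ne_zero
  obtain ⟨a', rfl⟩ := QCHX.dvd_of_map ha
  have hCp : C (p : ℤ) ≠ 0 := by
    rw [Ne, C_eq_zero]
    exact_mod_cast hp.out.ne_zero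
  have hfin : H0 * (q1 - q0) - C (M : ℤ) * (θ + derivative H0 * δ) = a' * f1 + b * C (p : ℤ) := by
    apply mul_left_cancel₀ hCp
    rw [← hab, pow_two, C_mul]
    ring
  rw [hfin, Polynomial.map_add, Polynomial.map_mul, Polynomial.map_mul, map_C, hpp, C_0, mul_zero,
    add_zero, hf01]
  exact Dvd.intro_left _ rfl

end Pool.Agent.Work.MP_59f3ad_nt.Cod
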