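import Mathlib
import Pool.Agent.Work.MP_59f3ad_nt.Cod.Stmts

/-!
MP_59f3ad_nt, Cod: the order of the units of `(ZMod p)[X] / f` for separable `f` is prime to `p`.
-/

open Polynomial

namespace Pool.Agent.Work.MP_59f3ad_nt.Cod

theorem pr_Ord : StOrd := by
  intro p _ f hf hs
  have hp : p.Prime := Fact.out
  have hfin : Finite (AdjoinRoot f) := by
    have h1 : Module.Finite (ZMod p) (AdjoinRoot f) := hf.finite_adjoinRoot
    exact Module.finite_of_finite (ZMod p)
  refine ⟨Nat.card (AdjoinRoot f)ˣ, Nat.card_pos, ?_, ?_⟩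
  · intro hdvd
    obtain ⟨u, hu⟩ := exists_prime_orderOf_dvd_card' (G := (AdjoinRoot f)ˣ) p hdvd
    have hu1 : u ^ p = 1 := by
      have := pow_orderOf_eq_one u
      simpa only [hu] using this
    obtain ⟨g, hg⟩ := AdjoinRoot.mk_surjective (u : AdjoinRoot f)
    have h2 : AdjoinRoot.mk f ((g - 1) ^ p) = 0 := by
      have h3 : ((u : AdjoinRoot f)) ^ p = 1 := by
        have := congrArg Units.val hu1
        simpa using this
      have h4 : (g - 1) ^ p = g ^ p - 1 ^ p := sub_pow_char g 1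
      rw [h4, map_sub, map_pow, hg, h3]
      simp
    rw [AdjoinRoot.mk_eq_zero] at h2
    have h5 : f ∣ g - 1 := (hs.squarefree.isRadical) p (g - 1) h2
    have h6 : (u : AdjoinRoot f) = 1 := by
      rw [← hg, ← sub_eq_zero, ← map_one (AdjoinRoot.mk f), ← map_sub, AdjoinRoot.mk_eq_zero]
      exact h5
    have h7 : u = 1 := Units.ext h6
    rw [h7, orderOf_one] at hu
    exact hp.one_lt.ne hu
  · intro h hcop
    have hu : IsUnit (AdjoinRoot.mk f h) := by
      obtain ⟨a, b, hab⟩ := hcop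
      refine IsUnit.of_mul_eq_one (AdjoinRoot.mk f b) ?_
      have h1 := congrArg (AdjoinRoot.mk f) hab
      rw [map_add, map_mul, map_mul, AdjoinRoot.mk_self, mul_zero, zero_add, map_one] at h1
      rw [mul_comm]
      exact h1
    have h1 : AdjoinRoot.mk f (h ^ Nat.card (AdjoinRoot f)ˣ - 1) = 0 := by
      have h2 : hu.unit ^ Nat.card (AdjoinRoot f)ˣ = 1 := pow_card_eq_one'
      have h3 := congrArg Units.val h2
      rw [map_sub, map_pow, map_one, sub_eq_zero]
      exact h3
    rwa [AdjoinRoot.mk_eq_zero] at h1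

end Pool.Agent.Work.MP_59f3ad_nt.Cod
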