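import Mathlib
import Pool.Agent.Work.MP_59f3ad_nt.Cod.Stmts

set_option autoImplicit false

open Polynomial

namespace Pool.Agent.Work.MP_59f3ad_nt.Cod

namespace ResX

/-- separability and the resultant, for a homomorphism which preserves the degree -/
theorem key {R F : Type*} [CommRing R] [Field F] (P : R[X]) (ρ : R →+* F)
    (hn : P.natDegree ≠ 0) (ha : ρ P.leadingCoeff ≠ 0) (hc : (P.natDegree : F) ≠ 0) :
    (P.map ρ).Separable ↔
      ρ (resultant P (derivative P) P.natDegree (P.natDegree - 1)) ≠ 0 := by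
  have hd : (P.map ρ).natDegree = P.natDegree := natDegree_map_of_leadingCoeff_ne_zero ρ ha
  have hcoef : (derivative (P.map ρ)).coeff (P.natDegree - 1) ≠ 0 := by
    rw [coeff_derivative]
    have e : P.natDegree - 1 + 1 = P.natDegree := by omega
    rw [e, coeff_map]
    have e2 : ((P.natDegree - 1 : ℕ) : F) + 1 = (P.natDegree : F) := by
      rw [← Nat.cast_add_one, e]
    rw [e2]
    exact mul_ne_zero ha hc
  have hd' : (derivative (P.map ρ)).natDegree = P.natDegree - 1 := by
    apply le_antisymm
    · have := natDegree_derivative_le (P.map ρ)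
      rwa [hd] at this
    · exact le_natDegree_of_ne_zero hcoef
  have h1 : ρ (resultant P (derivative P) P.natDegree (P.natDegree - 1)) =
      resultant (P.map ρ) (derivative (P.map ρ)) := by
    rw [hd, hd', derivative_map, resultant_map_map]
  have h2 : P.map ρ ≠ 0 := by
    intro h
    rw [h, natDegree_zero] at hd
    exact hn hd.symm
  rw [h1, Ne, resultant_eq_zero_iff]
  constructor
  · intro h3 h4
    exact h4.2 h3
  · intro h3
    by_contra h4
    exact h3 ⟨Or.inl h2, h4⟩

end ResX

theorem pr_Res : StRes := by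
  intro σ _ P t0 hdeg hsep
  have hP0 : P ≠ 0 := by
    rintro rfl
    rw [Polynomial.map_zero] at hsep
    exact hsep.ne_zero rfl
  have ha0 : P.leadingCoeff ≠ 0 := leadingCoeff_ne_zero.2 hP0
  by_cases hn : P.natDegree = 0
  · refine ⟨P.leadingCoeff, ha0, fun F _ t _ h => ?_⟩
    have h1 : P = C P.leadingCoeff := by
      rw [leadingCoeff, hn]
      exact eq_C_of_natDegree_eq_zero hn
    rw [h1, Polynomial.map_C, separable_C]
    exact IsUnit.mk0 _ h
  · have hlead0 : (MvPolynomial.aeval t0 : MvPolynomial σ ℤ →ₐ[ℤ] ℂ).toRingHom P.leadingCoeff ≠ 0 := by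
      intro h
      have h1 : (P.map (MvPolynomial.aeval t0 : MvPolynomial σ ℤ →ₐ[ℤ] ℂ).toRingHom).leadingCoeff ≠ 0 :=
        leadingCoeff_ne_zero.2 hsep.ne_zero
      apply h1
      rw [leadingCoeff, hdeg, coeff_map]
      exact h
    have hD0 := (ResX.key P _ hn hlead0 (by exact_mod_cast hn)).1 hsep
    refine ⟨P.leadingCoeff * resultant P (derivative P) P.natDegree (P.natDegree - 1), ?_, ?_⟩
    · intro h
      have h1 : (MvPolynomial.aeval t0 : MvPolynomial σ ℤ →ₐ[ℤ] ℂ).toRingHom
          (P.leadingCoeff * resultant P (derivative P) P.natDegree (P.natDegree - 1)) ≠ 0 := by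
        rw [map_mul]
        exact mul_ne_zero hlead0 hD0
      apply h1
      rw [h, map_zero]
    · intro F _ t hf h
      rw [map_mul] at h
      have h1 := left_ne_zero_of_mul h
      have h2 := right_ne_zero_of_mul h
      refine (ResX.key P _ hn h1 ?_).2 h2
      intro h3
      apply hf
      obtain ⟨k, hk⟩ := Nat.exists_eq_succ_of_ne_zero hn
      rw [hk, Nat.factorial_succ, Nat.cast_mul]
      rw [hk] at h3
      rw [show ((k + 1 : ℕ) : F) = 0 from h3, zero_mul]

end Pool.Agent.Work.MP_59f3ad_nt.Cod
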