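import Mathlib
import Pool.Agent.Work.MP_59f3ad_nt.Cod.Stmts

/-! MP_59f3ad_nt, Cod, item SZ: the number of zeros modulo `p` of a fixed nonzero integral
polynomial (Schwartz and Zippel). -/

namespace Pool.Agent.Work.MP_59f3ad_nt.Cod.SZX

open MvPolynomial

/-- variables indexed by `Fin n`. -/
theorem count_fin (p : ℕ) [hp : Fact p.Prime] (n : ℕ) (G : MvPolynomial (Fin n) (ZMod p))
    (hG : G ≠ 0) : {x : Fin n → ZMod p | eval x G = 0}.ncard ≤ G.totalDegree * p ^ (n - 1) := by
  have hp0 : 0 < p := hp.out.pos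
  have h := schwartz_zippel_totalDegree hG (Finset.univ : Finset (ZMod p))
  have hset : {x : Fin n → ZMod p | eval x G = 0}.ncard =
      (Finset.filter (fun f => eval f G = 0)
        (Fintype.piFinset fun _ : Fin n => (Finset.univ : Finset (ZMod p)))).card := by
    rw [← Set.ncard_coe_finset]
    congr 1
    ext x
    simp
  rw [← hset, Finset.card_univ, ZMod.card] at h
  have hpq : (0 : ℚ≥0) < p := by exact_mod_cast hp0
  have hpn : (0 : ℚ≥0) < (p : ℚ≥0) ^ n := pow_pos hpq n
  rw [div_le_div_iff₀ hpn hpq] at h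
  have h' : {x : Fin n → ZMod p | eval x G = 0}.ncard * p ≤ G.totalDegree * p ^ n := by
    exact_mod_cast h
  rcases n with _ | n
  · calc {x : Fin 0 → ZMod p | eval x G = 0}.ncard
        ≤ {x : Fin 0 → ZMod p | eval x G = 0}.ncard * p := Nat.le_mul_of_pos_right _ hp0
      _ ≤ G.totalDegree * p ^ 0 := h'
  · rw [pow_succ, ← mul_assoc] at h'
    exact Nat.le_of_mul_le_mul_right h' hp0

theorem totalDegree_map_le' {σ R S : Type*} [CommSemiring R] [CommSemiring S] (f : R →+* S)
    (G : MvPolynomial σ R) : (map f G).totalDegree ≤ G.totalDegree :=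
  Finset.sup_mono (support_map_subset f G)

end Pool.Agent.Work.MP_59f3ad_nt.Cod.SZX

namespace Pool.Agent.Work.MP_59f3ad_nt.Cod

open MvPolynomial

theorem pr_SZ : StSZ := by
  intro σ _ Γ hΓ
  obtain ⟨m, hm⟩ := ne_zero_iff.1 hΓ
  refine ⟨Γ.totalDegree, (coeff m Γ).natAbs, fun p hp hlt => ?_⟩
  have e : σ ≃ Fin (Fintype.card σ) := Fintype.equivFin σ
  set Γp : MvPolynomial σ (ZMod p) := map (Int.castRingHom (ZMod p)) Γ with hΓp
  have hne : Γp ≠ 0 := by
    rw [ne_zero_iff]
    refine ⟨m, ?_⟩
    rw [hΓp, coeff_map, eq_intCast, Ne, ZMod.intCast_zmod_eq_zero_iff_dvd]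
    intro hdvd
    have h1 : p ∣ (coeff m Γ).natAbs := by
      rwa [← Int.natCast_dvd]
    have h2 := Nat.le_of_dvd (Int.natAbs_pos.2 hm) h1
    omega
  have hne' : rename e Γp ≠ 0 := by
    intro h0
    exact hne (rename_injective e e.injective (by rw [h0, map_zero]))
  have h1 := SZX.count_fin p (Fintype.card σ) (rename e Γp) hne'
  have h2 : {t : σ → ZMod p | aeval t Γ = 0}.ncard ≤
      {x : Fin (Fintype.card σ) → ZMod p | eval x (rename e Γp) = 0}.ncard := by
    have h3 : {t : σ → ZMod p | aeval t Γ = 0} = (fun x : Fin (Fintype.card σ) → ZMod p =>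
        x ∘ e) '' {x | eval x (rename e Γp) = 0} := by
      ext t
      simp only [Set.mem_ofPred_eq, Set.mem_image]
      have h4 : ∀ s : σ → ZMod p, aeval s Γ = eval s Γp := by
        intro s
        rw [hΓp, eval_map, aeval_def]
        rfl
      constructor
      · intro ht
        refine ⟨t ∘ e.symm, ?_, ?_⟩
        · rw [eval_rename, Function.comp_assoc, Equiv.symm_comp_self, Function.comp_id, ← h4]
          exact ht
        · rw [Function.comp_assoc, Equiv.symm_comp_self, Function.comp_id]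
      · rintro ⟨x, hx, rfl⟩
        rw [h4, ← eval_rename]
        exact hx
    rw [h3]
    exact Set.ncard_image_le (Set.toFinite _)
  refine (h2.trans h1).trans (Nat.mul_le_mul_right _ ?_)
  exact (totalDegree_rename_le _ _).trans (SZX.totalDegree_map_le' _ _)

end Pool.Agent.Work.MP_59f3ad_nt.Cod
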