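import Mathlib
import Pool.Agent.Work.MP_59f3ad_nt.Cod.Stmts

open Polynomial

namespace Pool.Agent.Work.MP_59f3ad_nt.Cod

namespace GCX

theorem card_compl' {σ : Type} [Fintype σ] [DecidableEq σ] (J : Finset σ) :
    Fintype.card {i : σ // i ∉ J} = Fintype.card σ - J.card := by
  rw [← Finset.card_compl, ← Fintype.card_coe]
  exact Fintype.card_congr (Equiv.subtypeEquivRight (by simp))

theorem digit_bound {p H : ℕ} (hp : 0 < p) (hpH : p ≤ H) {t a s : ℤ} (ha : 0 ≤ a)
    (ha' : a < p) (ht : |t| ≤ H) (hs : t = a + p * s) : |s| ≤ 2 * (H / p : ℕ) := by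
  have hp' : (0 : ℤ) < p := by exact_mod_cast hp
  have h1 : (H : ℤ) < p * ((H / p : ℕ) + 1) := by
    exact_mod_cast Nat.lt_mul_div_succ H hp
  have hq : (1 : ℤ) ≤ ((H / p : ℕ) : ℤ) := by
    exact_mod_cast (Nat.one_le_div_iff hp).2 hpH
  obtain ⟨h2, h3⟩ := abs_le.1 ht
  rw [abs_le]
  constructor
  · by_contra hc
    push Not at hc
    have h4 : s ≤ -(2 * ((H / p : ℕ) : ℤ)) - 1 := by omega
    have h5 : (p : ℤ) * s ≤ p * (-(2 * ((H / p : ℕ) : ℤ)) - 1) :=
      mul_le_mul_of_nonneg_left h4 hp'.le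
    have h6 : (p : ℤ) * 1 ≤ p * ((H / p : ℕ) : ℤ) := mul_le_mul_of_nonneg_left hq hp'.le
    nlinarith
  · by_contra hc
    push Not at hc
    have h4 : 2 * ((H / p : ℕ) : ℤ) + 1 ≤ s := by omega
    have h5 : (p : ℤ) * (2 * ((H / p : ℕ) : ℤ) + 1) ≤ p * s :=
      mul_le_mul_of_nonneg_left h4 hp'.le
    have h6 : (p : ℤ) * 1 ≤ p * ((H / p : ℕ) : ℤ) := mul_le_mul_of_nonneg_left hq hp'.le
    nlinarith

theorem digit_div {p H : ℕ} (hp : 0 < p) (hH : H ≤ p ^ 2) {t a s : ℤ} (ha : 0 ≤ a)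
    (ha' : a < p) (ht : |t| ≤ H) (hs : t = a + p * s) : s / p ∈ Finset.Icc (-1 : ℤ) 1 := by
  have hp' : (0 : ℤ) < p := by exact_mod_cast hp
  have hH' : (H : ℤ) ≤ p ^ 2 := by exact_mod_cast hH
  obtain ⟨h2, h3⟩ := abs_le.1 ht
  have h4 : -(p : ℤ) ≤ s := by
    by_contra hc
    push Not at hc
    have h5 : (p : ℤ) * s ≤ p * (-(p : ℤ) - 1) := mul_le_mul_of_nonneg_left (by omega) hp'.le
    nlinarith
  have h5 : s ≤ p := by
    by_contra hc
    push Not at hc
    have h6 : (p : ℤ) * (p + 1) ≤ p * s := mul_le_mul_of_nonneg_left (by omega) hp'.le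
    nlinarith
  rw [Finset.mem_Icc]
  constructor
  · rw [Int.le_ediv_iff_mul_le hp']; linarith
  · have : s / p ≤ (p : ℤ) / p := Int.ediv_le_ediv hp' h5
    rwa [Int.ediv_self hp'.ne'] at this

end GCX

theorem pr_GC : StGC := by
  intro σ _ J N
  classical
  refine ⟨N * 5 ^ (Fintype.card σ - J.card) * 3 ^ J.card, ?_⟩
  intro p hpF H hpH hH S t0 ht0 hN
  have hp : 0 < p := hpF.out.pos
  have hp' : (0 : ℤ) < p := by exact_mod_cast hp
  set A : Set (σ → ℤ) := {t | (∀ i, |t i| ≤ H) ∧ (∀ i, (p : ℤ) ∣ t i - t0 i) ∧ t ∈ S} with hA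
  have hAf : A.Finite := by
    refine (Set.Finite.pi' fun _ => Set.finite_Icc (-(H : ℤ)) H).subset ?_
    intro t ht i
    exact ⟨(abs_le.1 (ht.1 i)).1, (abs_le.1 (ht.1 i)).2⟩
  set s : (σ → ℤ) → σ → ℤ := fun t i => (t i - t0 i) / p with hs
  have hst : ∀ t ∈ A, ∀ i, t i = t0 i + p * s t i := by
    intro t ht i
    have := Int.mul_ediv_cancel' (ht.2.1 i)
    simp only [hs]
    linarith
  set q : ℕ := H / p with hq
  have hq1 : 1 ≤ q := (Nat.one_le_div_iff hp).2 hpH
  set X : Finset ({i : σ // i ∉ J} → ℤ) :=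
    Fintype.piFinset fun _ => Finset.Icc (-(2 * q : ℤ)) (2 * q) with hX
  set Y : Finset (J → ℤ) := Fintype.piFinset fun _ => Finset.Icc (-1 : ℤ) 1 with hY
  have hXc : X.card = (4 * q + 1) ^ (Fintype.card σ - J.card) := by
    rw [hX, Fintype.card_piFinset]
    simp only [Int.card_Icc, Finset.prod_const, Finset.card_univ, GCX.card_compl']
    congr 1
    omega
  have hYc : Y.card = 3 ^ J.card := by
    rw [hY, Fintype.card_piFinset]
    simp
  set f : (σ → ℤ) → ({i : σ // i ∉ J} → ℤ) × (J → ℤ) :=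
    fun t => (fun i => s t i, fun i => s t i / p) with hf
  have hmaps : ∀ t ∈ hAf.toFinset, f t ∈ X ×ˢ Y := by
    intro t ht
    rw [Set.Finite.mem_toFinset] at ht
    rw [Finset.mem_product]
    constructor
    · rw [hX, Fintype.mem_piFinset]
      intro i
      have h1 := GCX.digit_bound hp hpH (ht0 i).1 (ht0 i).2 (ht.1 i) (hst t ht i)
      rw [Finset.mem_Icc]
      exact abs_le.1 h1
    · rw [hY, Fintype.mem_piFinset]
      intro i
      exact GCX.digit_div hp hH (ht0 i).1 (ht0 i).2 (ht.1 i) (hst t ht i)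
  have hfib : ∀ b ∈ X ×ˢ Y, (hAf.toFinset.filter fun t => f t = b).card ≤ N := by
    rintro ⟨x, m⟩ _
    set s' : σ → ℤ := fun i => if h : i ∉ J then x ⟨i, h⟩ else 0 with hs'
    refine le_trans ?_ (hN s')
    rw [← Set.ncard_coe_finset]
    refine Set.ncard_le_ncard_of_injOn (fun t => fun i : J => ((s t i : ℤ) : ZMod p)) ?_ ?_
      (Set.toFinite _)
    · intro t ht
      rw [Finset.mem_coe, Finset.mem_filter, Set.Finite.mem_toFinset] at ht
      obtain ⟨htA, htb⟩ := ht
      refine ⟨s t, ?_, fun i => rfl, ?_⟩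
      · intro i hi
        have h1 := congrFun (congrArg Prod.fst htb) ⟨i, hi⟩
        simp only [hs', dif_pos hi]
        exact h1
      · have : (fun i => t0 i + p * s t i) = t := by
          funext i; exact (hst t htA i).symm
        rw [this]; exact htA.2.2
    · intro t ht t' ht' htt
      rw [Finset.mem_coe, Finset.mem_filter, Set.Finite.mem_toFinset] at ht ht'
      have hb : f t = f t' := ht.2.trans ht'.2.symm
      have h1 := congrArg Prod.fst hb
      have h2 := congrArg Prod.snd hb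
      funext i
      rw [hst t ht.1 i, hst t' ht'.1 i]
      congr 2
      by_cases hi : i ∈ J
      · have h3 := congrFun h2 ⟨i, hi⟩
        have h4 := congrFun htt ⟨i, hi⟩
        simp only [hf] at h3
        simp only at h4
        rw [ZMod.intCast_eq_intCast_iff, Int.ModEq] at h4
        rw [← Int.mul_ediv_add_emod (s t i) p, ← Int.mul_ediv_add_emod (s t' i) p, h3, h4]
      · exact congrFun h1 ⟨i, hi⟩
  have h1 := Finset.card_le_mul_card_image_of_maps_to hmaps N hfib
  rw [Set.ncard_eq_toFinset_card _ hAf]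
  refine h1.trans ?_
  rw [Finset.card_product, hXc, hYc]
  have h2 : (4 * q + 1) ^ (Fintype.card σ - J.card) ≤
      5 ^ (Fintype.card σ - J.card) * q ^ (Fintype.card σ - J.card) := by
    rw [← mul_pow]
    exact Nat.pow_le_pow_left (by omega) _
  calc N * ((4 * q + 1) ^ (Fintype.card σ - J.card) * 3 ^ J.card)
      ≤ N * ((5 ^ (Fintype.card σ - J.card) * q ^ (Fintype.card σ - J.card)) * 3 ^ J.card) := by
        gcongr
    _ = N * 5 ^ (Fintype.card σ - J.card) * 3 ^ J.card * q ^ (Fintype.card σ - J.card) := by ring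

end Pool.Agent.Work.MP_59f3ad_nt.Cod
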