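import Mathlib
import Pool.Agent.Work.MP_59f3ad_nt.Bdx.B02

/-! MP_59f3ad_nt, Cod: the bound in a box of size at least `p ^ 2`. -/

set_option autoImplicit false

namespace Pool.Agent.Work.MP_59f3ad_nt.Cod

namespace SmX

theorem fib {X Y : Type} (A : Set X) (hA : A.Finite) (f : X → Y) (F : Set Y) (hF : F.Finite)
    (hmap : ∀ a ∈ A, f a ∈ F) (M : ℕ) (hM : ∀ y ∈ F, {a | a ∈ A ∧ f a = y}.ncard ≤ M) :
    A.ncard ≤ M * F.ncard := by
  classical
  rw [Set.ncard_eq_toFinset_card A hA, Set.ncard_eq_toFinset_card F hF]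
  refine Finset.card_le_mul_card_image_of_maps_to (f := f) ?_ M ?_
  · intro a ha
    rw [Set.Finite.mem_toFinset] at ha ⊢
    exact hmap a ha
  · intro y hy
    rw [Set.Finite.mem_toFinset] at hy
    refine le_trans (le_of_eq ?_) (hM y hy)
    rw [← Set.ncard_coe_finset]
    congr 1
    ext a
    simp only [Finset.coe_filter, Set.Finite.mem_toFinset]

set_option linter.unusedSectionVars false

variable {σ : Type} [Fintype σ]

theorem box_finite (H : ℕ) : {t : σ → ℤ | ∀ i, |t i| ≤ H}.Finite := by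
  have h : {t : σ → ℤ | ∀ i, |t i| ≤ H} ⊆ Set.pi Set.univ fun _ => Set.Icc (-(H : ℤ)) H := by
    intro t ht i _
    exact abs_le.1 (ht i)
  exact (Set.Finite.pi fun _ => Set.finite_Icc _ _).subset h

/-- the exceptional classes. -/
theorem partA {p H C0 C1 : ℕ} [Fact p.Prime] (S : Set (σ → ℤ)) (E : Set (σ → ZMod p))
    (hE : E.ncard ≤ C1 * p ^ (Fintype.card σ - 1))
    (h1 : ∀ t0 : σ → ℤ, {t : σ → ℤ | (∀ i, |t i| ≤ H) ∧
      (∀ i, (p : ℤ) ^ 1 ∣ t i - t0 i) ∧ t ∈ S}.ncard ≤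
        C0 * (H / p ^ 1 + 1) ^ (Fintype.card σ - 1)) :
    {t : σ → ℤ | ((∀ i, |t i| ≤ H) ∧ t ∈ S) ∧ (fun i => ((t i : ℤ) : ZMod p)) ∈ E}.ncard ≤
      C0 * (H / p ^ 1 + 1) ^ (Fintype.card σ - 1) * (C1 * p ^ (Fintype.card σ - 1)) := by
  refine (fib _ ((box_finite H).subset fun t ht => ht.1.1)
    (fun t => fun i => ((t i : ℤ) : ZMod p)) E (Set.toFinite E) (fun t ht => ht.2)
    (C0 * (H / p ^ 1 + 1) ^ (Fintype.card σ - 1)) fun e _ => ?_).trans
    (Nat.mul_le_mul_left _ hE)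
  rcases Set.eq_empty_or_nonempty {a : σ → ℤ |
    a ∈ {t : σ → ℤ | ((∀ i, |t i| ≤ H) ∧ t ∈ S) ∧ (fun i => ((t i : ℤ) : ZMod p)) ∈ E} ∧
      (fun i => ((a i : ℤ) : ZMod p)) = e} with h2 | ⟨t0, ht0⟩
  · rw [h2, Set.ncard_empty]
    exact Nat.zero_le _
  · refine (Set.ncard_le_ncard ?_ ((box_finite H).subset fun t ht => ht.1)).trans (h1 t0)
    rintro t ⟨⟨⟨h3, h4⟩, _⟩, h5⟩
    refine ⟨h3, fun i => ?_, h4⟩
    have h6 : ((t i : ℤ) : ZMod p) = ((t0 i : ℤ) : ZMod p) := by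
      rw [← ht0.2] at h5
      exact congrFun h5 i
    rw [pow_one]
    exact (ZMod.intCast_eq_intCast_iff_dvd_sub _ _ _).1 h6.symm

/-- the digits of `t`. -/
def dig (p : ℕ) (J : Finset σ) (t : σ → ℤ) :
    ((σ → ZMod p) × ({i // i ∉ J} → ZMod p)) × (J → ZMod p) :=
  ((fun i => ((t i : ℤ) : ZMod p), fun i => ((t i / p : ℤ) : ZMod p)),
    fun i => ((t i / p : ℤ) : ZMod p))

theorem dig_inj {p : ℕ} (J : Finset σ) {t t' : σ → ℤ} (h : dig p J t = dig p J t') (i : σ) :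
    ((p : ℤ)) ^ 2 ∣ t i - t' i := by
  have h1 : ((t i : ℤ) : ZMod p) = ((t' i : ℤ) : ZMod p) :=
    congrFun (congrArg (fun x => x.1.1) h) i
  have h2 : ((t i / p : ℤ) : ZMod p) = ((t' i / p : ℤ) : ZMod p) := by
    by_cases hi : i ∈ J
    · exact congrFun (congrArg (fun x => x.2) h) ⟨i, hi⟩
    · exact congrFun (congrArg (fun x => x.1.2) h) ⟨i, hi⟩
  have h3 : t i % p = t' i % p := by
    have := (ZMod.intCast_eq_intCast_iff _ _ p).1 h1
    exact this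
  obtain ⟨q, hq⟩ := (ZMod.intCast_eq_intCast_iff_dvd_sub _ _ _).1 h2.symm
  refine ⟨q, ?_⟩
  have e1 := Int.emod_add_mul_ediv (t i) p
  have e2 := Int.emod_add_mul_ediv (t' i) p
  rw [← e1, ← e2, h3]
  linear_combination (p : ℤ) * hq

theorem digits_card {p N : ℕ} [Fact p.Prime] (J : Finset σ) (T : Set (σ → ℤ))
    (E : Set (σ → ZMod p)) (S : Set (σ → ℤ)) (hTS : ∀ t ∈ T, t ∈ S)
    (hTE : ∀ t ∈ T, (fun i => ((t i : ℤ) : ZMod p)) ∉ E)
    (h : ∀ t0 : σ → ℤ, (fun i => ((t0 i : ℤ) : ZMod p)) ∉ E → ∀ s' : σ → ℤ,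
      {τ : J → ZMod p | ∃ s : σ → ℤ,
        (∀ i, i ∉ J → ((s i : ℤ) : ZMod p) = ((s' i : ℤ) : ZMod p)) ∧
        (∀ i : J, ((s i : ℤ) : ZMod p) = τ i) ∧ (fun i => t0 i + p * s i) ∈ S}.ncard ≤ N) :
    (dig p J '' T).ncard ≤ N * p ^ (2 * Fintype.card σ - J.card) := by
  classical
  have hcard : (Set.univ : Set ((σ → ZMod p) × ({i // i ∉ J} → ZMod p))).ncard =
      p ^ (2 * Fintype.card σ - J.card) := by
    rw [Set.ncard_univ, Nat.card_prod, Nat.card_fun, Nat.card_fun, Nat.card_eq_fintype_card,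
      Nat.card_eq_fintype_card, Nat.card_eq_fintype_card, ZMod.card, ← pow_add,
      Fintype.card_subtype_compl, Fintype.card_coe]
    congr 1
    have := J.card_le_univ
    omega
  rw [← hcard]
  refine fib _ (Set.toFinite _) (fun x => x.1) Set.univ (Set.toFinite _) (fun _ _ => Set.mem_univ _)
    N ?_
  rintro ⟨u, v⟩ -
  rcases Set.eq_empty_or_nonempty {a | a ∈ dig p J '' T ∧ a.1 = (u, v)} with h2 | ⟨x, ⟨t1, ht1, rfl⟩, hx⟩
  · rw [h2, Set.ncard_empty]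
    exact Nat.zero_le _
  · -- the lifts
    have hp : (0 : ℤ) < p := by exact_mod_cast (Fact.out : p.Prime).pos
    have hu : u ∉ E := by
      have h3 := hTE t1 ht1
      have h4 : (fun i => ((t1 i : ℤ) : ZMod p)) = u := congrArg Prod.fst hx
      rwa [h4] at h3
    have hu' : (fun i => ((t1 i % p : ℤ) : ZMod p)) ∉ E := by
      have h5 : (fun i => ((t1 i : ℤ) : ZMod p)) = u := congrArg Prod.fst hx
      have h4 : (fun i => ((t1 i % p : ℤ) : ZMod p)) = u := by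
        rw [← h5]
        funext i
        exact ZMod.intCast_mod _ _
      rwa [h4]
    refine le_trans ?_ (h (fun i => t1 i % p) hu' (fun i => t1 i / p))
    refine Set.ncard_le_ncard_of_injOn (fun x => x.2) ?_ ?_ (Set.toFinite _)
    · rintro x ⟨⟨t, ht, rfl⟩, hx'⟩
      refine ⟨fun i => t i / p, fun i hi => ?_, fun i => rfl, ?_⟩
      · have h5 : (fun i : {i // i ∉ J} => ((t i / p : ℤ) : ZMod p)) = v :=
          congrArg Prod.snd hx'
        have h6 : (fun i : {i // i ∉ J} => ((t1 i / p : ℤ) : ZMod p)) = v :=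
          congrArg Prod.snd hx
        exact congrFun (h5.trans h6.symm) ⟨i, hi⟩
      · have h7 : (fun i => t1 i % p + p * (t i / p)) = t := by
          funext i
          have h8 : ((t i : ℤ) : ZMod p) = ((t1 i : ℤ) : ZMod p) := by
            have h5 : (fun i => ((t i : ℤ) : ZMod p)) = u := congrArg Prod.fst hx'
            have h6 : (fun i => ((t1 i : ℤ) : ZMod p)) = u := congrArg Prod.fst hx
            exact congrFun (h5.trans h6.symm) i
          have h9 : t i % p = t1 i % p := (ZMod.intCast_eq_intCast_iff _ _ p).1 h8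
          rw [← h9]
          exact Int.emod_add_mul_ediv (t i) p
        show (fun i => t1 i % p + p * (t i / p)) ∈ S
        rw [h7]
        exact hTS t ht
    · rintro x ⟨_, hx1⟩ y ⟨_, hy1⟩ hxy
      exact Prod.ext (hx1.trans hy1.symm) hxy

theorem numA {p H C0 C1 d : ℕ} (hp : 0 < p) (hH : p ^ 2 ≤ H) :
    C0 * (H / p ^ 1 + 1) ^ (d - 1) * (C1 * p ^ (d - 1)) ≤
      C1 * C0 * 2 ^ (d - 1) * H ^ (d - 1) := by
  rw [pow_one]
  have h1 : 1 ≤ H / p := by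
    rw [Nat.one_le_div_iff hp]
    nlinarith
  have h2 : p * (H / p) ≤ H := Nat.mul_div_le H p
  calc C0 * (H / p + 1) ^ (d - 1) * (C1 * p ^ (d - 1))
      = C1 * C0 * ((H / p + 1) * p) ^ (d - 1) := by rw [mul_pow]; ring
    _ ≤ C1 * C0 * (2 * H) ^ (d - 1) := by
        refine Nat.mul_le_mul_left _ (Nat.pow_le_pow_left ?_ _)
        nlinarith
    _ = _ := by rw [mul_pow]; ring

theorem numB {p H C0 N d k : ℕ} (hp : 0 < p) (hH : p ^ 2 ≤ H) (hk : 1 ≤ k) (hkd : k ≤ d) :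
    C0 * (H / p ^ 2 + 1) ^ (d - 1) * (N * p ^ (2 * d - k)) ≤
      N * C0 * 2 ^ (d - 1) * (p ^ k * H ^ (d - k) + H ^ (d - 1)) := by
  have hp2 : 0 < p ^ 2 := pow_pos hp 2
  have h1 : 1 ≤ H / p ^ 2 := by
    rw [Nat.one_le_div_iff hp2]
    exact hH
  have h2 : p ^ 2 * (H / p ^ 2) ≤ H := Nat.mul_div_le H (p ^ 2)
  have h3 : (H / p ^ 2 + 1) ^ (d - 1) * (p ^ 2) ^ (d - 1) ≤ 2 ^ (d - 1) * H ^ (d - 1) := by
    rw [← mul_pow, ← mul_pow]
    refine Nat.pow_le_pow_left ?_ _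
    nlinarith
  rcases Nat.lt_or_ge k 2 with hk2 | hk2
  · have hk1 : k = 1 := by omega
    subst hk1
    have h4 : p ^ (2 * d - 1) = p * (p ^ 2) ^ (d - 1) := by
      rw [← pow_mul, ← pow_succ']
      congr 1
      omega
    calc C0 * (H / p ^ 2 + 1) ^ (d - 1) * (N * p ^ (2 * d - 1))
        = N * C0 * p * ((H / p ^ 2 + 1) ^ (d - 1) * (p ^ 2) ^ (d - 1)) := by rw [h4]; ring
      _ ≤ N * C0 * p * (2 ^ (d - 1) * H ^ (d - 1)) := Nat.mul_le_mul_left _ h3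
      _ = N * C0 * 2 ^ (d - 1) * (p ^ 1 * H ^ (d - 1)) := by ring
      _ ≤ _ := Nat.mul_le_mul_left _ (Nat.le_add_right _ _)
  · have h4 : p ^ (2 * d - k) ≤ (p ^ 2) ^ (d - 1) := by
      rw [← pow_mul]
      exact Nat.pow_le_pow_right hp (by omega)
    calc C0 * (H / p ^ 2 + 1) ^ (d - 1) * (N * p ^ (2 * d - k))
        ≤ C0 * (H / p ^ 2 + 1) ^ (d - 1) * (N * (p ^ 2) ^ (d - 1)) :=
          Nat.mul_le_mul_left _ (Nat.mul_le_mul_left _ h4)
      _ = N * C0 * ((H / p ^ 2 + 1) ^ (d - 1) * (p ^ 2) ^ (d - 1)) := by ring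
      _ ≤ N * C0 * (2 ^ (d - 1) * H ^ (d - 1)) := Nat.mul_le_mul_left _ h3
      _ = N * C0 * 2 ^ (d - 1) * H ^ (d - 1) := by ring
      _ ≤ _ := Nat.mul_le_mul_left _ (Nat.le_add_left _ _)

end SmX

open SmX in
theorem pr_Sm : StSm := by
  intro σ _ J N C0 C1 hJ
  refine ⟨C1 * C0 * 2 ^ (Fintype.card σ - 1) + N * C0 * 2 ^ (Fintype.card σ - 1), ?_⟩
  intro p _ H hH S E hE hbox hdig
  have hp : 0 < p := (Fact.out : p.Prime).pos
  set A : Set (σ → ℤ) :=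
    {t | ((∀ i, |t i| ≤ H) ∧ t ∈ S) ∧ (fun i => ((t i : ℤ) : ZMod p)) ∈ E} with hA
  set B : Set (σ → ℤ) :=
    {t | ((∀ i, |t i| ≤ H) ∧ t ∈ S) ∧ (fun i => ((t i : ℤ) : ZMod p)) ∉ E} with hB
  have hBfin : B.Finite := (box_finite H).subset fun t ht => ht.1.1
  have hsplit : {t : σ → ℤ | (∀ i, |t i| ≤ H) ∧ t ∈ S} ⊆ A ∪ B := by
    intro t ht
    by_cases h : (fun i => ((t i : ℤ) : ZMod p)) ∈ E
    · exact Or.inl ⟨ht, h⟩
    · exact Or.inr ⟨ht, h⟩
  have h1 : A.ncard ≤ C1 * C0 * 2 ^ (Fintype.card σ - 1) * H ^ (Fintype.card σ - 1) :=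
    (partA S E hE fun t0 => hbox 1 t0 le_rfl).trans (numA hp hH)
  have h2 : B.ncard ≤ C0 * (H / p ^ 2 + 1) ^ (Fintype.card σ - 1) *
      (N * p ^ (2 * Fintype.card σ - J.card)) := by
    refine (fib B hBfin (dig p J) (dig p J '' B) (hBfin.image _)
      (fun t ht => Set.mem_image_of_mem _ ht)
      (C0 * (H / p ^ 2 + 1) ^ (Fintype.card σ - 1)) ?_).trans (Nat.mul_le_mul_left _ ?_)
    · rintro _ ⟨t0, ht0, rfl⟩
      refine (Set.ncard_le_ncard ?_ ((box_finite H).subset fun t ht => ht.1)).trans (hbox 2 t0 one_le_two)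
      rintro t ⟨⟨⟨h3, h4⟩, _⟩, h5⟩
      exact ⟨h3, fun i => dig_inj J h5 i, h4⟩
    · exact digits_card J B E S (fun t ht => ht.1.2) (fun t ht => ht.2) hdig
  have h3 := h2.trans (numB hp hH hJ J.card_le_univ)
  have h4 : {t : σ → ℤ | (∀ i, |t i| ≤ H) ∧ t ∈ S}.ncard ≤ A.ncard + B.ncard := by
    refine (Set.ncard_le_ncard hsplit ?_).trans (Set.ncard_union_le A B)
    exact ((box_finite H).subset fun t ht => ht.1.1).union hBfin
  refine h4.trans ((Nat.add_le_add h1 h3).trans ?_)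
  rw [add_mul]
  refine Nat.add_le_add_right (Nat.mul_le_mul_left _ (Nat.le_add_left _ _)) _

end Pool.Agent.Work.MP_59f3ad_nt.Cod
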