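import Mathlib
import Pool.Agent.Work.MP_59f3ad_nt.Cod.Stmts

/-!
# MP_59f3ad_nt, block Cod, item Cau: a determinant of Cauchy type
-/

open Polynomial

namespace Pool.Agent.Work.MP_59f3ad_nt.Cod

theorem pr_Cau : StCau := by
  classical
  intro F _ n w e hw he _ hdet
  obtain ⟨c, hc, h0⟩ := Matrix.exists_vecMul_eq_zero_iff.2 hdet
  apply hc
  rcases Nat.eq_zero_or_pos n with rfl | hn
  · exact Subsingleton.elim _ _
  set P : F[X] := ∑ j, C (c j) * ∏ m ∈ Finset.univ.erase j, (X - C (e m)) with hPd
  have hP : P = 0 := by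
    refine Polynomial.eq_zero_of_natDegree_lt_card_of_eval_eq_zero P hw (fun l => ?_) ?_
    · have h1 := congrFun h0 l
      rw [Matrix.vecMul, dotProduct, Pi.zero_apply] at h1
      rw [hPd, eval_finsetSum, ← h1]
      refine Finset.sum_congr rfl fun j _ => ?_
      rw [eval_mul, eval_C, eval_prod, Matrix.of_apply]
      congr 1
      refine Finset.prod_congr rfl fun m _ => ?_
      rw [eval_sub, eval_X, eval_C]
    · rw [Fintype.card_fin]
      have h2 : P.natDegree ≤ n - 1 := by
        rw [hPd]
        refine natDegree_sum_le_of_forall_le _ _ fun j _ => ?_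
        refine (natDegree_C_mul_le _ _).trans ?_
        rw [natDegree_prod_of_monic _ _ fun m _ => monic_X_sub_C _]
        simp
      omega
  funext j
  have h3 := congrArg (eval (e j)) hP
  rw [hPd, eval_finsetSum, eval_zero, Finset.sum_eq_single j] at h3
  · rw [eval_mul, eval_C, eval_prod, mul_eq_zero] at h3
    rcases h3 with h3 | h3
    · exact h3
    · obtain ⟨m, hm, h4⟩ := Finset.prod_eq_zero_iff.1 h3
      rw [eval_sub, eval_X, eval_C, sub_eq_zero] at h4
      exact ((Finset.mem_erase.1 hm).1 (he h4).symm).elim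
  · intro k _ hk
    rw [eval_mul, eval_prod, Finset.prod_eq_zero (Finset.mem_erase.2 ⟨hk.symm, Finset.mem_univ j⟩),
      mul_zero]
    rw [eval_sub, eval_X, eval_C, sub_self]
  · intro h
    exact (h (Finset.mem_univ j)).elim

end Pool.Agent.Work.MP_59f3ad_nt.Cod
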