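import Mathlib
import Pool.Agent.Work.MP_59f3ad_nt.Cod.Stmts

/-! MP_59f3ad_nt, Cod: chains of a pencil of injective matrices. -/

set_option autoImplicit false

namespace Pool.Agent.Work.MP_59f3ad_nt.Cod

namespace ChainX

open Module

section

variable {F : Type} [Field F] {k n m : ℕ}

/-- all the members of the pencil are injective. -/
def Rk (A : Fin k → Matrix (Fin n) (Fin m) F) : Prop :=
  ∀ s : Fin k → F, s ≠ 0 → ∀ c : Fin n → F, Matrix.vecMul c (∑ i, s i • A i) = 0 → c = 0

/-- the chains of degree `j`. -/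
def V (A : Fin k → Matrix (Fin n) (Fin m) F) (j : ℕ) :
    Submodule F ((Fin k → ℕ) → Fin n → F) where
  carrier := {v | (∀ μ : Fin k → ℕ, ∑ i, μ i ≠ j → v μ = 0) ∧
    ∀ μ : Fin k → ℕ, (∑ i, μ i) + 1 = j →
      ∑ i, Matrix.vecMul (v (μ + Pi.single i 1)) (A i) = 0}
  add_mem' := by
    rintro v w ⟨h1, h2⟩ ⟨h3, h4⟩
    refine ⟨fun μ hμ => ?_, fun μ hμ => ?_⟩
    · rw [Pi.add_apply, h1 μ hμ, h3 μ hμ, add_zero]
    · have : ∀ i, Matrix.vecMul ((v + w) (μ + Pi.single i 1)) (A i) =
          Matrix.vecMul (v (μ + Pi.single i 1)) (A i) +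
            Matrix.vecMul (w (μ + Pi.single i 1)) (A i) := fun i => by
        rw [Pi.add_apply, Matrix.add_vecMul]
      rw [Finset.sum_congr rfl fun i _ => this i, Finset.sum_add_distrib, h2 μ hμ, h4 μ hμ,
        add_zero]
  zero_mem' := by
    refine ⟨fun μ _ => rfl, fun μ _ => Finset.sum_eq_zero fun i _ => ?_⟩
    rw [Pi.zero_apply, Matrix.zero_vecMul]
  smul_mem' := by
    rintro c v ⟨h1, h2⟩
    refine ⟨fun μ hμ => ?_, fun μ hμ => ?_⟩
    · rw [Pi.smul_apply, h1 μ hμ, smul_zero]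
    · have : ∀ i, Matrix.vecMul ((c • v) (μ + Pi.single i 1)) (A i) =
          c • Matrix.vecMul (v (μ + Pi.single i 1)) (A i) := fun i => by
        rw [Pi.smul_apply, Matrix.smul_vecMul]
      rw [Finset.sum_congr rfl fun i _ => this i, ← Finset.smul_sum, h2 μ hμ, smul_zero]

/-- the restriction to small multi-indices. -/
def res (j : ℕ) : ((Fin k → ℕ) → Fin n → F) →ₗ[F] ((Fin k → Fin (j + 1)) → Fin n → F) where
  toFun v := fun ν => v fun i => (ν i : ℕ)
  map_add' _ _ := rfl
  map_smul' _ _ := rfl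

theorem res_inj (A : Fin k → Matrix (Fin n) (Fin m) F) (j : ℕ) :
    Function.Injective ((res j).comp (V A j).subtype) := by
  rw [← LinearMap.ker_eq_bot, LinearMap.ker_eq_bot']
  rintro ⟨v, hv⟩ h
  apply Subtype.ext
  funext μ
  by_cases hμ : ∑ i, μ i = j
  · have h1 : ∀ i, μ i < j + 1 := fun i => by
      have := Finset.single_le_sum (f := μ) (fun _ _ => Nat.zero_le _) (Finset.mem_univ i)
      omega
    exact congrFun h fun i => ⟨μ i, h1 i⟩
  · exact hv.1 μ hμ

instance fin_V (A : Fin k → Matrix (Fin n) (Fin m) F) (j : ℕ) : FiniteDimensional F (V A j) :=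
  FiniteDimensional.of_injective _ (res_inj A j)

theorem finrank_V (A : Fin k → Matrix (Fin n) (Fin m) F) (j : ℕ) :
    finrank F (V A j) ≤ (j + 1) ^ k * n := by
  refine (LinearMap.finrank_le_finrank_of_injective (res_inj A j)).trans (le_of_eq ?_)
  rw [Module.finrank_pi_fintype, Finset.sum_const, Module.finrank_fintype_fun_eq_card,
    Fintype.card_fin, Finset.card_univ, Fintype.card_fun, Fintype.card_fin, Fintype.card_fin,
    smul_eq_mul]

/-- the shift. -/
def sh (i : Fin k) : ((Fin k → ℕ) → Fin n → F) →ₗ[F] ((Fin k → ℕ) → Fin n → F) where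
  toFun v := fun μ => v (μ + Pi.single i 1)
  map_add' _ _ := rfl
  map_smul' _ _ := rfl

theorem sh_mem {A : Fin k → Matrix (Fin n) (Fin m) F} {j : ℕ} (i : Fin k)
    {v : (Fin k → ℕ) → Fin n → F} (hv : v ∈ V A (j + 1)) : sh i v ∈ V A j := by
  have hs : ∀ μ : Fin k → ℕ, ∑ l, (μ + Pi.single i 1 : Fin k → ℕ) l = (∑ l, μ l) + 1 := by
    intro μ
    simp [Finset.sum_add_distrib]
  refine ⟨fun μ hμ => hv.1 _ ?_, fun μ hμ => ?_⟩
  · rw [hs]
    omega
  · have h1 := hv.2 (μ + Pi.single i 1) (by rw [hs, hμ])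
    rw [← h1]
    refine Finset.sum_congr rfl fun l _ => ?_
    have h2 : sh i v (μ + Pi.single l 1) = v (μ + Pi.single i 1 + Pi.single l 1) := by
      show v (μ + Pi.single l 1 + Pi.single i 1) = _
      rw [add_right_comm]
    rw [h2]

/-- the shift of chains. -/
def shV (A : Fin k → Matrix (Fin n) (Fin m) F) (j : ℕ) (i : Fin k) :
    V A (j + 1) →ₗ[F] V A j :=
  (sh i).restrict fun _ hv => sh_mem i hv

end

/-- the statement for `k`, `n`, `D`. -/
def P (k n D : ℕ) : Prop := ∀ (F : Type) [Field F] [IsAlgClosed F] (m : ℕ)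
  (A : Fin k → Matrix (Fin n) (Fin m) F), Rk A → ∀ j, D ≤ j → ∀ v ∈ V A j, v = 0

theorem P0 (n : ℕ) : P 0 n 1 := by
  intro F _ _ m A _ j hj v hv
  funext μ
  refine hv.1 μ ?_
  rw [Finset.univ_eq_empty, Finset.sum_empty]
  omega

theorem P1 (n : ℕ) : P 1 n 1 := by
  intro F _ _ m A hA j hj v hv
  funext μ
  by_cases hμ : ∑ i, μ i = j
  · rw [Fin.sum_univ_one] at hμ
    have h1 := hv.2 (fun _ => j - 1) (by
      rw [Fin.sum_univ_one]
      omega)
    rw [Fin.sum_univ_one] at h1
    have h2 : ((fun _ => j - 1) + Pi.single 0 1 : Fin 1 → ℕ) = μ := by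
      funext i
      rw [Subsingleton.elim i 0, Pi.add_apply, Pi.single_eq_same]
      omega
    rw [h2] at h1
    refine hA (fun _ => 1) (fun h => one_ne_zero (congrFun h 0)) (v μ) ?_
    rw [Fin.sum_univ_one, one_smul]
    exact h1
  · exact hv.1 μ hμ

section

variable {F : Type} [Field F] [IsAlgClosed F] {k n m : ℕ}

/-- Claim A. -/
theorem claimA {D : ℕ} (hP : P (k + 1) n D) {A : Fin (k + 2) → Matrix (Fin n) (Fin m) F}
    (hA : Rk A) {j : ℕ} (hj : D ≤ j) {v : (Fin (k + 2) → ℕ) → Fin n → F} (hv : v ∈ V A j)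
    (h0 : ∀ μ : Fin (k + 2) → ℕ, v (μ + Pi.single 0 1) = 0) : v = 0 := by
  have hA' : Rk (fun i : Fin (k + 1) => A i.succ) := by
    intro s hs c hc
    refine hA (Fin.cons 0 s) (fun h => hs ?_) c ?_
    · funext i
      have := congrFun h i.succ
      rwa [Fin.cons_succ] at this
    · rw [Fin.sum_univ_succ, Fin.cons_zero, zero_smul, zero_add]
      simp only [Fin.cons_succ]
      exact hc
  have hc : ∀ (ν : Fin (k + 1) → ℕ) (i : Fin (k + 1)),
      (Fin.cons 0 ν : Fin (k + 2) → ℕ) + Pi.single i.succ 1 =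
        Fin.cons 0 (ν + Pi.single i 1) := by
    intro ν i
    funext l
    refine Fin.cases ?_ (fun l => ?_) l
    · rw [Pi.add_apply, Fin.cons_zero, Fin.cons_zero,
        Pi.single_eq_of_ne (Fin.succ_ne_zero i).symm, add_zero]
    · rw [Pi.add_apply, Fin.cons_succ, Fin.cons_succ, Pi.add_apply]
      congr 1
      by_cases hli : l = i
      · rw [hli, Pi.single_eq_same, Pi.single_eq_same]
      · rw [Pi.single_eq_of_ne hli, Pi.single_eq_of_ne (fun h => hli (Fin.succ_injective _ h))]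
  have h1 : (fun ν : Fin (k + 1) → ℕ => v (Fin.cons 0 ν)) = 0 := by
    refine hP F m _ hA' j hj _ ⟨fun ν hν => hv.1 _ ?_, fun ν hν => ?_⟩
    · rw [Fin.sum_univ_succ, Fin.cons_zero, zero_add]
      simpa only [Fin.cons_succ] using hν
    · have h2 := hv.2 (Fin.cons 0 ν) (by
        rw [Fin.sum_univ_succ, Fin.cons_zero, zero_add]
        simpa only [Fin.cons_succ] using hν)
      rw [Fin.sum_univ_succ, h0, Matrix.zero_vecMul, zero_add] at h2
      rw [← h2]
      refine Finset.sum_congr rfl fun i _ => ?_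
      rw [hc]
  funext μ
  rcases Nat.eq_zero_or_pos (μ 0) with h | h
  · have h2 : μ = Fin.cons 0 (Fin.tail μ) := by
      rw [← h, Fin.cons_self_tail]
    rw [h2]
    exact congrFun h1 (Fin.tail μ)
  · have h2 : μ = Function.update μ 0 (μ 0 - 1) + Pi.single 0 1 := by
      funext l
      by_cases hl : l = 0
      · rw [hl, Pi.add_apply, Function.update_self, Pi.single_eq_same]
        omega
      · rw [Pi.add_apply, Function.update_of_ne hl, Pi.single_eq_of_ne hl, add_zero]
    rw [h2]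
    exact h0 _

/-- inserting a zero at the place `1`. -/
def emb (ν : Fin (k + 1) → ℕ) : Fin (k + 2) → ℕ := Fin.cons (ν 0) (Fin.cons 0 (Fin.tail ν))

theorem emb_sum (ν : Fin (k + 1) → ℕ) : ∑ i, emb ν i = ∑ i, ν i := by
  unfold emb
  rw [Fin.sum_univ_succ, Fin.sum_univ_succ, Fin.sum_univ_succ (f := ν)]
  simp only [Fin.cons_zero, Fin.cons_succ, zero_add]
  rfl

theorem emb_0 (ν : Fin (k + 1) → ℕ) : emb ν 0 = ν 0 := rfl

theorem emb_1 (ν : Fin (k + 1) → ℕ) : emb ν (Fin.succ 0) = 0 := rfl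

theorem emb_2 (ν : Fin (k + 1) → ℕ) (l : Fin k) : emb ν l.succ.succ = ν l.succ := rfl

theorem emb_zero (ν : Fin (k + 1) → ℕ) :
    emb (ν + Pi.single 0 1) = emb ν + Pi.single 0 1 := by
  funext l
  refine Fin.cases ?_ (fun l => ?_) l
  · rw [emb_0, Pi.add_apply, Pi.add_apply, emb_0, Pi.single_eq_same, Pi.single_eq_same]
  · refine Fin.cases ?_ (fun l => ?_) l
    · rw [emb_1, Pi.add_apply, emb_1, Pi.single_eq_of_ne (Fin.succ_ne_zero _), add_zero]
    · rw [emb_2, Pi.add_apply, Pi.add_apply, emb_2, Pi.single_eq_of_ne (Fin.succ_ne_zero _),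
        Pi.single_eq_of_ne (Fin.succ_ne_zero _)]

theorem emb_succ (ν : Fin (k + 1) → ℕ) (i : Fin k) :
    emb (ν + Pi.single i.succ 1) = emb ν + Pi.single i.succ.succ 1 := by
  funext l
  refine Fin.cases ?_ (fun l => ?_) l
  · rw [emb_0, Pi.add_apply, Pi.add_apply, emb_0, Pi.single_eq_of_ne (Fin.succ_ne_zero _).symm,
      Pi.single_eq_of_ne (Fin.succ_ne_zero _).symm]
  · refine Fin.cases ?_ (fun l => ?_) l
    · rw [emb_1, Pi.add_apply, emb_1, Pi.single_eq_of_ne
        (fun h => (Fin.succ_ne_zero i).symm (Fin.succ_injective _ h)), add_zero]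
    · rw [emb_2, Pi.add_apply, Pi.add_apply, emb_2]
      congr 1
      by_cases hli : l = i
      · rw [hli, Pi.single_eq_same, Pi.single_eq_same]
      · rw [Pi.single_eq_of_ne (fun h => hli (Fin.succ_injective _ h)),
          Pi.single_eq_of_ne (fun h => hli (Fin.succ_injective _ (Fin.succ_injective _ h)))]

/-- Claim B. -/
theorem claimB {D : ℕ} (hP : P (k + 1) n D) {A : Fin (k + 2) → Matrix (Fin n) (Fin m) F}
    (hA : Rk A) {j : ℕ} (hj : D ≤ j) {v : (Fin (k + 2) → ℕ) → Fin n → F} (hv : v ∈ V A j)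
    (c : F) (h0 : ∀ μ : Fin (k + 2) → ℕ, v (μ + Pi.single 1 1) = c • v (μ + Pi.single 0 1)) : v = 0 := by
  set A' : Fin (k + 1) → Matrix (Fin n) (Fin m) F :=
    Fin.cons (A 0 + c • A 1) (fun i => A i.succ.succ) with hA'def
  have hA' : Rk A' := by
    intro s hs x hx
    refine hA (Fin.cons (s 0) (Fin.cons (c * s 0) (Fin.tail s))) (fun h => hs ?_) x ?_
    · funext i
      refine Fin.cases ?_ (fun i => ?_) i
      · have := congrFun h 0
        rwa [Fin.cons_zero] at this
      · have := congrFun h i.succ.succ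
        rwa [Fin.cons_succ, Fin.cons_succ] at this
    · rw [← hx]
      congr 1
      rw [Fin.sum_univ_succ, Fin.sum_univ_succ, Fin.sum_univ_succ (f := fun i => s i • A' i)]
      simp only [Fin.cons_zero, Fin.cons_succ, hA'def]
      rw [smul_add, smul_smul, mul_comm c (s 0), ← add_assoc]
      rfl
  have h1 : (fun ν : Fin (k + 1) → ℕ => v (emb ν)) = 0 := by
    refine hP F m _ hA' j hj _ ⟨fun ν hν => hv.1 _ ?_, fun ν hν => ?_⟩
    · rw [emb_sum]
      exact hν
    · have h2 := hv.2 (emb ν) (by rw [emb_sum]; exact hν)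
      rw [Fin.sum_univ_succ, Fin.sum_univ_succ] at h2
      rw [← h2, Fin.sum_univ_succ]
      simp only [hA'def, Fin.cons_zero, Fin.cons_succ, emb_zero, emb_succ]
      have h3 : v (emb ν + Pi.single (Fin.succ 0) 1) = c • v (emb ν + Pi.single 0 1) := h0 _
      rw [h3, Matrix.vecMul_add, Matrix.vecMul_smul, Matrix.smul_vecMul, add_assoc]
      rfl
  funext μ
  obtain ⟨b, hb⟩ : ∃ b, b = μ 1 := ⟨_, rfl⟩
  induction b generalizing μ with
  | zero =>
    have h2 : μ = emb (Fin.cons (μ 0) (Fin.tail (Fin.tail μ))) := by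
      unfold emb
      rw [Fin.cons_zero, Fin.tail_cons]
      have h3 : (Fin.cons 0 (Fin.tail (Fin.tail μ)) : Fin (k + 1) → ℕ) = Fin.tail μ := by
        have h4 : (Fin.tail μ) 0 = 0 := hb.symm
        rw [← h4, Fin.cons_self_tail]
      rw [h3, Fin.cons_self_tail]
    rw [h2]
    exact congrFun h1 _
  | succ b ih =>
    have h2 : μ = Function.update μ 1 b + Pi.single 1 1 := by
      funext l
      by_cases hl : l = 1
      · rw [hl, Pi.add_apply, Function.update_self, Pi.single_eq_same]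
        omega
      · rw [Pi.add_apply, Function.update_of_ne hl, Pi.single_eq_of_ne hl, add_zero]
    have h3 : (Function.update μ 1 b + Pi.single 0 1 : Fin (k + 2) → ℕ) 1 = b := by
      rw [Pi.add_apply, Function.update_self, Pi.single_eq_of_ne (by simp), add_zero]
    have h4 : v μ = c • v (Function.update μ 1 b + Pi.single 0 1) := by
      rw [← h0, ← h2]
    rw [h4, ih _ h3.symm, Pi.zero_apply, Pi.zero_apply, smul_zero]

/-- Claim C. -/
theorem claimC {D : ℕ} (hP : P (k + 1) n D) {A : Fin (k + 2) → Matrix (Fin n) (Fin m) F}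
    (hA : Rk A) {j : ℕ} (hj : D ≤ j) (hne : V A (j + 1) ≠ ⊥) :
    finrank F (V A (j + 1)) < finrank F (V A j) := by
  have hinj : Function.Injective (shV A j 0) := by
    rw [← LinearMap.ker_eq_bot, LinearMap.ker_eq_bot']
    rintro ⟨v, hv⟩ h
    apply Subtype.ext
    refine claimA hP hA (by omega : D ≤ j + 1) hv fun μ => ?_
    exact congrFun (congrArg Subtype.val h) μ
  have hle := LinearMap.finrank_le_finrank_of_injective hinj
  refine lt_of_le_of_ne hle fun heq => ?_
  let e : V A (j + 1) ≃ₗ[F] V A j := LinearEquiv.ofInjectiveOfFinrankEq (shV A j 0) hinj heq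
  have he : ∀ x, e x = shV A j 0 x := fun x => rfl
  let T : Module.End F (V A (j + 1)) := e.symm.toLinearMap.comp (shV A j 1)
  have : Nontrivial (V A (j + 1)) := (Submodule.nontrivial_iff_ne_bot).2 hne
  obtain ⟨c, hc⟩ := Module.End.exists_eigenvalue T
  obtain ⟨x, hx⟩ := hc.exists_hasEigenvector
  have h1 : T x = c • x := hx.apply_eq_smul
  have h2 : shV A j 1 x = c • shV A j 0 x := by
    have h3 : e (T x) = shV A j 1 x := e.apply_symm_apply _
    rw [← h3, h1, map_smul, he]
  apply hx.2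
  apply Subtype.ext
  refine claimB hP hA (by omega : D ≤ j + 1) x.2 c fun μ => ?_
  exact congrFun (congrArg Subtype.val h2) μ

theorem descent {D : ℕ} (hP : P (k + 1) n D) {A : Fin (k + 2) → Matrix (Fin n) (Fin m) F}
    (hA : Rk A) (i : ℕ) :
    V A (D + i) = ⊥ ∨ finrank F (V A (D + i)) + i ≤ finrank F (V A D) := by
  induction i with
  | zero => exact Or.inr le_rfl
  | succ i ih =>
    by_cases hne : V A (D + i + 1) = ⊥
    · exact Or.inl hne
    · have h1 := claimC hP hA (by omega : D ≤ D + i) hne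
      rcases ih with h | h
      · exfalso
        rw [h, finrank_bot] at h1
        exact absurd h1 (Nat.not_lt_zero _)
      · refine Or.inr ?_
        have : D + (i + 1) = D + i + 1 := rfl
        rw [this]
        omega

end

theorem PS {k n D : ℕ} (hP : P (k + 1) n D) :
    P (k + 2) n (D + ((D + 1) ^ (k + 2) * n + 1)) := by
  intro F _ _ m A hA j hj v hv
  obtain ⟨i, rfl⟩ : ∃ i, j = D + i := ⟨j - D, by omega⟩
  rcases descent hP hA i with h | h
  · rw [h] at hv
    exact (Submodule.mem_bot F).1 hv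
  · exfalso
    have := finrank_V A D
    omega

theorem all_P (k n : ℕ) : ∃ D, P k n D := by
  rcases k with _ | k
  · exact ⟨1, P0 n⟩
  · induction k with
    | zero => exact ⟨1, P1 n⟩
    | succ k ih =>
      obtain ⟨D, hD⟩ := ih
      exact ⟨_, PS hD⟩

end ChainX

open ChainX in
theorem pr_Chain : StChain := by
  intro k n
  obtain ⟨D, hD⟩ := all_P k n
  refine ⟨D, fun F _ _ m A hA j hj v hv μ hμ => ?_⟩
  have h1 : (fun μ : Fin k → ℕ => if ∑ i, μ i = j then v μ else 0) = 0 := by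
    refine hD F m A hA j hj _ ⟨fun μ hμ => if_neg hμ, fun μ hμ => ?_⟩
    rw [← hv μ hμ]
    refine Finset.sum_congr rfl fun i _ => ?_
    have h3 : ∑ l, (μ + Pi.single i 1 : Fin k → ℕ) l = j := by
      rw [← hμ]
      simp [Finset.sum_add_distrib]
    simp only [if_pos h3]
  have h2 := congrFun h1 μ
  simp only [if_pos hμ] at h2
  exact h2

end Pool.Agent.Work.MP_59f3ad_nt.Cod
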