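import Mathlib
import Pool.Agent.Work.MP_59f3ad_nt.Cod.Stmts

/-!
MP_59f3ad_nt, item Dens: the sum over the primes.
-/

namespace Pool.Agent.Work.MP_59f3ad_nt.Cod

namespace DensX

/-- explicit Chebyshev upper bound for natural numbers -/
theorem pi_le_nat (y : ℕ) (hy : 2 ≤ y) :
    ((Nat.primeCounting y : ℕ) : ℝ) ≤ 5 * y / Real.log y := by
  have hy1 : (1 : ℝ) < (y : ℝ) := by exact_mod_cast hy
  have hpos : (0 : ℝ) < (y : ℝ) := by linarith
  have h := Chebyshev.pi_le_log4_mul_div hy1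
  rw [Nat.floor_natCast] at h
  have hlog : 0 < Real.log y := Real.log_pos hy1
  have hsq : Real.log (√(y : ℝ)) = Real.log y / 2 := Real.log_sqrt hpos.le
  have hspos : 0 < √(y : ℝ) := Real.sqrt_pos.mpr hpos
  have h1 : Real.log (√(y : ℝ)) ≤ √(y : ℝ) - 1 := Real.log_le_sub_one_of_pos hspos
  have hss : √(y : ℝ) * √(y : ℝ) = y := Real.mul_self_sqrt hpos.le
  have h2 : √(y : ℝ) * Real.log y ≤ 2 * y := by
    rw [hsq] at h1
    nlinarith
  have h4 : Real.log 4 ≤ 3 / 2 := by
    have : (4 : ℝ) = 2 ^ 2 := by norm_num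
    rw [this, Real.log_pow]
    have := Real.log_two_lt_d9
    push_cast
    linarith
  have h5 : Real.log 4 * y / Real.log (√(y : ℝ)) ≤ 3 * y / Real.log y := by
    rw [hsq, div_div_eq_mul_div]
    apply div_le_div_of_nonneg_right _ hlog.le
    nlinarith
  have h6 : √(y : ℝ) ≤ 2 * y / Real.log y := by
    rw [le_div_iff₀ hlog]
    exact h2
  calc ((Nat.primeCounting y : ℕ) : ℝ) ≤ _ := h
    _ ≤ 3 * y / Real.log y + 2 * y / Real.log y := by linarith
    _ = 5 * y / Real.log y := by ring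

theorem ncard_biUnion_le_sum {α ι : Type*} [DecidableEq ι] (f : ι → Set α) (P : Finset ι) :
    (⋃ p ∈ P, f p).ncard ≤ ∑ p ∈ P, (f p).ncard := by
  induction P using Finset.induction_on with
  | empty => simp
  | insert a s has ih =>
    rw [Finset.sum_insert has, Finset.set_biUnion_insert]
    refine (Set.ncard_union_le _ _).trans ?_
    omega

theorem box_fin {σ : Type} [Fintype σ] (X : ℕ) :
    {t : σ → ℤ | ∀ i, |t i| ≤ X}.Finite := by
  classical
  apply (Fintype.piFinset (fun _ : σ => Finset.Icc (-(X : ℤ)) X)).finite_toSet.subset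
  intro t ht
  rw [Finset.mem_coe, Fintype.mem_piFinset]
  intro i
  rw [Finset.mem_Icc]
  exact abs_le.mp (ht i)

theorem box_card {σ : Type} [Fintype σ] (X : ℕ) (hX : 1 ≤ X) :
    {t : σ → ℤ | ∀ i, |t i| ≤ X}.ncard ≤ 3 ^ Fintype.card σ * X ^ Fintype.card σ := by
  classical
  have h1 : {t : σ → ℤ | ∀ i, |t i| ≤ X} ⊆
      ((Fintype.piFinset (fun _ : σ => Finset.Icc (-(X : ℤ)) X) : Finset (σ → ℤ)) :
        Set (σ → ℤ)) := by
    intro t ht
    rw [Finset.mem_coe, Fintype.mem_piFinset]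
    intro i
    rw [Finset.mem_Icc]
    exact abs_le.mp (ht i)
  refine (Set.ncard_le_ncard h1 (Finset.finite_toSet _)).trans ?_
  rw [Set.ncard_coe_finset, Fintype.card_piFinset]
  simp only [Int.card_Icc, Finset.prod_const, Finset.card_univ]
  rw [← mul_pow]
  apply Nat.pow_le_pow_left
  omega

end DensX

open DensX in
theorem pr_Dens : StDens := by
  classical
  intro σ _ k C p0 hk hkd Bad hBad
  set d := Fintype.card σ with hd
  set B := max (p0 ^ 2) 256 with hB
  have hB256 : 256 ≤ B := le_max_right _ _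
  have hB1 : (1 : ℝ) < (B : ℝ) := by exact_mod_cast (by omega : 1 < B)
  have hlogB : 0 < Real.log B := Real.log_pos hB1
  refine ⟨3 ^ d * Real.log B + 40 * C, fun H hH => ?_⟩
  have hH1 : (1 : ℝ) < (H : ℝ) := by exact_mod_cast hH
  have hlogH : 0 < Real.log H := Real.log_pos hH1
  set S : Set (σ → ℤ) := {t : σ → ℤ | (∀ i, |t i| ≤ H) ∧ ∃ p : ℕ, p.Prime ∧ H < p ^ 2 ∧
    p ^ (k + 1) ≤ H ^ k ∧ t ∈ Bad p} with hS
  have hHd : (0 : ℝ) < (H : ℝ) ^ d := by positivity
  rw [le_div_iff₀ hlogH]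
  rcases lt_or_ge H B with hHB | hHB
  · -- small `H`
    have h1 : S.ncard ≤ 3 ^ d * H ^ d :=
      (Set.ncard_le_ncard (fun t ht => ht.1) (box_fin H)).trans (box_card H (by omega))
    have h2 : (S.ncard : ℝ) ≤ 3 ^ d * (H : ℝ) ^ d := by exact_mod_cast h1
    have h3 : Real.log H ≤ Real.log B :=
      Real.log_le_log (by linarith) (by exact_mod_cast hHB.le)
    calc (S.ncard : ℝ) * Real.log H ≤ (3 ^ d * (H : ℝ) ^ d) * Real.log B :=
          mul_le_mul h2 h3 hlogH.le (by positivity)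
      _ = 3 ^ d * Real.log B * (H : ℝ) ^ d := by ring
      _ ≤ _ := by
          have : (0 : ℝ) ≤ 40 * C * (H : ℝ) ^ d := by positivity
          linarith
  · -- large `H`
    have hH256 : 256 ≤ H := hB256.trans hHB
    have hp0 : p0 ^ 2 ≤ H := (le_max_left _ _).trans hHB
    set P := Nat.findGreatest (fun P => P ^ (k + 1) ≤ H ^ k) H with hP
    have hP1 : P ^ (k + 1) ≤ H ^ k := by
      have := Nat.findGreatest_spec (P := fun P => P ^ (k + 1) ≤ H ^ k) (m := 0) (n := H)
        (Nat.zero_le _) (by simp)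
      exact this
    have hPH : P ≤ H := Nat.findGreatest_le H
    have hHk : ∀ p : ℕ, p ^ (k + 1) ≤ H ^ k → p ≤ H := by
      intro p hp
      by_contra hcon
      push Not at hcon
      have h1 : H ^ k * H < p ^ k * p := by
        have := Nat.pow_lt_pow_left hcon (Nat.succ_ne_zero k)
        rw [← pow_succ, ← pow_succ]
        exact this
      have h2 : H ^ k * 1 ≤ H ^ k * H := Nat.mul_le_mul_left _ (by omega)
      rw [pow_succ] at hp
      omega
    have hPmax : ∀ p : ℕ, p ^ (k + 1) ≤ H ^ k → p ≤ P := fun p hp =>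
      Nat.le_findGreatest (hHk p hp) hp
    have hP2 : H ^ k < (P + 1) ^ (k + 1) := by
      by_contra hcon
      push Not at hcon
      have := hPmax _ hcon
      omega
    have hP3 : 1 ≤ P := hPmax 1 (by rw [one_pow]; exact Nat.one_le_pow _ _ (by omega))
    have h4P : H < 4 * P ^ 2 := by
      have h1 : H ^ k < (2 * P) ^ (k + 1) :=
        lt_of_lt_of_le hP2 (Nat.pow_le_pow_left (by omega) _)
      have h2 : (H ^ k) ^ 2 < ((2 * P) ^ (k + 1)) ^ 2 := Nat.pow_lt_pow_left h1 (by norm_num)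
      have h3 : H ^ (k + 1) ≤ (H ^ k) ^ 2 := by
        rw [← pow_mul]
        exact Nat.pow_le_pow_right (by omega) (by omega)
      have h4 : H ^ (k + 1) < ((2 * P) ^ 2) ^ (k + 1) := by
        rw [← pow_mul, mul_comm 2 (k + 1), pow_mul]
        omega
      have h5 := lt_of_pow_lt_pow_left₀ (k + 1) (Nat.zero_le _) h4
      calc H < (2 * P) ^ 2 := h5
        _ = 4 * P ^ 2 := by ring
    have hP2' : 2 ≤ P := by
      by_contra hcon
      have : P = 1 := by omega
      rw [this] at h4P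
      omega
    have hHP4 : H ≤ P ^ 4 := by
      have h1 : 16 * H ≤ H * H := Nat.mul_le_mul_right _ (by omega)
      have h2 : H * H ≤ (4 * P ^ 2) * (4 * P ^ 2) := Nat.mul_le_mul h4P.le h4P.le
      have h3 : (4 * P ^ 2) * (4 * P ^ 2) = 16 * P ^ 4 := by ring
      omega
    set Q := (Finset.range (P + 1)).filter (fun p => p.Prime ∧ H < p ^ 2) with hQ
    have hsub : S ⊆ ⋃ p ∈ Q, {t : σ → ℤ | (∀ i, |t i| ≤ H) ∧ t ∈ Bad p} := by
      rintro t ⟨hb, p, hp, hpH, hpk, ht⟩
      simp only [Set.mem_iUnion]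
      refine ⟨p, ?_, hb, ht⟩
      rw [hQ, Finset.mem_filter, Finset.mem_range]
      exact ⟨Nat.lt_succ_of_le (hPmax p hpk), hp, hpH⟩
    have hfinU : (⋃ p ∈ Q, {t : σ → ℤ | (∀ i, |t i| ≤ H) ∧ t ∈ Bad p}).Finite :=
      Q.finite_toSet.biUnion (fun p _ => (box_fin H).subset fun t ht => ht.1)
    have hcard : S.ncard ≤ Q.card * (C * (P ^ k * H ^ (d - k) + H ^ (d - 1))) := by
      calc S.ncard ≤ (⋃ p ∈ Q, {t : σ → ℤ | (∀ i, |t i| ≤ H) ∧ t ∈ Bad p}).ncard :=
            Set.ncard_le_ncard hsub hfinU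
        _ ≤ ∑ p ∈ Q, {t : σ → ℤ | (∀ i, |t i| ≤ H) ∧ t ∈ Bad p}.ncard :=
            ncard_biUnion_le_sum _ _
        _ ≤ ∑ _p ∈ Q, C * (P ^ k * H ^ (d - k) + H ^ (d - 1)) := by
            apply Finset.sum_le_sum
            intro p hp
            rw [hQ, Finset.mem_filter, Finset.mem_range] at hp
            obtain ⟨hpP, hpp, hpH⟩ := hp
            have hpP' : p ≤ P := by omega
            have hp0p : p0 < p := by
              by_contra hcon
              push Not at hcon
              have := Nat.pow_le_pow_left hcon 2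
              omega
            refine (hBad p hpp hp0p H (hpP'.trans hPH) hpH.le).trans ?_
            gcongr
        _ = Q.card * (C * (P ^ k * H ^ (d - k) + H ^ (d - 1))) := by
            rw [Finset.sum_const, smul_eq_mul]
    have hQcard : Q.card ≤ Nat.primeCounting P := by
      have h1 : Q ⊆ (Finset.range (P + 1)).filter Nat.Prime := by
        intro p hp
        rw [hQ, Finset.mem_filter] at hp
        exact Finset.mem_filter.2 ⟨hp.1, hp.2.1⟩
      refine (Finset.card_le_card h1).trans (le_of_eq ?_)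
      rw [Nat.primeCounting, Nat.primeCounting', Nat.count_eq_card_filter_range]
    have hpi := pi_le_nat P hP2'
    have hP1r : (1 : ℝ) < (P : ℝ) := by exact_mod_cast hP2'
    have hlogP : 0 < Real.log P := Real.log_pos hP1r
    have hQr : (Q.card : ℝ) * Real.log P ≤ 5 * P := by
      rw [le_div_iff₀ hlogP] at hpi
      refine le_trans (mul_le_mul_of_nonneg_right ?_ hlogP.le) hpi
      exact_mod_cast hQcard
    have hlogle : Real.log H ≤ 4 * Real.log P := by
      have h3 : (H : ℝ) ≤ (P : ℝ) ^ 4 := by exact_mod_cast hHP4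
      calc Real.log H ≤ Real.log ((P : ℝ) ^ 4) := Real.log_le_log (by linarith) h3
        _ = 4 * Real.log P := by rw [Real.log_pow]; norm_num
    have hmain : (S.ncard : ℝ) ≤ Q.card * (C * ((P : ℝ) ^ k * (H : ℝ) ^ (d - k) +
        (H : ℝ) ^ (d - 1))) := by exact_mod_cast hcard
    have hA1 : (P : ℝ) * ((P : ℝ) ^ k * (H : ℝ) ^ (d - k)) ≤ (H : ℝ) ^ d := by
      have h1 : (P : ℝ) ^ (k + 1) ≤ (H : ℝ) ^ k := by exact_mod_cast hP1
      calc (P : ℝ) * ((P : ℝ) ^ k * (H : ℝ) ^ (d - k))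
          = (P : ℝ) ^ (k + 1) * (H : ℝ) ^ (d - k) := by ring
        _ ≤ (H : ℝ) ^ k * (H : ℝ) ^ (d - k) := by gcongr
        _ = (H : ℝ) ^ d := by rw [← pow_add, Nat.add_sub_cancel' hkd]
    have hA2 : (P : ℝ) * (H : ℝ) ^ (d - 1) ≤ (H : ℝ) ^ d := by
      have h1 : (P : ℝ) ≤ H := by exact_mod_cast hPH
      calc (P : ℝ) * (H : ℝ) ^ (d - 1) ≤ (H : ℝ) * (H : ℝ) ^ (d - 1) := by gcongr
        _ = (H : ℝ) ^ d := by rw [← pow_succ', Nat.sub_add_cancel (by omega)]
    set E : ℝ := (P : ℝ) ^ k * (H : ℝ) ^ (d - k) + (H : ℝ) ^ (d - 1) with hE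
    have hE0 : 0 ≤ E := by positivity
    have hPE : (P : ℝ) * E ≤ 2 * (H : ℝ) ^ d := by
      rw [hE, mul_add]
      linarith
    calc (S.ncard : ℝ) * Real.log H
        ≤ (Q.card * (C * E)) * Real.log H := mul_le_mul_of_nonneg_right hmain hlogH.le
      _ ≤ (Q.card * (C * E)) * (4 * Real.log P) := by
          apply mul_le_mul_of_nonneg_left hlogle
          positivity
      _ = 4 * (C * E) * (Q.card * Real.log P) := by ring
      _ ≤ 4 * (C * E) * (5 * P) := by
          apply mul_le_mul_of_nonneg_left hQr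
          positivity
      _ = 20 * C * (P * E) := by ring
      _ ≤ 20 * C * (2 * (H : ℝ) ^ d) := by
          apply mul_le_mul_of_nonneg_left hPE
          positivity
      _ = 40 * C * (H : ℝ) ^ d := by ring
      _ ≤ _ := by
          have : 0 ≤ 3 ^ d * Real.log B * (H : ℝ) ^ d := by positivity
          linarith

end Pool.Agent.Work.MP_59f3ad_nt.Cod
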