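import Mathlib
import Pool.Agent.Work.MP_59f3ad_nt.Cod.Stmts

/-! The bound for the digits over an algebraically closed field. -/

open Polynomial

namespace Pool.Agent.Work.MP_59f3ad_nt.Cod

namespace EvX

variable {F : Type} [Field F] {r1 r2 : ℕ}

theorem dfac_add (t s s' : Ix r1 r2 → F) (j : Fin r1 ⊕ Fin r2) :
    dfac t (s + s') j = dfac t s j + dfac t s' j := by
  rcases j with i | k
  · simp only [dfac, Pi.add_apply, map_add]
    ring
  · simp only [dfac, Pi.add_apply, map_add, mul_add]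
    ring

theorem dfac_smul (t : Ix r1 r2 → F) (a : F) (s : Ix r1 r2 → F) (j : Fin r1 ⊕ Fin r2) :
    dfac t (a • s) j = C a * dfac t s j := by
  rcases j with i | k
  · simp only [dfac, Pi.smul_apply, smul_eq_mul, map_mul]
    ring
  · simp only [dfac, Pi.smul_apply, smul_eq_mul, map_mul]
    ring

/-- The value of the derivative in the direction `s` at a point, as a linear map. -/
noncomputable def dl (t : Ix r1 r2 → F) (ζ : F) : (Ix r1 r2 → F) →ₗ[F] F where
  toFun s := (dgg t s).eval ζ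
  map_add' s s' := by
    simp only [dgg, dfac_add, add_mul, Finset.sum_add_distrib, eval_add]
  map_smul' a s := by
    simp only [dgg, dfac_smul, eval_finsetSum, eval_mul, eval_C, RingHom.id_apply, smul_eq_mul,
      Finset.mul_sum, mul_assoc]

theorem dl_apply (t s : Ix r1 r2 → F) (ζ : F) : dl t ζ s = (dgg t s).eval ζ := rfl

theorem natDegree_der (t : Ix r1 r2 → F) (hd : 1 ≤ r1 + 2 * r2)
    (h : ((r1 + 2 * r2 : ℕ) : F) ≠ 0) : (derivative (gg t)).natDegree = r1 + 2 * r2 - 1 := by
  refine le_antisymm ((natDegree_derivative_le _).trans (by rw [gg_natDegree])) ?_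
  refine le_natDegree_of_ne_zero ?_
  rw [coeff_derivative]
  have h1 : r1 + 2 * r2 - 1 + 1 = r1 + 2 * r2 := by omega
  rw [h1]
  have h2 : (gg t).coeff (r1 + 2 * r2) = 1 := by
    have := (gg_monic t).coeff_natDegree
    rwa [gg_natDegree] at this
  rw [h2, one_mul]
  have h3 : ((r1 + 2 * r2 - 1 : ℕ) : F) + 1 = ((r1 + 2 * r2 : ℕ) : F) := by
    rw [← Nat.cast_succ, Nat.succ_eq_add_one, h1]
  rw [h3]
  exact h

theorem card_crit [IsAlgClosed F] (t : Ix r1 r2 → F) (hd : 1 ≤ r1 + 2 * r2)
    (h : ((r1 + 2 * r2 : ℕ) : F) ≠ 0) (hs : (derivative (gg t)).Separable) [DecidableEq F] :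
    (derivative (gg t)).roots.toFinset.card = r1 + 2 * r2 - 1 := by
  rw [Multiset.toFinset_card_of_nodup (nodup_roots hs),
    (splits_iff_card_roots.1 (IsAlgClosed.splits _)), natDegree_der t hd h]

end EvX

open EvX in
theorem pr_Ev : StId → StFin → StHZ → StMDS → StJs → StEv := by
  intro hId hFin hHZ hMDS hJs r1 r2 k hd hk hk2 hev
  obtain ⟨N, hN⟩ := hFin k (r1 + r2 - 1)
  refine ⟨N, ?_⟩
  intro F _ _ t h2 hdF hsep hsep' hDD j0 L M hM s' T hT
  classical
  -- the rows
  have hcard : Fintype.card {j : Fin r1 ⊕ Fin r2 // j ≠ j0} = r1 + r2 - 1 := by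
    rw [Fintype.card_subtype_compl, Fintype.card_subtype_eq]
    simp
  let e : {j : Fin r1 ⊕ Fin r2 // j ≠ j0} ≃ Fin (r1 + r2 - 1) := Fintype.equivFinOfCardEq hcard
  -- sums over the rows
  have hrow : ∀ φ : Fin r1 ⊕ Fin r2 → F, φ j0 = 0 →
      ∑ l, φ (e.symm l) = ∑ j, φ j := by
    intro φ hφ
    have h1 : ∑ l, φ (e.symm l) = ∑ j : {j : Fin r1 ⊕ Fin r2 // j ≠ j0}, φ j :=
      Equiv.sum_comp e.symm (fun j : {j : Fin r1 ⊕ Fin r2 // j ≠ j0} => φ j)
    rw [h1, ← Finset.sum_subtype (Finset.univ.filter (fun j => j ≠ j0)) (by simp) φ,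
      Finset.sum_filter]
    refine Finset.sum_congr rfl fun j _ => ?_
    split_ifs with h
    · rfl
    · rw [not_not] at h
      rw [h, hφ]
  -- the columns
  set Z := (derivative (gg t)).roots.toFinset with hZ
  have hg0 : derivative (gg t) ≠ 0 := hsep'.ne_zero
  have hZm : ∀ ζ, ζ ∈ Z ↔ (derivative (gg t)).eval ζ = 0 := by
    intro ζ
    rw [hZ, Multiset.mem_toFinset, mem_roots hg0]
    rfl
  have hZc : Z.card = r1 + 2 * r2 - 1 := card_crit t hd hdF hsep'
  let z : Fin Z.card → F := fun l => (Z.equivFin.symm l : F)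
  have hz : ∀ l, z l ∈ Z := fun l => (Z.equivFin.symm l).2
  have hz' : ∀ ζ ∈ Z, ∃ l, z l = ζ := by
    intro ζ hζ
    refine ⟨Z.equivFin ⟨ζ, hζ⟩, ?_⟩
    change ((Z.equivFin.symm (Z.equivFin ⟨ζ, hζ⟩) : Z) : F) = ζ
    rw [Equiv.symm_apply_apply]
  -- the parameters
  let κ : Js r1 r2 k ≃ Fin k := Finset.equivFinOfCardEq (hJs r1 r2 k hd hk2 hev)
  let ε : Fin k → Ix r1 r2 → F := fun i => Pi.single (κ.symm i : Ix r1 r2) 1
  have hcomb : ∀ (σ : Fin k → F) (i : Ix r1 r2),
      (∑ m, σ m • ε m) i = if h : i ∈ Js r1 r2 k then σ (κ ⟨i, h⟩) else 0 := by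
    intro σ i
    rw [Finset.sum_apply]
    split_ifs with h
    · rw [Finset.sum_eq_single (κ ⟨i, h⟩)]
      · simp only [Pi.smul_apply, smul_eq_mul, ε, Equiv.symm_apply_apply, Pi.single_eq_same,
          mul_one]
      · intro m _ hm
        simp only [Pi.smul_apply, smul_eq_mul, ε]
        rw [Pi.single_eq_of_ne, mul_zero]
        intro hi
        apply hm
        have h3 : κ.symm m = ⟨i, h⟩ := Subtype.ext hi.symm
        rw [← h3, Equiv.apply_symm_apply]
      · intro h'
        exact absurd (Finset.mem_univ _) h'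
    · refine Finset.sum_eq_zero fun m _ => ?_
      simp only [Pi.smul_apply, smul_eq_mul, ε]
      rw [Pi.single_eq_of_ne, mul_zero]
      intro hi
      apply h
      rw [hi]
      exact (κ.symm m).2
  -- the matrices
  let s'' : Ix r1 r2 → F := fun i => if i ∈ Js r1 r2 k then 0 else s' i
  let K0 : Matrix (Fin (r1 + r2 - 1)) (Fin Z.card) F := Matrix.of fun l m =>
    (gg t).eval (z m) * (L (e.symm l)).eval (z m) -
      M * (WW t (e.symm l)).eval (z m) * dl t (z m) s''
  let A : Fin k → Matrix (Fin (r1 + r2 - 1)) (Fin Z.card) F := fun i => Matrix.of fun l m =>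
    -(M * (WW t (e.symm l)).eval (z m) * dl t (z m) (ε i))
  have hAs : ∀ (σ : Fin k → F) (l : Fin (r1 + r2 - 1)) (m : Fin Z.card),
      (∑ i, σ i • A i) l m =
        -(M * (WW t (e.symm l)).eval (z m) * dl t (z m) (∑ i, σ i • ε i)) := by
    intro σ l m
    rw [Matrix.sum_apply, map_sum, Finset.mul_sum, ← Finset.sum_neg_distrib]
    refine Finset.sum_congr rfl fun i _ => ?_
    rw [Matrix.smul_apply, map_smul]
    simp only [A, Matrix.of_apply, smul_eq_mul]
    ring
  -- the rank hypothesis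
  have hrank : ∀ σ : Fin k → F, σ ≠ 0 → ∀ c : Fin (r1 + r2 - 1) → F,
      Matrix.vecMul c (∑ i, σ i • A i) = 0 → c = 0 := by
    intro σ hσ c hc
    set s : Ix r1 r2 → F := ∑ i, σ i • ε i with hs
    have hsJ : ∀ i, i ∉ Js r1 r2 k → s i = 0 := by
      intro i hi
      rw [hs, hcomb, dif_neg hi]
    have hs0 : s ≠ 0 := by
      intro h0
      apply hσ
      funext i
      have h1 := hcomb σ (κ.symm i)
      rw [← hs, h0, dif_pos (κ.symm i).2] at h1
      have h3 : (⟨(κ.symm i : Ix r1 r2), (κ.symm i).2⟩ : Js r1 r2 k) = κ.symm i := rfl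
      rw [h3, Equiv.apply_symm_apply] at h1
      exact h1.symm
    let cc : Fin r1 ⊕ Fin r2 → F := fun j => if h : j = j0 then 0 else c (e ⟨j, h⟩)
    have hcc0 : cc j0 = 0 := dif_pos rfl
    have hcce : ∀ l, cc (e.symm l) = c l := by
      intro l
      have h1 : ¬ ((e.symm l : {j : Fin r1 ⊕ Fin r2 // j ≠ j0}) : Fin r1 ⊕ Fin r2) = j0 :=
        (e.symm l).2
      simp only [cc]
      rw [dif_neg h1]
      exact congrArg c (e.apply_symm_apply l)
    have hW : ∀ m, dl t (z m) s ≠ 0 → ∑ j, cc j * (WW t j).eval (z m) = 0 := by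
      intro m hm
      have h1 := congrFun hc m
      rw [Matrix.vecMul, dotProduct] at h1
      simp only [hAs, ← hs, Pi.zero_apply] at h1
      rw [← hrow (fun j => cc j * (WW t j).eval (z m)) (by rw [hcc0, zero_mul])]
      have h3 : (-(M * dl t (z m) s)) * ∑ l, cc (e.symm l) * (WW t (e.symm l)).eval (z m) = 0 := by
        rw [Finset.mul_sum, ← h1]
        refine Finset.sum_congr rfl fun l _ => ?_
        rw [hcce]
        ring
      exact (mul_eq_zero.1 h3).resolve_left (neg_ne_zero.2 (mul_ne_zero hM hm))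
    have hZ0 := hHZ F r1 r2 k hk h2 t s hsep hsJ hs0 (Z.filter fun ζ => dl t ζ s = 0) (by
      intro ζ hζ
      rw [Finset.mem_filter] at hζ
      exact ⟨(hZm ζ).1 hζ.1, hζ.2⟩)
    have hcount := Finset.card_filter_add_card_filter_not (s := Z) (fun ζ => dl t ζ s = 0)
    have hconst := hMDS F r1 r2 k hd hk hk2 t hdF hsep hsep' hDD cc
      (Z.filter fun ζ => ¬ dl t ζ s = 0) (by
        intro ζ hζ
        rw [Finset.mem_filter] at hζ
        exact (hZm ζ).1 hζ.1) (by omega) (by
        intro ζ hζ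
        rw [Finset.mem_filter] at hζ
        obtain ⟨m, rfl⟩ := hz' ζ hζ.1
        exact hW m hζ.2)
    funext l
    rw [← hcce l, hconst (e.symm l) j0, hcc0]
    rfl
  -- the conclusion
  have hinj : Set.InjOn (fun (s : Ix r1 r2 → F) (i : Fin k) => s (κ.symm i)) (T : Set _) := by
    intro s hs u hu hsu
    funext i
    by_cases hi : i ∈ Js r1 r2 k
    · have h1 := congrFun hsu (κ ⟨i, hi⟩)
      simp only [Equiv.symm_apply_apply] at h1
      exact h1
    · rw [(hT s hs).1 i hi, (hT u hu).1 i hi]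
  rw [← Finset.card_image_of_injOn hinj]
  refine hN F Z.card K0 A hrank _ ?_
  intro τ hτ
  rw [Finset.mem_image] at hτ
  obtain ⟨s, hs, rfl⟩ := hτ
  obtain ⟨hs1, c, hc0, hc, heq⟩ := hT s hs
  refine ⟨fun l => c (e.symm l), ?_, ?_⟩
  · intro h0
    apply hc
    funext j
    by_cases hj : j = j0
    · rw [hj, hc0]
      rfl
    · have h1 := congrFun h0 (e ⟨j, hj⟩)
      simp only [Equiv.symm_apply_apply] at h1
      exact h1
  · funext m
    have hdec : s = s'' + ∑ i, s (κ.symm i) • ε i := by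
      funext i
      rw [Pi.add_apply, hcomb]
      by_cases hi : i ∈ Js r1 r2 k
      · rw [dif_pos hi]
        simp only [s'', if_pos hi, zero_add, Equiv.symm_apply_apply]
      · rw [dif_neg hi]
        simp only [s'', if_neg hi, add_zero]
        exact hs1 i hi
    have hdz : (derivative (gg t)).eval (z m) = 0 := (hZm _).1 (hz m)
    have h1 := congrArg (eval (z m)) heq
    rw [eval_finsetSum, eval_zero] at h1
    have h3 : ∑ j, c j * ((gg t).eval (z m) * (L j).eval (z m) -
        M * (WW t j).eval (z m) * dl t (z m) s) = 0 := by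
      have h4 : (gg t).eval (z m) * ∑ j, (C (c j) * (L j + C M * NN t s j)).eval (z m) = 0 := by
        rw [h1, mul_zero]
      rw [← h4, Finset.mul_sum]
      refine Finset.sum_congr rfl fun j _ => ?_
      have h5 := congrArg (eval (z m)) (hId F r1 r2 t s j).2.1
      rw [eval_mul, eval_mul, eval_sub, eval_mul, eval_mul, hdz, mul_zero, zero_sub] at h5
      simp only [eval_mul, eval_add, eval_C, dl_apply, WW]
      linear_combination (-(c j * M)) * h5
    rw [Matrix.vecMul, dotProduct, Pi.zero_apply, ← h3,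
      ← hrow (fun j => c j * ((gg t).eval (z m) * (L j).eval (z m) -
        M * (WW t j).eval (z m) * dl t (z m) s)) (by rw [hc0, zero_mul])]
    refine Finset.sum_congr rfl fun l _ => ?_
    rw [Matrix.add_apply, hAs]
    have h6 : dl t (z m) s = dl t (z m) s'' + dl t (z m) (∑ i, s (κ.symm i) • ε i) := by
      rw [← map_add, ← hdec]
    rw [h6]
    simp only [K0, Matrix.of_apply]
    ring

end Pool.Agent.Work.MP_59f3ad_nt.Cod
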