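import Mathlib
import Pool.Agent.Work.MP_59f3ad_nt.Cod.Stmts

/-! Item Fin of the block Cod of MP_59f3ad_nt (helper64). -/

namespace Pool.Agent.Work.MP_59f3ad_nt.Cod

namespace FinX

open Finset

variable {F : Type} [Field F] {k n m : ℕ}

/-- the moment vectors -/
noncomputable def mom (T : Finset (Fin k → F)) (w : T → Fin n → F) (α : T → F) (μ : Fin k → ℕ) :
    Fin n → F := ∑ P : T, (α P * ∏ a, P.1 a ^ μ a) • w P

theorem prod_succ (P : Fin k → F) (μ : Fin k → ℕ) (i : Fin k) :
    ∏ a, P a ^ (μ + (Pi.single i 1 : Fin k → ℕ)) a = (∏ a, P a ^ μ a) * P i := by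
  have : ∀ a, P a ^ (μ + (Pi.single i 1 : Fin k → ℕ)) a
      = P a ^ μ a * P a ^ (Pi.single i 1 : Fin k → ℕ) a := by
    intro a
    rw [Pi.add_apply, pow_add]
  simp only [this]
  rw [Finset.prod_mul_distrib]
  congr 1
  rw [Finset.prod_eq_single i]
  · simp
  · intro b _ hb
    simp [hb]
  · simp

theorem vecMul_mom (T : Finset (Fin k → F)) (w : T → Fin n → F) (α : T → F) (μ : Fin k → ℕ)
    (B : Matrix (Fin n) (Fin m) F) :
    Matrix.vecMul (mom T w α μ) B = ∑ P : T, (α P * ∏ a, P.1 a ^ μ a) • Matrix.vecMul (w P) B := by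
  unfold mom
  have h := map_sum (Matrix.vecMulLinear B) (fun P : T => (α P * ∏ a, P.1 a ^ μ a) • w P) univ
  simp only [Matrix.vecMulLinear_apply] at h
  rw [h]
  apply Finset.sum_congr rfl
  intro P _
  rw [Matrix.smul_vecMul]

theorem vecMul_sum' {ι : Type*} (s : Finset ι) (c : Fin n → F) (B : ι → Matrix (Fin n) (Fin m) F) :
    Matrix.vecMul c (∑ i ∈ s, B i) = ∑ i ∈ s, Matrix.vecMul c (B i) := by
  classical
  induction s using Finset.induction_on with
  | empty => simp
  | insert a s ha ih => rw [Finset.sum_insert ha, Finset.sum_insert ha, Matrix.vecMul_add, ih]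

theorem rel (K0 : Matrix (Fin n) (Fin m) F) (A : Fin k → Matrix (Fin n) (Fin m) F)
    (T : Finset (Fin k → F)) (w : T → Fin n → F)
    (hw : ∀ P : T, Matrix.vecMul (w P) (K0 + ∑ i, P.1 i • A i) = 0) (α : T → F)
    (μ : Fin k → ℕ) :
    Matrix.vecMul (mom T w α μ) K0
      + ∑ i, Matrix.vecMul (mom T w α (μ + Pi.single i 1)) (A i) = 0 := by
  have h1 : ∀ P : T, Matrix.vecMul (w P) K0 + ∑ i, P.1 i • Matrix.vecMul (w P) (A i) = 0 := by
    intro P
    have h := hw P
    rw [Matrix.vecMul_add, vecMul_sum'] at h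
    simp only [Matrix.vecMul_smul] at h
    exact h
  simp only [vecMul_mom, prod_succ]
  rw [Finset.sum_comm, ← Finset.sum_add_distrib]
  apply Finset.sum_eq_zero
  intro P _
  have h2 : ∑ i, (α P * ((∏ a, P.1 a ^ μ a) * P.1 i)) • Matrix.vecMul (w P) (A i)
      = (α P * ∏ a, P.1 a ^ μ a) • ∑ i, P.1 i • Matrix.vecMul (w P) (A i) := by
    rw [Finset.smul_sum]
    apply Finset.sum_congr rfl
    intro i _
    rw [smul_smul, mul_assoc]
  rw [h2, ← smul_add, h1 P, smul_zero]

theorem sum_eval (T : Finset (Fin k → F)) (w : T → Fin n → F) (α : T → F)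
    (h0 : ∀ μ, mom T w α μ = 0) (h : MvPolynomial (Fin k) F) :
    ∑ P : T, (α P * MvPolynomial.eval P.1 h) • w P = 0 := by
  have h1 : ∀ P : T, (α P * MvPolynomial.eval P.1 h) • w P
      = ∑ d ∈ h.support, MvPolynomial.coeff d h • ((α P * ∏ a, P.1 a ^ d a) • w P) := by
    intro P
    rw [MvPolynomial.eval_eq', Finset.mul_sum, Finset.sum_smul]
    apply Finset.sum_congr rfl
    intro d _
    rw [smul_smul]
    congr 1
    ring
  simp only [h1]
  rw [Finset.sum_comm]
  apply Finset.sum_eq_zero
  intro d _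
  rw [← Finset.smul_sum]
  have h2 := h0 (fun a => d a)
  unfold mom at h2
  rw [h2, smul_zero]

/-- the linear map of the dimension count -/
noncomputable def phi (T : Finset (Fin k → F)) (w : T → Fin n → F) (D : ℕ) :
    (T → F) →ₗ[F] ((Fin k → Fin D) → Fin n → F) where
  toFun α := fun μ => mom T w α (fun a => (μ a : ℕ))
  map_add' α β := by
    funext μ
    unfold mom
    simp only [Pi.add_apply]
    rw [← Finset.sum_add_distrib]
    apply Finset.sum_congr rfl
    intro P _
    rw [← add_smul, ← add_mul]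
  map_smul' c α := by
    funext μ
    unfold mom
    simp only [Pi.smul_apply, smul_eq_mul, RingHom.id_apply]
    rw [Finset.smul_sum]
    apply Finset.sum_congr rfl
    intro P _
    rw [smul_smul, mul_assoc]

theorem exists_ker (T : Finset (Fin k → F)) (w : T → Fin n → F) (D : ℕ)
    (hT : n * D ^ k < T.card) :
    ∃ α : T → F, α ≠ 0 ∧ ∀ μ : Fin k → Fin D, mom T w α (fun a => (μ a : ℕ)) = 0 := by
  have h : Module.finrank F ((Fin k → Fin D) → Fin n → F) < Module.finrank F (T → F) := by
    rw [Module.finrank_pi_fintype, Module.finrank_pi]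
    simp only [Module.finrank_pi, Finset.sum_const, Finset.card_univ, Fintype.card_fin,
      Fintype.card_coe, smul_eq_mul, Fintype.card_fun]
    rw [mul_comm]
    exact hT
  have hk := LinearMap.ker_ne_bot_of_finrank_lt (f := phi T w D) h
  obtain ⟨α, hα, hne⟩ := (Submodule.ne_bot_iff _).mp hk
  refine ⟨α, hne, fun μ => ?_⟩
  have h2 := LinearMap.mem_ker.mp hα
  exact congrFun h2 μ

end FinX

open FinX Finset in
theorem pr_Fin : StChain → StFin := by
  intro hCh k n
  obtain ⟨D0, hD0⟩ := hCh k n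
  set D := max D0 1 with hD
  refine ⟨n * D ^ k, ?_⟩
  intro F _ _ m K0 A hA T hT
  by_contra hcon
  push Not at hcon
  choose c hc0 hc using hT
  let w : T → Fin n → F := fun P => c P.1 P.2
  have hw0 : ∀ P : T, w P ≠ 0 := fun P => hc0 P.1 P.2
  have hw : ∀ P : T, Matrix.vecMul (w P) (K0 + ∑ i, P.1 i • A i) = 0 := fun P => hc P.1 P.2
  obtain ⟨α, hα, hker⟩ := exists_ker T w D hcon
  have hrel := rel K0 A T w hw α
  have hall : ∀ j : ℕ, ∀ μ : Fin k → ℕ, ∑ i, μ i = j → mom T w α μ = 0 := by
    intro j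
    induction j with
    | zero =>
      intro μ hμ
      have hlt : ∀ a, μ a < D := by
        intro a
        have h1 : μ a ≤ ∑ i, μ i := Finset.single_le_sum (fun _ _ => Nat.zero_le _) (mem_univ a)
        have h2 : 1 ≤ D := le_max_right _ _
        omega
      exact hker (fun a => ⟨μ a, hlt a⟩)
    | succ j ih =>
      intro μ hμ
      by_cases hj : j + 1 < D
      · have hlt : ∀ a, μ a < D := by
          intro a
          have h1 : μ a ≤ ∑ i, μ i := Finset.single_le_sum (fun _ _ => Nat.zero_le _) (mem_univ a)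
          omega
        exact hker (fun a => ⟨μ a, hlt a⟩)
      · have hj' : D0 ≤ j + 1 := by
          have : D0 ≤ D := le_max_left _ _
          omega
        refine hD0 F m A hA (j + 1) hj' (mom T w α) ?_ μ hμ
        intro ν hν
        have h0 := ih ν (by omega)
        have h1 := hrel ν
        rw [h0, Matrix.zero_vecMul, zero_add] at h1
        exact h1
  have hall' : ∀ μ, mom T w α μ = 0 := fun μ => hall _ μ rfl
  obtain ⟨P0, hP0⟩ := Function.ne_iff.mp hα
  have hP0' : α P0 ≠ 0 := hP0
  have hdiff : ∀ P : T, P ≠ P0 → ∃ i, P.1 i ≠ P0.1 i := by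
    intro P hP
    by_contra hcc
    push Not at hcc
    exact hP (Subtype.ext (funext hcc))
  classical
  let iota : T → Option (Fin k) := fun P => if h : P ≠ P0 then some (hdiff P h).choose else none
  let fac : T → MvPolynomial (Fin k) F := fun P =>
    if h : P ≠ P0 then MvPolynomial.X (hdiff P h).choose - MvPolynomial.C (P.1 (hdiff P h).choose)
    else 1
  let h : MvPolynomial (Fin k) F := ∏ P : T, fac P
  have hz : ∀ P : T, P ≠ P0 → MvPolynomial.eval P.1 h = 0 := by
    intro P hP
    simp only [h, map_prod]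
    apply Finset.prod_eq_zero (mem_univ P)
    simp only [fac, dif_pos hP]
    simp
  have hnz : MvPolynomial.eval P0.1 h ≠ 0 := by
    simp only [h, map_prod]
    rw [Finset.prod_ne_zero_iff]
    intro P _
    by_cases hP : P ≠ P0
    · simp only [fac, dif_pos hP]
      simp only [map_sub, MvPolynomial.eval_X, MvPolynomial.eval_C]
      exact sub_ne_zero.mpr (hdiff P hP).choose_spec.symm
    · simp only [fac, dif_neg hP]
      simp
  have hs := sum_eval T w α hall' h
  rw [Finset.sum_eq_single P0] at hs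
  · rcases smul_eq_zero.mp hs with h3 | h3
    · exact (mul_ne_zero hP0' hnz) h3
    · exact hw0 P0 h3
  · intro P _ hP
    rw [hz P hP, mul_zero, zero_smul]
  · intro hh
    exact absurd (mem_univ _) hh

end Pool.Agent.Work.MP_59f3ad_nt.Cod
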