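import Mathlib
import Pool.Agent.Work.MP_59f3ad_nt.Cod.Stmts

/-!
MP_59f3ad_nt, Cod, item HZ: the number of common zeros of `g'` and of the derivative of `g` in a
direction of the digits.
-/

set_option autoImplicit false

open Polynomial

namespace Pool.Agent.Work.MP_59f3ad_nt.Cod

namespace HZX

/-- The blocks which are varied. -/
def BB (r1 r2 k : ℕ) : Finset (Fin r1 ⊕ Fin r2) :=
  (Finset.univ.filter fun i : Fin r1 => (i : ℕ) < k % 2).disjSum
    (Finset.univ.filter fun j : Fin r2 => (j : ℕ) < k / 2)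

/-- The degrees of the factors. -/
def dg {r1 r2 : ℕ} : Fin r1 ⊕ Fin r2 → ℕ := Sum.elim (fun _ => 1) (fun _ => 2)

theorem card_lt_le (r m : ℕ) : (Finset.univ.filter fun i : Fin r => (i : ℕ) < m).card ≤ m := by
  have h : ((Finset.univ.filter fun i : Fin r => (i : ℕ) < m).map Fin.valEmbedding) ⊆
      Finset.range m := by
    intro a ha
    rw [Finset.mem_map] at ha
    obtain ⟨i, hi, rfl⟩ := ha
    rw [Finset.mem_filter] at hi
    exact Finset.mem_range.2 hi.2
  have h2 := Finset.card_le_card h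
  rwa [Finset.card_map, Finset.card_range] at h2

theorem sum_dg (r1 r2 k : ℕ) : ∑ j ∈ BB r1 r2 k, dg j ≤ k := by
  unfold BB
  rw [Finset.sum_disjSum]
  simp only [dg, Sum.elim_inl, Sum.elim_inr, Finset.sum_const, smul_eq_mul, mul_one]
  have h1 := card_lt_le r1 (k % 2)
  have h2 := card_lt_le r2 (k / 2)
  omega

variable {F : Type} [Field F] {r1 r2 : ℕ}

theorem dfac_eq_zero {k : ℕ} (t s : Ix r1 r2 → F) (hs : ∀ i, i ∉ Js r1 r2 k → s i = 0)
    (j : Fin r1 ⊕ Fin r2) (hj : j ∉ BB r1 r2 k) : dfac t s j = 0 := by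
  rcases j with i | b
  · have h : s (Sum.inl i) = 0 := by
      apply hs
      intro h
      apply hj
      unfold Js at h
      unfold BB
      rw [Finset.inl_mem_disjSum] at h ⊢
      exact h
    simp [dfac, h]
  · have hb : ¬ ((b : ℕ) < k / 2) := by
      intro h
      apply hj
      unfold BB
      rw [Finset.inr_mem_disjSum, Finset.mem_filter]
      exact ⟨Finset.mem_univ _, h⟩
    have h1 : s (Sum.inr (Sum.inl b)) = 0 := by
      apply hs
      intro h
      unfold Js at h
      rw [Finset.inr_mem_disjSum, Finset.inl_mem_disjSum, Finset.mem_filter] at h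
      exact hb h.2
    have h2 : s (Sum.inr (Sum.inr b)) = 0 := by
      apply hs
      intro h
      unfold Js at h
      rw [Finset.inr_mem_disjSum, Finset.inr_mem_disjSum, Finset.mem_filter] at h
      exact hb h.2
    simp [dfac, h1, h2]

theorem natDegree_fac (t : Ix r1 r2 → F) (j : Fin r1 ⊕ Fin r2) : (fac t j).natDegree = dg j :=
  fac_natDegree t j

theorem natDegree_dfac (t s : Ix r1 r2 → F) (j : Fin r1 ⊕ Fin r2) :
    (dfac t s j).natDegree + 1 ≤ dg j := by
  rcases j with i | b
  · have h : dfac t s (Sum.inl i) = C (- s (Sum.inl i)) := by simp [dfac]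
    rw [h, natDegree_C]
    simp [dg]
  · have h : (dfac t s (Sum.inr b)).natDegree ≤ 1 := by
      have e : dfac t s (Sum.inr b) = C (4 * t (Sum.inr (Sum.inr b)) * s (Sum.inr (Sum.inr b))) -
        C (2 * s (Sum.inr (Sum.inl b))) * (X - C (t (Sum.inr (Sum.inl b)))) := rfl
      rw [e]
      compute_degree
    simp only [dg, Sum.elim_inr]
    omega

/-- The reduced numerator. -/
noncomputable def EE (t s : Ix r1 r2 → F) (B : Finset (Fin r1 ⊕ Fin r2)) : F[X] :=
  ∑ j ∈ B, dfac t s j * ∏ m ∈ B.erase j, fac t m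

theorem natDegree_EE (t s : Ix r1 r2 → F) (B : Finset (Fin r1 ⊕ Fin r2)) :
    (EE t s B).natDegree ≤ (∑ j ∈ B, dg j) - 1 := by
  unfold EE
  refine natDegree_sum_le_of_forall_le _ _ fun j hj => ?_
  have h1 := natDegree_dfac t s j
  have h2 : (∏ m ∈ B.erase j, fac t m).natDegree = ∑ m ∈ B.erase j, dg m := by
    rw [natDegree_prod_of_monic _ _ fun m _ => fac_monic t m]
    exact Finset.sum_congr rfl fun m _ => natDegree_fac t m
  have h3 := Finset.add_sum_erase B dg hj
  have h4 := natDegree_mul_le (p := dfac t s j) (q := ∏ m ∈ B.erase j, fac t m)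
  rw [h2] at h4
  omega

theorem dgg_eq {k : ℕ} (t s : Ix r1 r2 → F) (hs : ∀ i, i ∉ Js r1 r2 k → s i = 0) :
    dgg t s = (∏ m ∈ Finset.univ \ BB r1 r2 k, fac t m) * EE t s (BB r1 r2 k) := by
  unfold dgg EE
  rw [Finset.mul_sum]
  rw [← Finset.sum_subset (Finset.subset_univ (BB r1 r2 k))]
  · refine Finset.sum_congr rfl fun j hj => ?_
    have h : cof t j = (∏ m ∈ Finset.univ \ BB r1 r2 k, fac t m) *
        ∏ m ∈ (BB r1 r2 k).erase j, fac t m := by
      unfold cof
      rw [← Finset.prod_union]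
      · refine Finset.prod_congr ?_ fun _ _ => rfl
        ext m
        simp only [Finset.mem_erase, Finset.mem_univ, Finset.mem_union, Finset.mem_sdiff,
          and_true, true_and]
        constructor
        · intro hm
          by_cases hB : m ∈ BB r1 r2 k
          · exact Or.inr ⟨hm, hB⟩
          · exact Or.inl hB
        · rintro (hm | hm)
          · rintro rfl
            exact hm hj
          · exact hm.1
      · rw [Finset.disjoint_left]
        intro m hm hm'
        rw [Finset.mem_sdiff] at hm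
        exact hm.2 (Finset.mem_of_mem_erase hm')
    rw [h]
    ring
  · intro j _ hj
    rw [dfac_eq_zero t s hs j hj, zero_mul]

theorem exists_dfac_ne {k : ℕ} (h2 : (2 : F) ≠ 0) (t s : Ix r1 r2 → F) (hg : (gg t).Separable)
    (hs : ∀ i, i ∉ Js r1 r2 k → s i = 0) (hs0 : s ≠ 0) :
    ∃ j ∈ BB r1 r2 k, dfac t s j ≠ 0 := by
  by_contra hcon
  push Not at hcon
  have hall : ∀ j, dfac t s j = 0 := by
    intro j
    by_cases hj : j ∈ BB r1 r2 k
    · exact hcon j hj
    · exact dfac_eq_zero t s hs j hj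
  apply hs0
  funext i
  rw [Pi.zero_apply]
  have key : ∀ b : Fin r2, 4 * t (Sum.inr (Sum.inr b)) * s (Sum.inr (Sum.inr b)) = 0 ∧
      2 * s (Sum.inr (Sum.inl b)) = 0 := by
    intro b
    have h := hall (Sum.inr b)
    have e1 := congrArg (fun P : F[X] => P.eval (t (Sum.inr (Sum.inl b)))) h
    have e2 := congrArg (fun P : F[X] => P.eval (t (Sum.inr (Sum.inl b)) + 1)) h
    simp only [dfac, eval_sub, eval_mul, eval_C, eval_X, eval_zero, sub_self, mul_zero,
      sub_zero] at e1 e2
    refine ⟨e1, ?_⟩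
    rw [e1] at e2
    simpa using e2
  rcases i with i | b | b
  · have h := hall (Sum.inl i)
    simpa [dfac] using h
  · exact (mul_eq_zero.1 (key b).2).resolve_left h2
  · by_contra hsb
    have h4 : (4 : F) ≠ 0 := by
      have : (4 : F) = 2 * 2 := by norm_num
      rw [this]
      exact mul_ne_zero h2 h2
    have ht : t (Sum.inr (Sum.inr b)) = 0 := by
      have := (mul_eq_zero.1 (key b).1).resolve_right hsb
      exact (mul_eq_zero.1 this).resolve_left h4
    have hf : (X - C (t (Sum.inr (Sum.inl b)))) * (X - C (t (Sum.inr (Sum.inl b)))) ∣ gg t := by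
      refine Dvd.dvd.trans ?_ (Finset.dvd_prod_of_mem (fac t) (Finset.mem_univ (Sum.inr b)))
      have e : fac t (Sum.inr b) = (X - C (t (Sum.inr (Sum.inl b)))) ^ 2 +
        C (2 * t (Sum.inr (Sum.inr b)) ^ 2) := rfl
      rw [e, ht]
      simp [sq]
    have hu := hg.squarefree _ hf
    exact not_isUnit_X_sub_C _ hu

theorem EE_ne {k : ℕ} (h2 : (2 : F) ≠ 0) (t s : Ix r1 r2 → F) (hg : (gg t).Separable)
    (hs : ∀ i, i ∉ Js r1 r2 k → s i = 0) (hs0 : s ≠ 0) : EE t s (BB r1 r2 k) ≠ 0 := by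
  intro hE
  obtain ⟨j, hj, hd⟩ := exists_dfac_ne h2 t s hg hs hs0
  set B := BB r1 r2 k
  have h1 : fac t j ∣ dfac t s j * ∏ m ∈ B.erase j, fac t m := by
    unfold EE at hE
    rw [← Finset.add_sum_erase B _ hj] at hE
    rw [eq_neg_of_add_eq_zero_left hE, dvd_neg]
    refine Finset.dvd_sum fun m hm => ?_
    rw [Finset.mem_erase] at hm
    refine Dvd.dvd.mul_left ?_ _
    exact Finset.dvd_prod_of_mem (fac t) (Finset.mem_erase.2 ⟨hm.1.symm, hj⟩)
  have h3 : fac t j * ∏ m ∈ B.erase j, fac t m ∣ gg t := by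
    rw [Finset.mul_prod_erase B (fac t) hj]
    exact Finset.prod_dvd_prod_of_subset _ _ _ (Finset.subset_univ _)
  have h4 : IsCoprime (fac t j) (∏ m ∈ B.erase j, fac t m) :=
    (hg.of_dvd h3).isCoprime
  have h5 : fac t j ∣ dfac t s j := h4.dvd_of_dvd_mul_right h1
  apply hd
  apply eq_zero_of_dvd_of_natDegree_lt h5
  rw [natDegree_fac]
  have := natDegree_dfac t s j
  omega

end HZX

open HZX in
theorem pr_HZ : StHZ := by
  intro F _ r1 r2 k hk h2 t s hg hs hs0 Z hZ
  by_contra hcon
  apply EE_ne h2 t s hg hs hs0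
  apply eq_zero_of_natDegree_lt_card_of_eval_eq_zero' _ Z
  · intro ζ hζ
    obtain ⟨e1, e2⟩ := hZ ζ hζ
    obtain ⟨a, b, hab⟩ := hg
    have h3 : (gg t).eval ζ ≠ 0 := by
      intro h0
      have := congrArg (fun P : F[X] => P.eval ζ) hab
      simp only [eval_add, eval_mul, h0, e1, mul_zero, add_zero, eval_one] at this
      exact zero_ne_one this
    have h4 : (∏ m ∈ Finset.univ \ BB r1 r2 k, fac t m).eval ζ ≠ 0 := by
      intro h0
      apply h3
      have hd : (∏ m ∈ Finset.univ \ BB r1 r2 k, fac t m) ∣ gg t :=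
        Finset.prod_dvd_prod_of_subset _ _ _ (Finset.subset_univ _)
      obtain ⟨c, hc⟩ := hd
      rw [hc, eval_mul, h0, zero_mul]
    rw [dgg_eq t s hs, eval_mul] at e2
    exact (mul_eq_zero.1 e2).resolve_left h4
  · have h5 := natDegree_EE t s (BB r1 r2 k)
    have h6 := sum_dg r1 r2 k
    omega

end Pool.Agent.Work.MP_59f3ad_nt.Cod
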