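import Mathlib
import Pool.Agent.Work.MP_59f3ad_nt.Cod.Stmts

/-!
MP_59f3ad_nt: the basic identities.
-/

open Polynomial

namespace Pool.Agent.Work.MP_59f3ad_nt.Cod

namespace IdX

variable {R : Type*} [CommRing R] {r1 r2 : ℕ}

theorem deriv_gg (t : Ix r1 r2 → R) : derivative (gg t) = ∑ m, WW t m := by
  rw [gg, derivative_prod_finset]
  refine Finset.sum_congr rfl fun m _ => ?_
  rw [WW, cof, mul_comm]

theorem key (t : Ix r1 r2 → R) (j m : Fin r1 ⊕ Fin r2) (h : m ∈ Finset.univ.erase j) :
    gg t * (∏ i ∈ (Finset.univ.erase j).erase m, fac t i) = cof t j * cof t m := by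
  have h1 : cof t j = fac t m * ∏ i ∈ (Finset.univ.erase j).erase m, fac t i :=
    (Finset.mul_prod_erase _ _ h).symm
  have hj : j ∈ Finset.univ.erase m := by
    rw [Finset.mem_erase] at h ⊢
    exact ⟨fun h' => h.1 h'.symm, Finset.mem_univ _⟩
  have h2 : cof t m = fac t j * ∏ i ∈ (Finset.univ.erase j).erase m, fac t i := by
    rw [Finset.erase_right_comm]
    exact (Finset.mul_prod_erase _ _ hj).symm
  have h3 : gg t = fac t j * cof t j := (mul_cof t j).symm
  rw [h3, h2, h1]
  ring

theorem ident (t s : Ix r1 r2 → R) (j : Fin r1 ⊕ Fin r2) :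
    gg t * NN t s j =
      cof t j * (dfac t s j * derivative (gg t) - derivative (fac t j) * dgg t s) := by
  have h1 : gg t * NN t s j = ∑ m ∈ Finset.univ.erase j, cof t j * (cof t m *
      (dfac t s j * derivative (fac t m) - derivative (fac t j) * dfac t s m)) := by
    rw [NN, Finset.mul_sum]
    refine Finset.sum_congr rfl fun m hm => ?_
    rw [← mul_assoc, key t j m hm, mul_assoc]
  have h2 : ∑ m ∈ Finset.univ.erase j, cof t j * (cof t m *
      (dfac t s j * derivative (fac t m) - derivative (fac t j) * dfac t s m)) =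
      ∑ m, cof t j * (cof t m *
      (dfac t s j * derivative (fac t m) - derivative (fac t j) * dfac t s m)) := by
    rw [← Finset.add_sum_erase Finset.univ _ (Finset.mem_univ j)]
    have : cof t j * (cof t j *
      (dfac t s j * derivative (fac t j) - derivative (fac t j) * dfac t s j)) = 0 := by ring
    rw [this, zero_add]
  rw [h1, h2, deriv_gg, dgg, ← Finset.mul_sum]
  congr 1
  rw [Finset.mul_sum, Finset.mul_sum, ← Finset.sum_sub_distrib]
  refine Finset.sum_congr rfl fun m _ => ?_
  rw [WW]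
  ring

/-- degrees of the factors -/
def dg (j : Fin r1 ⊕ Fin r2) : ℕ := Sum.elim (fun _ => 1) (fun _ => 2) j

theorem dg_pos (j : Fin r1 ⊕ Fin r2) : 1 ≤ dg j := by
  rcases j with i | k <;> simp [dg]

theorem natDegree_dfac (t s : Ix r1 r2 → R) (j : Fin r1 ⊕ Fin r2) :
    (dfac t s j).natDegree ≤ dg j - 1 := by
  rcases j with i | k
  · simp [dfac, dg]
  · show (C (4 * t (Sum.inr (Sum.inr k)) * s (Sum.inr (Sum.inr k))) -
      C (2 * s (Sum.inr (Sum.inl k))) * (X - C (t (Sum.inr (Sum.inl k))))).natDegree ≤ 2 - 1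
    compute_degree

theorem natDegree_deriv [Nontrivial R] (t : Ix r1 r2 → R) (j : Fin r1 ⊕ Fin r2) :
    (derivative (fac t j)).natDegree ≤ dg j - 1 := by
  have h := natDegree_derivative_le (fac t j)
  rwa [fac_natDegree] at h

theorem sum_dg : ∑ j : Fin r1 ⊕ Fin r2, dg j = r1 + 2 * r2 := by
  simp only [dg, Fintype.sum_sum_type, Sum.elim_inl, Sum.elim_inr]
  simp
  ring

theorem degree_NN [Nontrivial R] (t s : Ix r1 r2 → R) (j : Fin r1 ⊕ Fin r2) :
    (NN t s j).degree < ((r1 + 2 * r2 - 1 : ℕ) : WithBot ℕ) := by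
  rw [NN]
  refine (degree_sum_le _ _).trans_lt ?_
  rw [Finset.sup_lt_iff (WithBot.bot_lt_coe _)]
  intro m hm
  have hs1 : ∑ i ∈ (Finset.univ.erase j).erase m, dg i + dg m + dg j = r1 + 2 * r2 := by
    rw [Finset.sum_erase_add _ _ hm, Finset.sum_erase_add _ _ (Finset.mem_univ j), sum_dg]
  have h1 : (∏ i ∈ (Finset.univ.erase j).erase m, fac t i).natDegree ≤
      ∑ i ∈ (Finset.univ.erase j).erase m, dg i := by
    refine (natDegree_prod_le _ _).trans (le_of_eq ?_)
    exact Finset.sum_congr rfl fun i _ => fac_natDegree t i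
  have h2 : (dfac t s j * derivative (fac t m) -
      derivative (fac t j) * dfac t s m).natDegree ≤ (dg j - 1) + (dg m - 1) := by
    refine (natDegree_sub_le _ _).trans (max_le ?_ ?_)
    · exact natDegree_mul_le.trans (Nat.add_le_add (natDegree_dfac t s j) (natDegree_deriv t m))
    · exact natDegree_mul_le.trans (Nat.add_le_add (natDegree_deriv t j) (natDegree_dfac t s m))
  have h3 := natDegree_mul_le.trans (Nat.add_le_add h1 h2)
  have hj := dg_pos j
  have hm' := dg_pos m
  refine degree_le_natDegree.trans_lt ?_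
  have h4 : ((∏ i ∈ (Finset.univ.erase j).erase m, fac t i) *
      (dfac t s j * derivative (fac t m) - derivative (fac t j) * dfac t s m)).natDegree <
      r1 + 2 * r2 - 1 := by
    omega
  exact_mod_cast h4

end IdX

theorem pr_Id : StId := by
  intro R _ _ r1 r2 t s j
  exact ⟨IdX.deriv_gg t, IdX.ident t s j, IdX.degree_NN t s j⟩

end Pool.Agent.Work.MP_59f3ad_nt.Cod
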