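import Mathlib
import Pool.Agent.Work.MP_59f3ad_nt.Cod.Stmts

set_option autoImplicit false

namespace Pool.Agent.Work.MP_59f3ad_nt.Cod

namespace JsX

lemma card_lt (n a : ℕ) (h : a ≤ n) :
    (Finset.univ.filter (fun i : Fin n => (i : ℕ) < a)).card = a := by
  rw [Fin.card_filter_val_lt]
  exact min_eq_right h

end JsX

theorem pr_Js : StJs := by
  intro r1 r2 k hd hk hpar
  unfold Js
  have h1 : k % 2 ≤ r1 := by
    rcases hpar with h | h
    · rw [Nat.even_iff.1 h]
      exact Nat.zero_le _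
    · omega
  have h2 : k / 2 ≤ r2 := by omega
  rw [Finset.card_disjSum, Finset.card_disjSum, JsX.card_lt r1 _ h1, JsX.card_lt r2 _ h2]
  omega

end Pool.Agent.Work.MP_59f3ad_nt.Cod
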