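import Mathlib
import Pool.Agent.Work.MP_59f3ad_nt.Cod.Stmts

/-!
MP_59f3ad_nt: the code of the values of the `W_j` at the critical points has the right minimal
distance.
-/

open Polynomial

namespace Pool.Agent.Work.MP_59f3ad_nt.Cod

namespace MDSX

section

variable {F : Type} [Field F] {r1 r2 : ℕ}

/-- the derivative of `g` is the sum of the `W_j`. -/
theorem deriv_gg (t : Ix r1 r2 → F) : derivative (gg t) = ∑ m, WW t m := by
  rw [gg, derivative_prod_finset]
  refine Finset.sum_congr rfl fun m _ => ?_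
  rw [WW, cof, mul_comm]

theorem natDegree_WW (t : Ix r1 r2 → F) (j : Fin r1 ⊕ Fin r2) :
    (WW t j).natDegree ≤ r1 + 2 * r2 - 1 := by
  have h1 : (fac t j).natDegree + (cof t j).natDegree = r1 + 2 * r2 := by
    have hc : (cof t j).Monic := monic_prod_of_monic _ _ fun m _ => fac_monic t m
    rw [← (fac_monic t j).natDegree_mul hc, mul_cof, gg_natDegree]
  have h2 : (derivative (fac t j)).natDegree ≤ (fac t j).natDegree - 1 := natDegree_derivative_le _
  have h3 : 1 ≤ (fac t j).natDegree := by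
    rw [fac_natDegree]
    rcases j with i | k
    · simp
    · simp
  have h4 : (WW t j).natDegree ≤ (derivative (fac t j)).natDegree + (cof t j).natDegree :=
    natDegree_mul_le
  omega

theorem natDegree_dg (t : Ix r1 r2 → F) :
    (derivative (gg t)).natDegree ≤ r1 + 2 * r2 - 1 := by
  have h := natDegree_derivative_le (gg t)
  rwa [gg_natDegree] at h

theorem coeff_dg (t : Ix r1 r2 → F) (hd : 1 ≤ r1 + 2 * r2) :
    (derivative (gg t)).coeff (r1 + 2 * r2 - 1) = ((r1 + 2 * r2 : ℕ) : F) := by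
  have h1 : (gg t).coeff (r1 + 2 * r2) = 1 := by
    have := (gg_monic t).coeff_natDegree
    rwa [gg_natDegree] at this
  rw [coeff_derivative, show r1 + 2 * r2 - 1 + 1 = r1 + 2 * r2 by omega, h1, one_mul]
  have h2 : ((r1 + 2 * r2 : ℕ) : F) = ((r1 + 2 * r2 - 1 + 1 : ℕ) : F) := by
    rw [show r1 + 2 * r2 - 1 + 1 = r1 + 2 * r2 by omega]
  rw [h2]
  push_cast
  ring

theorem natDegree_dg_eq (t : Ix r1 r2 → F) (hd : 1 ≤ r1 + 2 * r2)
    (hF : ((r1 + 2 * r2 : ℕ) : F) ≠ 0) :
    (derivative (gg t)).natDegree = r1 + 2 * r2 - 1 := by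
  refine le_antisymm (natDegree_dg t) (le_natDegree_of_ne_zero ?_)
  rw [coeff_dg t hd]
  exact hF

/-- at a root of `F_j` -/
theorem eval_WW_ne {t : Ix r1 r2 → F} {j m : Fin r1 ⊕ Fin r2} (h : m ≠ j) {x : F}
    (hx : (fac t j).eval x = 0) : (WW t m).eval x = 0 := by
  have h1 : (cof t m).eval x = 0 := by
    rw [cof, eval_prod]
    exact Finset.prod_eq_zero (Finset.mem_erase.2 ⟨h.symm, Finset.mem_univ j⟩) hx
  rw [WW, eval_mul, h1, mul_zero]

theorem eval_dg {t : Ix r1 r2 → F} {j : Fin r1 ⊕ Fin r2} {x : F}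
    (hx : (fac t j).eval x = 0) : (derivative (gg t)).eval x = (WW t j).eval x := by
  rw [deriv_gg, eval_finsetSum, Finset.sum_eq_single j]
  · intro m _ hm
    exact eval_WW_ne hm hx
  · intro h
    exact absurd (Finset.mem_univ j) h

theorem eval_gg {t : Ix r1 r2 → F} {j : Fin r1 ⊕ Fin r2} {x : F}
    (hx : (fac t j).eval x = 0) : (gg t).eval x = 0 := by
  rw [← mul_cof t j, eval_mul, hx, zero_mul]

theorem sep_ne {f : F[X]} (hs : f.Separable) {x : F} (hx : f.eval x = 0) :
    (derivative f).eval x ≠ 0 := by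
  obtain ⟨a, b, hab⟩ := hs
  intro h
  have h1 := congrArg (eval x) hab
  rw [eval_add, eval_mul, eval_mul, hx, h, mul_zero, mul_zero, add_zero, eval_one] at h1
  exact zero_ne_one h1

/-- partial fractions. -/
theorem partial_fractions {n : ℕ} {G W : F[X]} {a : F} (ha : a ≠ 0) (hGn : G.natDegree = n)
    (hGa : G.coeff n = a) (hW : W.natDegree ≤ n) (hsep : G.Separable) {Cr : Finset F}
    (hCr : Cr.card = n) (hCr0 : ∀ x ∈ Cr, G.eval x = 0) {r : ℕ} (z : Fin r → F)
    (hz : Function.Injective z) (hzG : ∀ l, G.eval (z l) = 0)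
    (hW0 : ∀ x ∈ Cr, (∀ l, x ≠ z l) → W.eval x = 0) :
    ∃ (lam0 : F) (lam : Fin r → F), ∀ x, G.eval x ≠ 0 →
      W.eval x = G.eval x * (lam0 + ∑ l, lam l * (x - z l)⁻¹) := by
  classical
  have hG0 : G ≠ 0 := by
    intro h
    rw [h, coeff_zero] at hGa
    exact ha hGa.symm
  set q : Fin r → F[X] := fun l => G /ₘ (X - C (z l)) with hq
  have hqG : ∀ l, (X - C (z l)) * q l = G := fun l => mul_divByMonic_eq_iff_isRoot.2 (hzG l)
  have hqz : ∀ l, (q l).eval (z l) ≠ 0 := by
    intro l h
    have h1 := sep_ne hsep (hzG l)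
    apply h1
    rw [← hqG l, derivative_mul, eval_add, eval_mul, eval_mul, h, eval_sub, eval_X, eval_C,
      sub_self, mul_zero, zero_mul, add_zero]
  have hqx : ∀ l x, (x - z l) * (q l).eval x = G.eval x := by
    intro l x
    have := congrArg (eval x) (hqG l)
    rwa [eval_mul, eval_sub, eval_X, eval_C] at this
  have hq0 : ∀ l x, G.eval x = 0 → x ≠ z l → (q l).eval x = 0 := by
    intro l x hx hxz
    have h := hqx l x
    rw [hx] at h
    rcases mul_eq_zero.1 h with h1 | h1
    · exact absurd (sub_eq_zero.1 h1) hxz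
    · exact h1
  have hqd : ∀ l, (q l).degree < (n : WithBot ℕ) := by
    intro l
    have h1 : (q l).degree < G.degree := degree_divByMonic_lt G (X - C (z l)) hG0
      (by rw [degree_X_sub_C]; exact zero_lt_one)
    rwa [degree_eq_natDegree hG0, hGn] at h1
  refine ⟨W.coeff n / a, fun l => W.eval (z l) / (q l).eval (z l), ?_⟩
  have key : W - (C (W.coeff n / a) * G +
      ∑ l, C (W.eval (z l) / (q l).eval (z l)) * q l) = 0 := by
    refine eq_zero_of_degree_lt_of_eval_finset_eq_zero Cr ?_ ?_
    · rw [hCr, degree_lt_iff_coeff_zero]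
      intro m hm
      have hql : ∀ l, (q l).coeff m = 0 := fun l =>
        (degree_lt_iff_coeff_zero _ _).1 (hqd l) m hm
      have hs : (∑ l, C (W.eval (z l) / (q l).eval (z l)) * q l).coeff m = 0 := by
        rw [finsetSum_coeff]
        refine Finset.sum_eq_zero fun l _ => ?_
        rw [coeff_C_mul, hql, mul_zero]
      rw [coeff_sub, coeff_add, hs, add_zero, coeff_C_mul]
      rcases hm.eq_or_lt with h | h
      · rw [← h, hGa, div_mul_cancel₀ _ ha, sub_self]
      · rw [coeff_eq_zero_of_natDegree_lt (lt_of_le_of_lt hW h),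
          coeff_eq_zero_of_natDegree_lt (lt_of_eq_of_lt hGn h), mul_zero, sub_zero]
    · intro x hx
      have hGx := hCr0 x hx
      rw [eval_sub, eval_add, eval_mul, hGx, mul_zero, zero_add, eval_finsetSum]
      by_cases h : ∃ m, x = z m
      · obtain ⟨m, rfl⟩ := h
        rw [Finset.sum_eq_single m, eval_mul, eval_C, div_mul_cancel₀ _ (hqz m), sub_self]
        · intro l _ hl
          rw [eval_mul, hq0 l _ hGx (fun h => hl (hz h).symm), mul_zero]
        · intro h
          exact absurd (Finset.mem_univ m) h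
      · push Not at h
        rw [hW0 x hx h, Finset.sum_eq_zero, sub_zero]
        intro l _
        rw [eval_mul, hq0 l _ hGx (h l), mul_zero]
  intro x hx
  have h1 := congrArg (eval x) (sub_eq_zero.1 key)
  rw [eval_add, eval_mul, eval_C, eval_finsetSum] at h1
  rw [h1, mul_add, Finset.mul_sum, mul_comm (eval x G)]
  congr 1
  refine Finset.sum_congr rfl fun l _ => ?_
  have hxz : x - z l ≠ 0 := by
    intro h
    rw [sub_eq_zero.1 h] at hx
    exact hx (hzG l)
  rw [eval_mul, eval_C, ← hqx l x]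
  field_simp

/-- the two roots of the quadratic factors -/
theorem quad_fac (t : Ix r1 r2 → F) (k : Fin r2) {x : F}
    (hx : (fac t (Sum.inr k)).eval x = 0) (y : F) :
    (fac t (Sum.inr k)).eval y = (y - x) * (y - (2 * t (Sum.inr (Sum.inl k)) - x)) := by
  have h1 : ∀ w, (fac t (Sum.inr k)).eval w = (w - t (Sum.inr (Sum.inl k))) ^ 2 +
      2 * t (Sum.inr (Sum.inr k)) ^ 2 := by
    intro w
    simp only [fac, eval_add, eval_pow, eval_sub, eval_X, eval_C]
  rw [h1] at hx ⊢
  linear_combination hx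

theorem quad_ne {t : Ix r1 r2 → F} {k : Fin r2} {x : F} (hsep : (gg t).Separable)
    (hx : (fac t (Sum.inr k)).eval x = 0) : 2 * t (Sum.inr (Sum.inl k)) - x ≠ x := by
  intro h
  have h1 := sep_ne hsep (eval_gg hx)
  rw [eval_dg hx, WW, eval_mul] at h1
  apply left_ne_zero_of_mul h1
  have h2 : (derivative (fac t (Sum.inr k))).eval x = 2 * (x - t (Sum.inr (Sum.inl k))) := by
    simp only [fac, derivative_add, derivative_pow, derivative_sub, derivative_X, derivative_C,
      eval_add, eval_mul, eval_pow, eval_sub, eval_X, eval_C, eval_zero]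
    simp
  rw [h2]
  linear_combination -h

end

end MDSX

open MDSX in
theorem pr_MDS : StMDS := by
  classical
  intro F _ _ r1 r2 k hd hk1 hk2 t hF hsep hsep' hDD c T hT hTc hsum
  -- the critical points
  set Cr : Finset F := (derivative (gg t)).roots.toFinset with hCrdef
  have hdg0 : derivative (gg t) ≠ 0 := hsep'.ne_zero
  have hCr : Cr.card = r1 + 2 * r2 - 1 := by
    rw [hCrdef, Multiset.toFinset_card_of_nodup (nodup_roots hsep'),
      IsAlgClosed.card_roots_eq_natDegree, natDegree_dg_eq t hd hF]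
  have hCrm : ∀ x, x ∈ Cr ↔ (derivative (gg t)).eval x = 0 := by
    intro x
    rw [hCrdef, Multiset.mem_toFinset, mem_roots hdg0, IsRoot.def]
  have hTC : T ⊆ Cr := fun x hx => (hCrm x).2 (hT x hx)
  have h1 : (Cr \ T).card ≤ r2 := by
    rw [Finset.card_sdiff_of_subset hTC, hCr]
    omega
  obtain ⟨J, hJ1, hJ2, hJ3⟩ := Finset.exists_subsuperset_card_eq (Finset.sdiff_subset (s := Cr)
    (t := T)) h1 (by rw [hCr]; omega)
  set z : Fin r2 → F := fun l => ((J.equivFinOfCardEq hJ3).symm l : F) with hzdef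
  have hz : Function.Injective z := fun a b h =>
    (J.equivFinOfCardEq hJ3).symm.injective (Subtype.ext h)
  have hzJ : ∀ l, z l ∈ J := fun l => ((J.equivFinOfCardEq hJ3).symm l).2
  have hJz : ∀ x ∈ J, ∃ l, x = z l := by
    intro x hx
    refine ⟨J.equivFinOfCardEq hJ3 ⟨x, hx⟩, ?_⟩
    rw [hzdef]
    simp
  have hzG : ∀ l, (derivative (gg t)).eval (z l) = 0 := fun l => (hCrm _).1 (hJ2 (hzJ l))
  set W : F[X] := ∑ j, C (c j) * WW t j with hWdef
  have hWe : ∀ x, W.eval x = ∑ j, c j * (WW t j).eval x := by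
    intro x
    rw [hWdef, eval_finsetSum]
    refine Finset.sum_congr rfl fun j _ => ?_
    rw [eval_mul, eval_C]
  have hWn : W.natDegree ≤ r1 + 2 * r2 - 1 := by
    refine natDegree_sum_le_of_forall_le _ _ fun j _ => ?_
    exact (natDegree_C_mul_le _ _).trans (natDegree_WW t j)
  obtain ⟨lam0, lam, hlam⟩ := partial_fractions hF (natDegree_dg_eq t hd hF) (coeff_dg t hd) hWn
    hsep' hCr (fun x hx => (hCrm x).1 hx) z hz hzG (by
      intro x hx hxz
      rw [hWe]
      apply hsum
      by_contra hxT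
      obtain ⟨l, hl⟩ := hJz x (hJ1 (Finset.mem_sdiff.2 ⟨hx, hxT⟩))
      exact hxz l hl)
  -- the values at the roots of the factors
  have hval : ∀ j x, (fac t j).eval x = 0 → c j = lam0 + ∑ l, lam l * (x - z l)⁻¹ := by
    intro j x hx
    have h2 := sep_ne hsep (eval_gg hx)
    have h3 := hlam x h2
    rw [hWe, Finset.sum_eq_single j, ← eval_dg hx, mul_comm] at h3
    · exact mul_left_cancel₀ h2 h3
    · intro m _ hm
      rw [eval_WW_ne hm hx, mul_zero]
    · intro h
      exact absurd (Finset.mem_univ j) h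
  have hroot : ∀ j, ∃ x, (fac t j).eval x = 0 := by
    intro j
    refine IsAlgClosed.exists_root _ ?_
    rw [degree_eq_natDegree (fac_monic t j).ne_zero, fac_natDegree]
    rcases j with i | k
    · simp
    · simp
  -- the quadratic factors do not vanish at the critical points
  have hfz : ∀ j l, (fac t j).eval (z l) ≠ 0 := by
    intro j l h
    exact sep_ne hsep (eval_gg h) (hzG l)
  have hquad : ∀ j : Fin r2, ∑ l, lam l * ((fac t (Sum.inr j)).eval (z l))⁻¹ = 0 := by
    intro j
    obtain ⟨x, hx⟩ := hroot (Sum.inr j)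
    set x' : F := 2 * t (Sum.inr (Sum.inl j)) - x with hx'def
    have hx' : (fac t (Sum.inr j)).eval x' = 0 := by
      rw [quad_fac t j hx, ← hx'def, sub_self, mul_zero]
    have hne : x' ≠ x := quad_ne hsep hx
    have h2 := (hval _ _ hx).symm.trans (hval _ _ hx')
    have h3 := add_left_cancel h2
    have h4 : (x' - x) * ∑ l, lam l * ((fac t (Sum.inr j)).eval (z l))⁻¹ = 0 := by
      rw [Finset.mul_sum]
      have h5 : ∑ l, lam l * (x - z l)⁻¹ - ∑ l, lam l * (x' - z l)⁻¹ = 0 := sub_eq_zero.2 h3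
      rw [← Finset.sum_sub_distrib] at h5
      rw [← h5]
      refine Finset.sum_congr rfl fun l _ => ?_
      have h6 := hfz (Sum.inr j) l
      rw [quad_fac t j hx, ← hx'def] at h6
      rw [quad_fac t j hx, ← hx'def]
      have h7 : z l - x ≠ 0 := left_ne_zero_of_mul h6
      have h8 : z l - x' ≠ 0 := right_ne_zero_of_mul h6
      have h9 : x - z l ≠ 0 := by rw [← neg_sub]; exact neg_ne_zero.2 h7
      have h10 : x' - z l ≠ 0 := by rw [← neg_sub]; exact neg_ne_zero.2 h8
      have h11 : (z l - x) * (z l - x') = (x - z l) * (x' - z l) := by ring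
      rw [h11]
      field_simp
      ring
    rcases mul_eq_zero.1 h4 with h | h
    · exact absurd (sub_eq_zero.1 h) hne
    · exact h
  -- the determinant
  have hlam0 : lam = 0 := by
    have hd0 := hDD z hz hzG
    set P : Fin r2 → F := fun l => ∏ m : Fin r2, (fac t (Sum.inr m)).eval (z l) with hP
    have hP0 : ∀ l, P l ≠ 0 := fun l => Finset.prod_ne_zero_iff.2 fun m _ => hfz (Sum.inr m) l
    have h2 : Matrix.mulVec (Matrix.of fun j l : Fin r2 =>
        (∏ m ∈ Finset.univ.erase j, fac t (Sum.inr m)).eval (z l)) (fun l => lam l / P l) = 0 := by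
      funext j
      rw [Matrix.mulVec, dotProduct, Pi.zero_apply, ← hquad j]
      refine Finset.sum_congr rfl fun l _ => ?_
      rw [Matrix.of_apply, eval_prod]
      have h3 : (fac t (Sum.inr j)).eval (z l) *
          ∏ m ∈ Finset.univ.erase j, (fac t (Sum.inr m)).eval (z l) = P l :=
        Finset.mul_prod_erase Finset.univ (fun m : Fin r2 => (fac t (Sum.inr m)).eval (z l))
          (Finset.mem_univ j)
      have h4 := hfz (Sum.inr j) l
      have h5 := hP0 l
      rw [← h3] at h5 ⊢
      have h6 := right_ne_zero_of_mul h5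
      field_simp
    have h3 := Matrix.eq_zero_of_mulVec_eq_zero hd0 h2
    funext l
    have h4 := congrFun h3 l
    rw [Pi.zero_apply, div_eq_zero_iff] at h4
    rcases h4 with h | h
    · exact h
    · exact absurd h (hP0 l)
  have hc : ∀ j, c j = lam0 := by
    intro j
    obtain ⟨x, hx⟩ := hroot j
    rw [hval j x hx, hlam0]
    simp
  intro i j
  rw [hc i, hc j]

end Pool.Agent.Work.MP_59f3ad_nt.Cod
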