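import Mathlib
import Pool.Agent.Work.MP_59f3ad_nt.Cod.Stmts

/-!
MP_59f3ad_nt, module Cod, item Norm.
-/

set_option autoImplicit false

open Polynomial

namespace Pool.Agent.Work.MP_59f3ad_nt.Cod

namespace NormX

/-- The product over all embeddings. -/
noncomputable def Phi (r1 r2 N : ℕ) :
    MvPolynomial (Fin N) (MvPolynomial (Ix r1 r2) ℤ) :=
  ∏ φ : Fin r2 ↪ Fin N, DD (fun i => MvPolynomial.C (MvPolynomial.X i))
    (fun l => MvPolynomial.X (φ l))

lemma phi_symm (r1 r2 N : ℕ) : (Phi r1 r2 N).IsSymmetric := by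
  intro e
  unfold Phi
  rw [map_prod]
  refine Fintype.prod_equiv (Equiv.embeddingCongr (Equiv.refl (Fin r2)) e) _ _ fun φ => ?_
  have h := DD_map (MvPolynomial.rename e : MvPolynomial (Fin N) (MvPolynomial (Ix r1 r2) ℤ) →ₐ[
    MvPolynomial (Ix r1 r2) ℤ] MvPolynomial (Fin N) (MvPolynomial (Ix r1 r2) ℤ)).toRingHom
    (fun i : Ix r1 r2 => MvPolynomial.C (MvPolynomial.X i)) (fun l => MvPolynomial.X (φ l))
  have e1 : (fun i : Ix r1 r2 => (MvPolynomial.rename e :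
      MvPolynomial (Fin N) (MvPolynomial (Ix r1 r2) ℤ) →ₐ[
      MvPolynomial (Ix r1 r2) ℤ] MvPolynomial (Fin N) (MvPolynomial (Ix r1 r2) ℤ)).toRingHom
      (MvPolynomial.C (MvPolynomial.X i))) = fun i => MvPolynomial.C (MvPolynomial.X i) := by
    funext i
    exact MvPolynomial.rename_C _ _
  have e2 : (fun l : Fin r2 => (MvPolynomial.rename e :
      MvPolynomial (Fin N) (MvPolynomial (Ix r1 r2) ℤ) →ₐ[
      MvPolynomial (Ix r1 r2) ℤ] MvPolynomial (Fin N) (MvPolynomial (Ix r1 r2) ℤ)).toRingHom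
      (MvPolynomial.X (φ l))) = fun l => MvPolynomial.X (e (φ l)) := by
    funext l
    exact MvPolynomial.rename_X _ _
  rw [e1, e2] at h
  exact h

lemma exists_psi (r1 r2 N : ℕ) : ∃ Ψ : MvPolynomial (Fin N) (MvPolynomial (Ix r1 r2) ℤ),
    MvPolynomial.aeval (fun i : Fin N =>
      MvPolynomial.esymm (Fin N) (MvPolynomial (Ix r1 r2) ℤ) (i + 1)) Ψ = Phi r1 r2 N := by
  obtain ⟨Ψ, hΨ⟩ := MvPolynomial.esymmAlgHom_surjective (σ := Fin N)
    (MvPolynomial (Ix r1 r2) ℤ) (n := N) (by simp) ⟨Phi r1 r2 N, phi_symm r1 r2 N⟩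
  refine ⟨Ψ, ?_⟩
  rw [← MvPolynomial.esymmAlgHom_apply, hΨ]

/-- The homogenised norm. -/
noncomputable def Gam {A : Type*} [CommRing A] {N : ℕ} (Ψ : MvPolynomial (Fin N) A) (d : A)
    (y : Fin N → A) : A :=
  ∑ m ∈ Ψ.support, Ψ.coeff m * d ^ (Ψ.totalDegree - m.degree) * ∏ i, y i ^ m i

lemma gam_map {A B : Type*} [CommRing A] [CommRing B] (f : A →+* B) {N : ℕ}
    (Ψ : MvPolynomial (Fin N) A) (d : A) (y : Fin N → A) (z : Fin N → B)
    (hz : ∀ i, f (y i) = f d * z i) :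
    f (Gam Ψ d y) = f d ^ Ψ.totalDegree * MvPolynomial.eval₂Hom f z Ψ := by
  unfold Gam
  rw [map_sum]
  have h1 : MvPolynomial.eval₂Hom f z Ψ = ∑ m ∈ Ψ.support, f (Ψ.coeff m) * ∏ i, z i ^ m i := by
    rw [MvPolynomial.coe_eval₂Hom, MvPolynomial.eval₂_eq']
  rw [h1, Finset.mul_sum]
  refine Finset.sum_congr rfl fun m hm => ?_
  have h2 : m.degree ≤ Ψ.totalDegree := by
    have := MvPolynomial.le_totalDegree hm
    simpa [Finsupp.degree, Finsupp.sum] using this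
  rw [map_mul, map_mul, map_pow, map_prod]
  have h3 : ∏ i, f (y i ^ m i) = f d ^ m.degree * ∏ i, z i ^ m i := by
    rw [Finsupp.degree_eq_sum, ← Finset.prod_pow_eq_pow_sum, ← Finset.prod_mul_distrib]
    refine Finset.prod_congr rfl fun i _ => ?_
    rw [map_pow, hz, mul_pow]
  rw [h3]
  have h4 : f d ^ Ψ.totalDegree = f d ^ (Ψ.totalDegree - m.degree) * f d ^ m.degree := by
    rw [← pow_add, Nat.sub_add_cancel h2]
  rw [h4]
  ring

lemma vieta {F : Type*} [Field F] {N : ℕ} (P : F[X]) (d : F) (ζ : Fin N → F)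
    (h : P = C d * ∏ i, (X - C (ζ i))) (i : Fin N) :
    (-1) ^ ((i : ℕ) + 1) * P.coeff (N - (i + 1)) =
      d * (Finset.univ.val.map ζ).esymm ((i : ℕ) + 1) := by
  have h1 : (Multiset.card (Finset.univ.val.map ζ)) = N := by simp
  have h2 : ∏ i, (X - C (ζ i)) = ((Finset.univ.val.map ζ).map fun t => X - C t).prod := by
    rw [Multiset.map_map]
    rfl
  have h3 := Multiset.prod_X_sub_C_coeff (Finset.univ.val.map ζ) (k := N - ((i : ℕ) + 1))
    (by rw [h1]; omega)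
  have hi := i.2
  rw [h1, ← h2, show N - (N - ((i : ℕ) + 1)) = (i : ℕ) + 1 by omega] at h3
  rw [h, coeff_C_mul, h3]
  have h4 : ((-1 : F) ^ ((i : ℕ) + 1)) * (-1) ^ ((i : ℕ) + 1) = 1 := by
    rw [← mul_pow]
    simp
  linear_combination (d * (Finset.univ.val.map ζ).esymm ((i : ℕ) + 1)) * h4

end NormX

open NormX in
theorem pr_Norm : StNorm := by
  intro r1 r2 hd
  obtain ⟨N, hN⟩ : ∃ N : ℕ, N = r1 + 2 * r2 - 1 := ⟨_, rfl⟩
  rw [← hN]
  obtain ⟨Ψ, hΨ⟩ := exists_psi r1 r2 N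
  obtain ⟨G, hG⟩ : ∃ G : (MvPolynomial (Ix r1 r2) ℤ)[X],
    G = derivative (gg (fun i : Ix r1 r2 => (MvPolynomial.X i : MvPolynomial (Ix r1 r2) ℤ))) :=
    ⟨_, rfl⟩
  refine ⟨Gam Ψ ((r1 + 2 * r2 : ℕ) : MvPolynomial (Ix r1 r2) ℤ)
    (fun i => (-1) ^ ((i : ℕ) + 1) * G.coeff (N - (i + 1))), Ψ.totalDegree, ?_⟩
  intro F _ t ζ hζ
  obtain ⟨f, hf⟩ : ∃ f : MvPolynomial (Ix r1 r2) ℤ →+* F,
    f = (MvPolynomial.aeval t : MvPolynomial (Ix r1 r2) ℤ →ₐ[ℤ] F).toRingHom := ⟨_, rfl⟩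
  have hfX : ∀ i, f (MvPolynomial.X i) = t i := by
    intro i
    rw [hf]
    exact MvPolynomial.aeval_X t i
  have hGm : G.map f = derivative (gg t) := by
    rw [hG, ← derivative_map, gg_map]
    simp only [hfX]
  have h1 := gam_map f Ψ ((r1 + 2 * r2 : ℕ) : MvPolynomial (Ix r1 r2) ℤ)
    (fun i => (-1) ^ ((i : ℕ) + 1) * G.coeff (N - (i + 1)))
    (fun i => (Finset.univ.val.map ζ).esymm ((i : ℕ) + 1)) (by
      intro i
      rw [map_mul, map_pow, map_neg, map_one, ← coeff_map, hGm, map_natCast]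
      exact vieta _ _ ζ hζ i)
  rw [map_natCast] at h1
  have hE : ∀ i : Fin N, MvPolynomial.eval₂Hom f ζ
      (MvPolynomial.esymm (Fin N) (MvPolynomial (Ix r1 r2) ℤ) ((i : ℕ) + 1)) =
      (Finset.univ.val.map ζ).esymm ((i : ℕ) + 1) := by
    intro i
    rw [MvPolynomial.coe_eval₂Hom, MvPolynomial.eval₂_eq_eval_map, MvPolynomial.map_esymm]
    have := MvPolynomial.aeval_esymm_eq_multiset_esymm (σ := Fin N) (R := F) (S := F)
      ((i : ℕ) + 1) ζ
    rw [MvPolynomial.aeval_def] at this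
    exact this
  have h2 : MvPolynomial.eval₂Hom f
      (fun i : Fin N => (Finset.univ.val.map ζ).esymm ((i : ℕ) + 1)) Ψ =
      MvPolynomial.eval₂Hom f ζ (Phi r1 r2 N) := by
    rw [← hΨ, MvPolynomial.aeval_def, ← MvPolynomial.coe_eval₂Hom]
    rw [← RingHom.comp_apply]
    congr 1
    refine MvPolynomial.ringHom_ext (fun r => ?_) fun i => ?_
    · simp only [RingHom.comp_apply, MvPolynomial.eval₂Hom_C, MvPolynomial.algebraMap_eq]
    · simp only [RingHom.comp_apply, MvPolynomial.eval₂Hom_X']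
      exact (hE i).symm
  rw [h2] at h1
  have h3 : MvPolynomial.eval₂Hom f ζ (Phi r1 r2 N) =
      ∏ φ : Fin r2 ↪ Fin N, DD t (fun l => ζ (φ l)) := by
    unfold Phi
    rw [map_prod]
    refine Finset.prod_congr rfl fun φ _ => ?_
    rw [DD_map]
    congr 1
    · funext i
      simp [hfX]
    · funext l
      simp
  rw [h3] at h1
  rw [hf] at h1
  exact h1

end Pool.Agent.Work.MP_59f3ad_nt.Cod
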