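import Mathlib
import Pool.Agent.Work.MP_59f3ad_nt.Cod.Stmts

/-!
MP_59f3ad_nt, Cod: the quotients `q1 - q0` and the numerators `NN`.
-/

open Polynomial

namespace Pool.Agent.Work.MP_59f3ad_nt.Cod

namespace QNX

theorem algebra_step {R : Type*} [CommRing R] (f g D Fb cb qd Mb Nb dF dG F' δ u v : R)
    (E1 : Fb * qd - Mb * (dF + F' * δ) = f * u) (E2 : D * δ + dG = f * v)
    (E3 : g * Nb = cb * (dF * D - F' * dG)) (E4 : Fb * cb = g) (E5 : f = g - 1) :
    f ∣ D * qd - Mb * Nb := by
  refine ⟨D * cb * u + Mb * cb * F' * v - (D * qd - Mb * Nb), ?_⟩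
  linear_combination (D * cb) * E1 + (Mb * cb * F') * E2 - Mb * E3 - (D * qd) * E4 +
    (D * qd - Mb * Nb) * E5

end QNX

theorem pr_QN : StTay → StQCH → StId → StQN := by
  intro hTay hQCH hId p hp r1 r2 hd t s M j q0 q1 hsep h0 h1
  obtain ⟨hT1, hT2⟩ := hTay r1 r2 t s p
  obtain ⟨e', he'⟩ := hT1 j
  obtain ⟨e, he⟩ := hT2
  obtain ⟨a, b, hab⟩ := hsep
  have hpp : (red p) (p : ℤ) = 0 := by simp
  have hφ : gg (sh t s p) - 1 = (gg t - 1) + C (p : ℤ) * (dgg t s + C (p : ℤ) * e) := by
    have h2 : (C ((p : ℤ) ^ 2) : ℤ[X]) = C (p : ℤ) * C (p : ℤ) := by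
      rw [sq, C_mul]
    rw [h2] at he
    linear_combination he
  have hθ : fac (sh t s p) j = fac t j + C (p : ℤ) * (dfac t s j + C (p : ℤ) * e') := by
    have h2 : (C ((p : ℤ) ^ 2) : ℤ[X]) = C (p : ℤ) * C (p : ℤ) := by
      rw [sq, C_mul]
    rw [h2] at he'
    linear_combination he'
  have hφm : (dgg t s + C (p : ℤ) * e).map (red p) = (dgg t s).map (red p) := by
    rw [Polynomial.map_add, Polynomial.map_mul, map_C, hpp, C_0, zero_mul, add_zero]
  have hθm : (dfac t s j + C (p : ℤ) * e').map (red p) = (dfac t s j).map (red p) := by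
    rw [Polynomial.map_add, Polynomial.map_mul, map_C, hpp, C_0, zero_mul, add_zero]
  obtain ⟨δ, hδ⟩ := Polynomial.map_surjective (red p) (ZMod.intCast_surjective)
    (-(b * (dgg t s).map (red p)))
  have hder : derivative (gg t - 1 : ℤ[X]) = derivative (gg t) := by
    rw [derivative_sub, derivative_one, sub_zero]
  have hE2 : (gg t - 1).map (red p) * (a * (dgg t s).map (red p)) =
      (derivative (gg t - 1) * δ + (dgg t s + C (p : ℤ) * e)).map (red p) := by
    rw [Polynomial.map_add, Polynomial.map_mul, hφm, hδ, ← derivative_map]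
    linear_combination ((dgg t s).map (red p)) * hab
  have hQ := hQCH p M (gg t - 1) (gg (sh t s p) - 1) (fac t j) (fac (sh t s p) j)
    (dgg t s + C (p : ℤ) * e) (dfac t s j + C (p : ℤ) * e') q0 q1 δ (ff_monic t hd)
    (ff_monic _ hd) hφ hθ h0 h1 ⟨_, hE2.symm⟩
  obtain ⟨u, hu⟩ := hQ
  have hI := (hId ℤ r1 r2 t s j).2.1
  have hI' : (gg t).map (red p) * (NN t s j).map (red p) = (cof t j).map (red p) *
      ((dfac t s j).map (red p) * (derivative (gg t)).map (red p) -
        (derivative (fac t j)).map (red p) * (dgg t s).map (red p)) := by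
    rw [← Polynomial.map_mul, ← Polynomial.map_mul, ← Polynomial.map_mul, ← Polynomial.map_sub,
      ← Polynomial.map_mul, hI]
  have hmc : (fac t j).map (red p) * (cof t j).map (red p) = (gg t).map (red p) := by
    rw [← Polynomial.map_mul, mul_cof]
  have hgoal : (derivative (gg t) * (q1 - q0) - C (M : ℤ) * NN t s j).map (red p) =
      (derivative (gg t)).map (red p) * (q1 - q0).map (red p) -
        (C (M : ℤ)).map (red p) * (NN t s j).map (red p) := by
    rw [Polynomial.map_sub, Polynomial.map_mul, Polynomial.map_mul]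
  have hu' : (fac t j).map (red p) * (q1 - q0).map (red p) - (C (M : ℤ)).map (red p) *
      ((dfac t s j).map (red p) + (derivative (fac t j)).map (red p) * δ.map (red p)) =
      (gg t - 1).map (red p) * u := by
    rw [← hu, ← hθm]
    simp only [Polynomial.map_sub, Polynomial.map_mul, Polynomial.map_add]
  have hE2' : (derivative (gg t)).map (red p) * δ.map (red p) + (dgg t s).map (red p) =
      (gg t - 1).map (red p) * (a * (dgg t s).map (red p)) := by
    rw [hE2, hder, Polynomial.map_add, Polynomial.map_mul, hφm]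
  rw [hgoal]
  exact QNX.algebra_step _ ((gg t).map (red p)) _ _ _ _ _ _ _ _ _ (δ.map (red p)) u _ hu'
    hE2' hI' hmc (by rw [Polynomial.map_sub, Polynomial.map_one])

end Pool.Agent.Work.MP_59f3ad_nt.Cod
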