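import Mathlib
import Pool.Agent.Work.MP_59f3ad_nt.Cod.Stmts

/-!
MP_59f3ad_nt, block Cod: item Rolle.
-/

open Polynomial

namespace Pool.Agent.Work.MP_59f3ad_nt.Cod

namespace RolleX

lemma root {n : ℕ} (z : Fin (n + 1) → ℝ) (j : Fin (n + 1)) :
    (∏ i, (X - C (z i))).eval (z j) = 0 := by
  rw [eval_prod]
  apply Finset.prod_eq_zero (Finset.mem_univ j)
  simp

lemma exists_between {n : ℕ} (z : Fin (n + 1) → ℝ) (hz : StrictMono z) (i : Fin n) :
    ∃ x, z i.castSucc < x ∧ x < z i.succ ∧ (derivative (∏ i, (X - C (z i)))).eval x = 0 := by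
  have hlt : z i.castSucc < z i.succ := hz (Fin.castSucc_lt_succ)
  obtain ⟨x, hx, h0⟩ := exists_hasDerivAt_eq_zero (f := fun x => (∏ i, (X - C (z i))).eval x)
    (f' := fun x => (derivative (∏ i, (X - C (z i)))).eval x) hlt
    (Polynomial.continuous _).continuousOn (by simp only [root]) (fun x _ => Polynomial.hasDerivAt _ x)
  exact ⟨x, hx.1, hx.2, h0⟩

lemma ne_z {n : ℕ} {z : Fin (n + 1) → ℝ} (hz : StrictMono z) {i : Fin n} {x : ℝ}
    (h1 : z i.castSucc < x) (h2 : x < z i.succ) (j : Fin (n + 1)) : x - z j ≠ 0 := by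
  rw [sub_ne_zero]
  rcases le_or_gt j i.castSucc with h | h
  · exact ((hz.monotone h).trans_lt h1).ne'
  · have h3 : i.succ ≤ j := Fin.castSucc_lt_iff_succ_le.mp h
    exact (h2.trans_le (hz.monotone h3)).ne

lemma deriv_eq {n : ℕ} (z : Fin (n + 1) → ℝ) (ζ : Fin n → ℝ) (hinj : Function.Injective ζ)
    (h : ∀ i, (derivative (∏ i, (X - C (z i)))).eval (ζ i) = 0) :
    derivative (∏ i, (X - C (z i))) = C ((n + 1 : ℕ) : ℝ) * ∏ i, (X - C (ζ i)) := by
  set P : ℝ[X] := ∏ i, (X - C (z i)) with hP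
  set R : ℝ[X] := ∏ i, (X - C (ζ i)) with hR
  have hPm : P.Monic := monic_prod_of_monic _ _ fun i _ => monic_X_sub_C _
  have hRm : R.Monic := monic_prod_of_monic _ _ fun i _ => monic_X_sub_C _
  have hPd : P.natDegree = n + 1 := by
    rw [hP, natDegree_prod_of_monic _ _ fun i _ => monic_X_sub_C _]
    simp
  have hRd : R.natDegree = n := by
    rw [hR, natDegree_prod_of_monic _ _ fun i _ => monic_X_sub_C _]
    simp
  have hc : ((n + 1 : ℕ) : ℝ) ≠ 0 := by exact_mod_cast Nat.succ_ne_zero n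
  have hDd : (derivative P).degree = (n : ℕ) := by
    rw [degree_derivative (by rw [hPd]; omega), hPd, Nat.add_sub_cancel]
  have hDn : (derivative P).natDegree = n := natDegree_eq_of_degree_eq_some hDd
  have hDl : (derivative P).leadingCoeff = ((n + 1 : ℕ) : ℝ) := by
    rw [leadingCoeff, hDn, coeff_derivative]
    have : P.coeff (n + 1) = 1 := by rw [← hPd]; exact hPm
    rw [this, one_mul]; push_cast; ring
  have hQd : (C ((n + 1 : ℕ) : ℝ) * R).degree = (n : ℕ) := by
    rw [degree_C_mul hc, degree_eq_natDegree hRm.ne_zero, hRd]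
  have hQl : (C ((n + 1 : ℕ) : ℝ) * R).leadingCoeff = ((n + 1 : ℕ) : ℝ) := by
    rw [leadingCoeff_mul, leadingCoeff_C, hRm.leadingCoeff, mul_one]
  have hD0 : derivative P ≠ 0 := by
    intro h0
    rw [h0, leadingCoeff_zero] at hDl
    exact hc hDl.symm
  have hcard : (Finset.univ.image ζ).card = n := by
    rw [Finset.card_image_of_injective _ hinj, Finset.card_univ, Fintype.card_fin]
  apply eq_of_degree_sub_lt_of_eval_finset_eq (Finset.univ.image ζ)
  · rw [hcard]
    have := degree_sub_lt_left (hDd.trans hQd.symm) hD0 (hDl.trans hQl.symm)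
    rwa [hDd] at this
  · intro x hx
    obtain ⟨i, -, rfl⟩ := Finset.mem_image.mp hx
    rw [h i, eval_mul, hR, eval_prod]
    rw [Finset.prod_eq_zero (Finset.mem_univ i) (by simp), mul_zero]

lemma logd {n : ℕ} (z : Fin n → ℝ) (x : ℝ) (hx : ∀ j, x - z j ≠ 0)
    (h : (derivative (∏ i, (X - C (z i)))).eval x = 0) : ∑ j, (x - z j)⁻¹ = 0 := by
  have h1 : (derivative (∏ i, (X - C (z i)))).eval x =
      (∏ j, (x - z j)) * ∑ j, (x - z j)⁻¹ := by
    rw [derivative_prod_finset, eval_finset_sum, Finset.mul_sum]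
    apply Finset.sum_congr rfl
    intro j _
    rw [eval_mul, eval_prod, derivative_X_sub_C, eval_one, mul_one]
    rw [← Finset.mul_prod_erase Finset.univ (fun j => x - z j) (Finset.mem_univ j)]
    rw [mul_comm (x - z j), mul_assoc, mul_inv_cancel₀ (hx j), mul_one]
    apply Finset.prod_congr rfl
    intro i _
    simp
  rw [h] at h1
  have h2 : (∏ j, (x - z j)) ≠ 0 := Finset.prod_ne_zero_iff.mpr fun j _ => hx j
  exact (mul_eq_zero.mp h1.symm).resolve_left h2

end RolleX

open RolleX in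
theorem pr_Rolle : StRolle := by
  intro n z hz
  choose ζ h1 h2 h3 using exists_between z hz
  have hmono : StrictMono ζ := by
    intro i j hij
    have h4 : i.succ ≤ j.castSucc := by
      rw [Fin.le_def, Fin.val_succ, Fin.val_castSucc]
      exact hij
    exact ((h2 i).trans_le (hz.monotone h4)).trans (h1 j)
  refine ⟨ζ, hmono, fun i => ⟨h1 i, h2 i⟩, deriv_eq z ζ hmono.injective h3, fun i => ?_⟩
  exact logd z (ζ i) (fun j => ne_z hz (h1 i) (h2 i) j) (h3 i)

end Pool.Agent.Work.MP_59f3ad_nt.Cod
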