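import Mathlib
import Pool.Agent.Work.MP_59f3ad_nt.Cod.Stmts
import Pool.Agent.Work.MP_59f3ad_nt.Bdx.B02

/-!
MP_59f3ad_nt, Cod: the generic separability of `g`, `g - 1` and `g'`.
-/

open Polynomial

namespace Pool.Agent.Work.MP_59f3ad_nt.Cod

namespace SepX

/-- the generic member -/
noncomputable def GG (r1 r2 : ℕ) : (MvPolynomial (Ix r1 r2) ℤ)[X] :=
  gg (fun i : Ix r1 r2 => (MvPolynomial.X i : MvPolynomial (Ix r1 r2) ℤ))

theorem GG_map (r1 r2 : ℕ) {F : Type} [Field F] (t : Ix r1 r2 → F) :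
    (GG r1 r2).map (MvPolynomial.aeval t : MvPolynomial (Ix r1 r2) ℤ →ₐ[ℤ] F).toRingHom
      = gg t := by
  rw [GG, gg_map]
  congr 1
  funext i
  exact MvPolynomial.aeval_X t i

theorem GG_natDegree (r1 r2 : ℕ) : (GG r1 r2).natDegree = r1 + 2 * r2 := gg_natDegree _

theorem dGG_natDegree (r1 r2 : ℕ) :
    (derivative (GG r1 r2)).natDegree = r1 + 2 * r2 - 1 := by
  rw [natDegree_derivative, GG_natDegree]

theorem dGG_map (r1 r2 : ℕ) {F : Type} [Field F] (t : Ix r1 r2 → F) :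
    (derivative (GG r1 r2)).map
      (MvPolynomial.aeval t : MvPolynomial (Ix r1 r2) ℤ →ₐ[ℤ] F).toRingHom
      = derivative (gg t) := by
  rw [← derivative_map, GG_map]

theorem FF_map (r1 r2 : ℕ) {F : Type} [Field F] (t : Ix r1 r2 → F) :
    (GG r1 r2 - 1).map (MvPolynomial.aeval t : MvPolynomial (Ix r1 r2) ℤ →ₐ[ℤ] F).toRingHom
      = gg t - 1 := by
  rw [Polynomial.map_sub, GG_map, Polynomial.map_one]

theorem fact_ne {F : Type} [Field F] {d n : ℕ} (hn : n ≤ d)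
    (h : ((d.factorial : ℕ) : F) ≠ 0) : ((n.factorial : ℕ) : F) ≠ 0 := by
  intro h0
  apply h
  obtain ⟨c, hc⟩ := Nat.factorial_dvd_factorial hn
  rw [hc, Nat.cast_mul, h0, zero_mul]

theorem gg_eq {R : Type} [CommRing R] {r1 r2 : ℕ} (a : Fin r1 → R) (b c : Fin r2 → R) :
    gg (Sum.elim a (Sum.elim b c)) = Multi.genG a b c := by
  rw [gg, Multi.genG, Fintype.prod_sum_type]
  rfl

theorem sep3 (r1 r2 : ℕ) (hd : 1 ≤ r1 + 2 * r2) :
    ∃ t0 : Ix r1 r2 → ℂ, (gg t0 - 1).Separable := by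
  have hirr := Multi.genF_irreducible (r1 := r1) (r2 := r2) (fun i => ((i : ℕ) : ℤ))
    (fun k => ((k : ℕ) : ℤ)) (fun _ => 1)
    (fun i j h => by simpa [Fin.ext_iff] using h) (fun i j h => by simpa [Fin.ext_iff] using h)
    (fun _ => one_ne_zero) hd
  have hmon := Multi.genF_monic (r1 := r1) (r2 := r2) (fun i => ((i : ℕ) : ℤ))
    (fun k => ((k : ℕ) : ℤ)) (fun _ => 1) hd
  have h2 := (Polynomial.IsPrimitive.Int.irreducible_iff_irreducible_map_cast hmon.isPrimitive).1 hirr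
  have h3 := h2.separable
  have h4 := h3.map (f := algebraMap ℚ ℂ)
  rw [Polynomial.map_map, Multi.genF_map] at h4
  rw [Multi.genF, ← gg_eq] at h4
  exact ⟨_, h4⟩

end SepX

open SepX in
theorem pr_Sep : StRes → StSpec1 → StSpec0 → StSep := by
  intro hRes h1 h0 r1 r2 hd
  have hS : Spec r1 r2 := by
    rcases Nat.eq_zero_or_pos r1 with h | h
    · subst h
      exact h0 r2 (by omega)
    · exact h1 r1 r2 h
  obtain ⟨t0, ζ, hsep, hinj, hder, -⟩ := hS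
  obtain ⟨t1, ht1⟩ := sep3 r1 r2 hd
  have hd' : ((r1 + 2 * r2 : ℕ) : ℂ) ≠ 0 := by
    exact_mod_cast (by omega : r1 + 2 * r2 ≠ 0)
  have hder2 : (derivative (gg t0)).Separable := by
    rw [hder]
    exact Separable.unit_mul (isUnit_C.2 (isUnit_iff_ne_zero.2 hd'))
      (separable_prod_X_sub_C_iff.2 hinj)
  obtain ⟨Γ1, hΓ1, H1⟩ := hRes (Ix r1 r2) (GG r1 r2) t0
    (by rw [GG_map, GG_natDegree, gg_natDegree]) (by rw [GG_map]; exact hsep)
  obtain ⟨Γ2, hΓ2, H2⟩ := hRes (Ix r1 r2) (derivative (GG r1 r2)) t0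
    (by rw [dGG_map, dGG_natDegree, natDegree_derivative, gg_natDegree])
    (by rw [dGG_map]; exact hder2)
  obtain ⟨Γ3, hΓ3, H3⟩ := hRes (Ix r1 r2) (GG r1 r2 - 1) t1
    (by rw [FF_map, ff_natDegree, GG, ff_natDegree]) (by rw [FF_map]; exact ht1)
  refine ⟨Γ1 * Γ2 * Γ3, mul_ne_zero (mul_ne_zero hΓ1 hΓ2) hΓ3, ?_⟩
  intro F _ t hF ht
  rw [map_mul, map_mul] at ht
  have ht3 := right_ne_zero_of_mul ht
  have ht12 := left_ne_zero_of_mul ht
  have ht1' := left_ne_zero_of_mul ht12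
  have ht2' := right_ne_zero_of_mul ht12
  have e1 := H1 F t (by rw [GG_natDegree]; exact hF) ht1'
  have e2 := H2 F t (by rw [dGG_natDegree]; exact fact_ne (Nat.sub_le _ _) hF) ht2'
  have e3 := H3 F t (by rw [GG, ff_natDegree]; exact hF) ht3
  rw [GG_map] at e1
  rw [dGG_map] at e2
  rw [FF_map] at e3
  exact ⟨e1, e3, e2⟩

end Pool.Agent.Work.MP_59f3ad_nt.Cod
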