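import Mathlib
import Pool.Agent.Work.MP_59f3ad_nt.Cod.Stmts

/-!
MP_59f3ad_nt, block Cod, item Spec0: a specialisation with `r1 = 0` in which the values
`x + 1/x` at the critical points are distinct.
-/

open Polynomial

namespace Pool.Agent.Work.MP_59f3ad_nt.Cod

namespace Spec0X

/-- The zeros `1/(r2+1), ..., 1/2, 2, 3, ...`. -/
noncomputable def zz (r2 i : ℕ) : ℝ := if i < r2 then ((r2 : ℝ) + 1 - i)⁻¹ else (i : ℝ) - r2 + 2

theorem zz_lt (r2 : ℕ) : StrictMono (zz r2) := by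
  apply strictMono_nat_of_lt_succ
  intro i
  unfold zz
  split_ifs with h1 h2
  · have h3 : (i : ℝ) + 1 < r2 := by exact_mod_cast h2
    push_cast
    apply inv_strictAnti₀
    · linarith
    · linarith
  · have h3 : (r2 : ℝ) = i + 1 := by
      have : r2 = i + 1 := by omega
      rw [this]; push_cast; ring
    have h4 : ((r2 : ℝ) + 1 - i)⁻¹ < 1 := by
      rw [h3]
      apply inv_lt_one_of_one_lt₀
      linarith
    push_cast
    linarith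
  · exfalso; omega
  · push_cast; linarith

theorem zz_inv (r2 k : ℕ) (hk : k < r2) : zz r2 (r2 - 1 - k) = ((k : ℝ) + 2)⁻¹ := by
  unfold zz
  rw [if_pos (by omega)]
  rw [Nat.cast_sub (by omega), Nat.cast_sub (by omega)]
  push_cast
  congr 1
  ring

theorem zz_pos (r2 k : ℕ) : zz r2 (r2 + k) = (k : ℝ) + 2 := by
  unfold zz
  rw [if_neg (by omega)]
  push_cast
  ring

theorem zprod {M : Type*} [CommMonoid M] (G : ℝ → M) (r2 n : ℕ) (hn : 2 * r2 = n + 1) :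
    ∏ i : Fin (n + 1), G (zz r2 (i : ℕ)) =
      (∏ k : Fin r2, G ((((k : ℕ) : ℝ) + 2)⁻¹)) * ∏ k : Fin r2, G (((k : ℕ) : ℝ) + 2) := by
  rw [Fin.prod_univ_eq_prod_range (fun i => G (zz r2 i)) (n + 1),
    Fin.prod_univ_eq_prod_range (fun k => G (((k : ℝ) + 2)⁻¹)) r2,
    Fin.prod_univ_eq_prod_range (fun k => G ((k : ℝ) + 2)) r2, ← hn,
    show 2 * r2 = r2 + r2 by ring, Finset.prod_range_add]
  congr 1
  · rw [← Finset.prod_range_reflect]
    refine Finset.prod_congr rfl fun k hk => ?_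
    rw [zz_inv r2 k (Finset.mem_range.1 hk)]
  · refine Finset.prod_congr rfl fun k _ => ?_
    rw [zz_pos]

theorem zsum {M : Type*} [AddCommMonoid M] (G : ℝ → M) (r2 n : ℕ) (hn : 2 * r2 = n + 1) :
    ∑ i : Fin (n + 1), G (zz r2 (i : ℕ)) =
      (∑ k : Fin r2, G ((((k : ℕ) : ℝ) + 2)⁻¹)) + ∑ k : Fin r2, G (((k : ℕ) : ℝ) + 2) := by
  rw [Fin.sum_univ_eq_sum_range (fun i => G (zz r2 i)) (n + 1),
    Fin.sum_univ_eq_sum_range (fun k => G (((k : ℝ) + 2)⁻¹)) r2,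
    Fin.sum_univ_eq_sum_range (fun k => G ((k : ℝ) + 2)) r2, ← hn,
    show 2 * r2 = r2 + r2 by ring, Finset.sum_range_add]
  congr 1
  · rw [← Finset.sum_range_reflect]
    refine Finset.sum_congr rfl fun k hk => ?_
    rw [zz_inv r2 k (Finset.mem_range.1 hk)]
  · refine Finset.sum_congr rfl fun k _ => ?_
    rw [zz_pos]

theorem pair {x y : ℝ} (hx : x ≠ 0) (hy : y ≠ 0) (hxy : x ≠ y) :
    x * (x - y)⁻¹ + x⁻¹ * (x⁻¹ - y⁻¹)⁻¹ = 1 := by
  have h1 : x - y ≠ 0 := sub_ne_zero.2 hxy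
  have h2 : x⁻¹ - y⁻¹ = -((x - y) / (x * y)) := by
    field_simp
    ring
  rw [h2, inv_neg, inv_div]
  field_simp
  ring

/-- There are no two reciprocal critical points. -/
theorem no_rec (r2 n : ℕ) (hn : 2 * r2 = n + 1) (x : ℝ) (hx : x ≠ 0)
    (hz : ∀ i : Fin (n + 1), x ≠ zz r2 (i : ℕ))
    (hs : ∑ j : Fin (n + 1), (x - zz r2 (j : ℕ))⁻¹ = 0)
    (hs' : ∑ j : Fin (n + 1), (x⁻¹ - zz r2 (j : ℕ))⁻¹ = 0) : False := by
  rw [zsum (fun y : ℝ => (x - y)⁻¹) r2 n hn] at hs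
  rw [zsum (fun y : ℝ => (x⁻¹ - y)⁻¹) r2 n hn] at hs'
  have h1 : ∀ k : Fin r2, x ≠ ((k : ℕ) : ℝ) + 2 := by
    intro k
    have := hz ⟨r2 + k, by omega⟩
    rwa [show zz r2 ((⟨r2 + k, by omega⟩ : Fin (n + 1)) : ℕ) = ((k : ℕ) : ℝ) + 2 from
      zz_pos r2 k] at this
  have h2 : ∀ k : Fin r2, x ≠ (((k : ℕ) : ℝ) + 2)⁻¹ := by
    intro k
    have := hz ⟨r2 - 1 - k, by omega⟩
    rwa [show zz r2 ((⟨r2 - 1 - k, by omega⟩ : Fin (n + 1)) : ℕ) = (((k : ℕ) : ℝ) + 2)⁻¹ from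
      zz_inv r2 k k.2] at this
  have h3 : ∀ k : Fin r2, ((k : ℕ) : ℝ) + 2 ≠ 0 := by
    intro k
    positivity
  have h4 : x * ((∑ k : Fin r2, (x - (((k : ℕ) : ℝ) + 2)⁻¹)⁻¹) +
      ∑ k : Fin r2, (x - (((k : ℕ) : ℝ) + 2))⁻¹) +
      x⁻¹ * ((∑ k : Fin r2, (x⁻¹ - (((k : ℕ) : ℝ) + 2)⁻¹)⁻¹) +
      ∑ k : Fin r2, (x⁻¹ - (((k : ℕ) : ℝ) + 2))⁻¹) = 2 * r2 := by
    have h5 : ∑ k : Fin r2, (x * (x - (((k : ℕ) : ℝ) + 2)⁻¹)⁻¹ +
        x⁻¹ * (x⁻¹ - (((k : ℕ) : ℝ) + 2))⁻¹) = r2 := by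
      rw [Finset.sum_congr rfl (g := fun _ => (1 : ℝ)) (fun k _ => by
        have := pair hx (inv_ne_zero (h3 k)) (h2 k)
        rwa [inv_inv] at this)]
      simp
    have h6 : ∑ k : Fin r2, (x * (x - (((k : ℕ) : ℝ) + 2))⁻¹ +
        x⁻¹ * (x⁻¹ - (((k : ℕ) : ℝ) + 2)⁻¹)⁻¹) = r2 := by
      rw [Finset.sum_congr rfl (g := fun _ => (1 : ℝ)) (fun k _ => pair hx (h3 k) (h1 k))]
      simp
    rw [Finset.sum_add_distrib, ← Finset.mul_sum, ← Finset.mul_sum] at h5 h6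
    linarith
  rw [hs, hs', mul_zero, mul_zero, add_zero] at h4
  have h5 : (r2 : ℝ) = 0 := by linarith
  have h6 : r2 = 0 := by exact_mod_cast h5
  omega

/-- `x + 1/x` separates positive numbers up to reciprocals. -/
theorem w_eq {x y : ℝ} (hx : 0 < x) (hy : 0 < y) (h : x + x⁻¹ = y + y⁻¹) : x = y ∨ x = y⁻¹ := by
  have h1 : (x - y) * (x - y⁻¹) = 0 := by
    have h2 : (x - y) * (x - y⁻¹) = x * ((x + x⁻¹) - (y + y⁻¹)) := by
      field_simp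
      ring
    rw [h2, h, sub_self, mul_zero]
  rcases mul_eq_zero.1 h1 with h2 | h2
  · exact Or.inl (sub_eq_zero.1 h2)
  · exact Or.inr (sub_eq_zero.1 h2)

end Spec0X

open Spec0X in
theorem pr_Spec0 : StRolle → StCau → StSpec0 := by
  intro hR hC r2 hr2
  obtain ⟨n, hn⟩ : ∃ n, 0 + 2 * r2 = n + 1 := ⟨0 + 2 * r2 - 1, by omega⟩
  have hn' : 2 * r2 = n + 1 := by omega
  unfold Spec
  rw [hn, Nat.add_sub_cancel]
  have hsq : ∀ k : Fin r2, ∃ s : ℂ, s ^ 2 =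
      (1 - ((((k : ℕ) : ℂ) + 2 + (((k : ℕ) : ℂ) + 2)⁻¹) / 2) ^ 2) / 2 := fun k =>
    IsAlgClosed.exists_pow_nat_eq _ (by norm_num)
  choose s hs using hsq
  have hzm : StrictMono fun i : Fin (n + 1) => zz r2 (i : ℕ) := fun i j hij => zz_lt r2 hij
  obtain ⟨ζ, hζm, hζb, hζd, hζs⟩ := hR n (fun i => zz r2 (i : ℕ)) hzm
  set t : Ix 0 r2 → ℂ := fun x => match x with
    | Sum.inl _ => 0
    | Sum.inr (Sum.inl k) => (((k : ℕ) : ℂ) + 2 + (((k : ℕ) : ℂ) + 2)⁻¹) / 2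
    | Sum.inr (Sum.inr k) => s k with ht
  have hfr0 : ∀ k : Fin r2, fac t (Sum.inr k) =
      (X - C ((((k : ℕ) : ℂ) + 2 + (((k : ℕ) : ℂ) + 2)⁻¹) / 2)) ^ 2 +
      C (2 * s k ^ 2) := fun k => rfl
  have hk0 : ∀ k : Fin r2, ((k : ℕ) : ℂ) + 2 ≠ 0 := by
    intro k
    have : (((k : ℕ) + 2 : ℕ) : ℂ) ≠ 0 := Nat.cast_ne_zero.2 (by omega)
    push_cast at this
    exact this
  have hfr : ∀ k : Fin r2, fac t (Sum.inr k) =
      (X - C ((((k : ℕ) : ℂ) + 2)⁻¹)) * (X - C (((k : ℕ) : ℂ) + 2)) := by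
    intro k
    rw [hfr0, hs]
    have h1 : 2 * ((1 - ((((k : ℕ) : ℂ) + 2 + (((k : ℕ) : ℂ) + 2)⁻¹) / 2) ^ 2) / 2) =
        1 - ((((k : ℕ) : ℂ) + 2 + (((k : ℕ) : ℂ) + 2)⁻¹) / 2) ^ 2 := by ring
    rw [h1]
    have h2 := hk0 k
    generalize ((k : ℕ) : ℂ) + 2 = a at h2 ⊢
    have h3 : (1 : ℂ) = a⁻¹ * a := (inv_mul_cancel₀ h2).symm
    have h4 : C (1 - ((a + a⁻¹) / 2) ^ 2) = C (a⁻¹ * a) - C ((a + a⁻¹) / 2) ^ 2 := by
      rw [← h3, ← C_pow, ← C_sub]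
    rw [h4, C_mul]
    have h5 : (C ((a + a⁻¹) / 2) : ℂ[X]) * 2 = C a + C a⁻¹ := by
      have : (2 : ℂ[X]) = C 2 := rfl
      rw [this, ← C_mul, ← C_add]
      congr 1
      ring
    have h6 : (X - C ((a + a⁻¹) / 2)) ^ 2 + (C a⁻¹ * C a - C ((a + a⁻¹) / 2) ^ 2) =
        X ^ 2 - X * (C ((a + a⁻¹) / 2) * 2) + C a⁻¹ * C a := by ring
    rw [h6, h5]
    ring
  have hgg : gg t = (∏ i : Fin (n + 1), (X - C (zz r2 (i : ℕ)))).map Complex.ofRealHom := by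
    rw [Polynomial.map_prod]
    simp only [Polynomial.map_sub, Polynomial.map_X, Polynomial.map_C, Complex.ofRealHom_eq_coe]
    rw [zprod (fun x : ℝ => (X - C (x : ℂ) : ℂ[X])) r2 n hn']
    unfold gg
    rw [Fintype.prod_sum_type, ← Finset.prod_mul_distrib, Finset.univ_eq_empty, Finset.prod_empty,
      one_mul]
    refine Finset.prod_congr rfl fun k _ => ?_
    rw [hfr]
    push_cast
    rfl
  have hne : ∀ (i : Fin n) (j : Fin (n + 1)), ζ i ≠ zz r2 (j : ℕ) := by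
    intro i j hij
    rcases lt_or_ge i.castSucc j with h | h
    · have h1 : i.succ ≤ j := Fin.castSucc_lt_iff_succ_le.1 h
      have h2 := hzm.monotone h1
      have h3 := (hζb i).2
      rw [hij] at h3
      exact absurd h2 (not_le.2 h3)
    · have h2 := hzm.monotone h
      have h3 := (hζb i).1
      rw [hij] at h3
      exact absurd h2 (not_le.2 h3)
  have hpos : ∀ i : Fin n, 0 < ζ i := by
    intro i
    have h1 := (hζb i).1
    have h2 := hzm.monotone (Fin.zero_le i.castSucc)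
    have h3 : 0 < zz r2 ((0 : Fin (n + 1)) : ℕ) := by
      rw [show ((0 : Fin (n + 1)) : ℕ) = r2 - 1 - (r2 - 1) by rw [Fin.val_zero]; omega,
        zz_inv r2 (r2 - 1) (by omega)]
      positivity
    linarith
  have hinj : ∀ i j : Fin n, ζ i + (ζ i)⁻¹ = ζ j + (ζ j)⁻¹ → i = j := by
    intro i j hij
    rcases w_eq (hpos i) (hpos j) hij with h | h
    · exact hζm.injective h
    · exfalso
      refine no_rec r2 n hn' (ζ j) (hpos j).ne' (hne j) (hζs j) ?_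
      rw [← h]
      exact hζs i
  refine ⟨t, fun i => (ζ i : ℂ), ?_, ?_, ?_, ?_⟩
  · rw [hgg]
    apply Polynomial.Separable.map
    rw [Polynomial.separable_prod_X_sub_C_iff]
    exact hzm.injective
  · intro i j hij
    exact hζm.injective (Complex.ofReal_injective hij)
  · rw [hgg, Polynomial.derivative_map, hζd, Polynomial.map_mul, Polynomial.map_prod]
    simp only [Polynomial.map_sub, Polynomial.map_X, Polynomial.map_C, Complex.ofRealHom_eq_coe]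
    push_cast
    rfl
  · intro φ
    have hz0 : ∀ l : Fin r2, ((ζ (φ l) : ℝ) : ℂ) ≠ 0 := fun l => by
      exact_mod_cast (hpos (φ l)).ne'
    have h1 : DD t (fun l => ((ζ (φ l) : ℝ) : ℂ)) =
        (Matrix.of fun j l : Fin r2 => (((ζ (φ l) : ℝ) : ℂ)) ^ (r2 - 1) *
          (Matrix.of fun j l : Fin r2 => ∏ m ∈ Finset.univ.erase j,
          ((((ζ (φ l) : ℝ) : ℂ) + (((ζ (φ l) : ℝ) : ℂ))⁻¹) -
            (((m : ℕ) : ℂ) + 2 + (((m : ℕ) : ℂ) + 2)⁻¹))) j l).det := by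
      unfold DD
      congr 1
      ext j l
      simp only [Matrix.of_apply]
      rw [Polynomial.eval_prod]
      have h2 : (((ζ (φ l) : ℝ) : ℂ)) ^ (r2 - 1) =
          ∏ m ∈ Finset.univ.erase j, (((ζ (φ l) : ℝ) : ℂ)) := by
        rw [Finset.prod_const, Finset.card_erase_of_mem (Finset.mem_univ j), Finset.card_univ,
          Fintype.card_fin]
      rw [h2, ← Finset.prod_mul_distrib]
      refine Finset.prod_congr rfl fun m _ => ?_
      rw [hfr]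
      simp only [eval_mul, eval_sub, eval_X, eval_C]
      have h3 := hk0 m
      have h4 := hz0 l
      field_simp
      ring
    rw [h1, Matrix.det_mul_row]
    refine mul_ne_zero (Finset.prod_ne_zero_iff.2 fun l _ => pow_ne_zero _ (hz0 l)) ?_
    refine hC ℂ r2 (fun l => ((ζ (φ l) : ℝ) : ℂ) + (((ζ (φ l) : ℝ) : ℂ))⁻¹)
      (fun m => ((m : ℕ) : ℂ) + 2 + (((m : ℕ) : ℂ) + 2)⁻¹) ?_ ?_ ?_
    · intro l l' hll
      apply φ.injective
      apply hinj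
      have h2 : ((ζ (φ l) : ℝ) : ℂ) + (((ζ (φ l) : ℝ) : ℂ))⁻¹ =
        ((ζ (φ l') : ℝ) : ℂ) + (((ζ (φ l') : ℝ) : ℂ))⁻¹ := hll
      exact_mod_cast h2
    · intro m m' hmm
      have h2 : ((m : ℕ) : ℂ) + 2 + (((m : ℕ) : ℂ) + 2)⁻¹ =
        ((m' : ℕ) : ℂ) + 2 + (((m' : ℕ) : ℂ) + 2)⁻¹ := hmm
      have h3 : ((m : ℕ) : ℝ) + 2 + (((m : ℕ) : ℝ) + 2)⁻¹ =
        ((m' : ℕ) : ℝ) + 2 + (((m' : ℕ) : ℝ) + 2)⁻¹ := by
        apply Complex.ofReal_injective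
        push_cast
        exact h2
      have hm : (0 : ℝ) ≤ ((m : ℕ) : ℝ) := Nat.cast_nonneg _
      have hm' : (0 : ℝ) ≤ ((m' : ℕ) : ℝ) := Nat.cast_nonneg _
      rcases w_eq (by linarith) (by linarith) h3 with h4 | h4
      · have h5 : ((m : ℕ) : ℝ) = ((m' : ℕ) : ℝ) := by linarith
        exact Fin.ext (by exact_mod_cast h5)
      · exfalso
        have h5 : (((m' : ℕ) : ℝ) + 2)⁻¹ < 1 := inv_lt_one_of_one_lt₀ (by linarith)
        linarith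
    · intro l j hlj
      have h2 : ((ζ (φ l) : ℝ) : ℂ) + (((ζ (φ l) : ℝ) : ℂ))⁻¹ =
        ((j : ℕ) : ℂ) + 2 + (((j : ℕ) : ℂ) + 2)⁻¹ := hlj
      have h3 : ζ (φ l) + (ζ (φ l))⁻¹ =
        ((j : ℕ) : ℝ) + 2 + (((j : ℕ) : ℝ) + 2)⁻¹ := by
        apply Complex.ofReal_injective
        push_cast
        exact h2
      have hj : (0 : ℝ) ≤ ((j : ℕ) : ℝ) := Nat.cast_nonneg _
      rcases w_eq (hpos (φ l)) (by linarith) h3 with h | h
      · refine hne (φ l) ⟨r2 + j, by omega⟩ ?_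
        rw [h]
        show _ = zz r2 (r2 + (j : ℕ))
        rw [zz_pos]
      · refine hne (φ l) ⟨r2 - 1 - j, by omega⟩ ?_
        rw [h]
        show _ = zz r2 (r2 - 1 - (j : ℕ))
        rw [zz_inv r2 j j.2]

end Pool.Agent.Work.MP_59f3ad_nt.Cod
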