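import Mathlib
import Pool.Agent.Work.MP_59f3ad_nt.Cod.Stmts

/-!
MP_59f3ad_nt, block Cod, item Spec1: a specialisation with `r1 ≥ 1` in which the critical points
have distinct squares.
-/

open Polynomial

namespace Pool.Agent.Work.MP_59f3ad_nt.Cod

namespace Spec1X

/-- The zeros `-r2, ..., -1, 1, 2, ...`. -/
noncomputable def zz (r2 i : ℕ) : ℝ := if i < r2 then (i : ℝ) - r2 else (i : ℝ) - r2 + 1

theorem zz_lt (r2 : ℕ) : StrictMono (zz r2) := by
  apply strictMono_nat_of_lt_succ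
  intro i
  unfold zz
  split_ifs
  · push_cast; linarith
  · push_cast; linarith
  · exfalso; omega
  · push_cast; linarith

theorem zz_neg (r2 k : ℕ) (hk : k < r2) : zz r2 (r2 - 1 - k) = -(k : ℝ) - 1 := by
  unfold zz
  rw [if_pos (by omega)]
  rw [Nat.cast_sub (by omega), Nat.cast_sub (by omega)]
  push_cast
  ring

theorem zz_pos (r2 k : ℕ) : zz r2 (r2 + k) = (k : ℝ) + 1 := by
  unfold zz
  rw [if_neg (by omega)]
  push_cast
  ring

theorem zprod {M : Type*} [CommMonoid M] (G : ℝ → M) (r1 r2 n : ℕ) (hn : r1 + 2 * r2 = n + 1) :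
    ∏ i : Fin (n + 1), G (zz r2 (i : ℕ)) =
      ((∏ k : Fin r2, G (-((k : ℕ) : ℝ) - 1)) * ∏ k : Fin r2, G (((k : ℕ) : ℝ) + 1)) *
        ∏ i : Fin r1, G ((r2 : ℝ) + 1 + ((i : ℕ) : ℝ)) := by
  rw [Fin.prod_univ_eq_prod_range (fun i => G (zz r2 i)) (n + 1),
    Fin.prod_univ_eq_prod_range (fun k => G (-(k : ℝ) - 1)) r2,
    Fin.prod_univ_eq_prod_range (fun k => G ((k : ℝ) + 1)) r2,
    Fin.prod_univ_eq_prod_range (fun i => G ((r2 : ℝ) + 1 + (i : ℝ))) r1, ← hn,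
    show r1 + 2 * r2 = r2 + r2 + r1 by ring, Finset.prod_range_add, Finset.prod_range_add]
  congr 1
  · congr 1
    · rw [← Finset.prod_range_reflect]
      refine Finset.prod_congr rfl fun k hk => ?_
      rw [zz_neg r2 k (Finset.mem_range.1 hk)]
    · refine Finset.prod_congr rfl fun k _ => ?_
      rw [zz_pos]
  · refine Finset.prod_congr rfl fun i _ => ?_
    rw [show r2 + r2 + i = r2 + (r2 + i) by ring, zz_pos]
    push_cast
    congr 1
    ring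

theorem zsum {M : Type*} [AddCommMonoid M] (G : ℝ → M) (r1 r2 n : ℕ)
    (hn : r1 + 2 * r2 = n + 1) :
    ∑ i : Fin (n + 1), G (zz r2 (i : ℕ)) =
      ((∑ k : Fin r2, G (-((k : ℕ) : ℝ) - 1)) + ∑ k : Fin r2, G (((k : ℕ) : ℝ) + 1)) +
        ∑ i : Fin r1, G ((r2 : ℝ) + 1 + ((i : ℕ) : ℝ)) := by
  rw [Fin.sum_univ_eq_sum_range (fun i => G (zz r2 i)) (n + 1),
    Fin.sum_univ_eq_sum_range (fun k => G (-(k : ℝ) - 1)) r2,
    Fin.sum_univ_eq_sum_range (fun k => G ((k : ℝ) + 1)) r2,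
    Fin.sum_univ_eq_sum_range (fun i => G ((r2 : ℝ) + 1 + (i : ℝ))) r1, ← hn,
    show r1 + 2 * r2 = r2 + r2 + r1 by ring, Finset.sum_range_add, Finset.sum_range_add]
  congr 1
  · congr 1
    · rw [← Finset.sum_range_reflect]
      refine Finset.sum_congr rfl fun k hk => ?_
      rw [zz_neg r2 k (Finset.mem_range.1 hk)]
    · refine Finset.sum_congr rfl fun k _ => ?_
      rw [zz_pos]
  · refine Finset.sum_congr rfl fun i _ => ?_
    rw [show r2 + r2 + i = r2 + (r2 + i) by ring, zz_pos]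
    push_cast
    congr 1
    ring

/-- There are no two opposite critical points. -/
theorem no_opp (r1 r2 n : ℕ) (hn : r1 + 2 * r2 = n + 1) (hr1 : 1 ≤ r1) (x : ℝ)
    (h1 : -(r2 : ℝ) < x) (h2 : -(r2 : ℝ) < -x) (hz : ∀ i : Fin (n + 1), x ≠ zz r2 (i : ℕ))
    (hz' : ∀ i : Fin (n + 1), -x ≠ zz r2 (i : ℕ))
    (hs : ∑ j : Fin (n + 1), (x - zz r2 (j : ℕ))⁻¹ = 0)
    (hs' : ∑ j : Fin (n + 1), (-x - zz r2 (j : ℕ))⁻¹ = 0) : False := by
  have h3 : ∑ j : Fin (n + 1), (fun y : ℝ => 2 * y / (x ^ 2 - y ^ 2)) (zz r2 (j : ℕ)) = 0 := by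
    have h4 : ∀ j : Fin (n + 1), (fun y : ℝ => 2 * y / (x ^ 2 - y ^ 2)) (zz r2 (j : ℕ)) =
        (x - zz r2 (j : ℕ))⁻¹ + (-x - zz r2 (j : ℕ))⁻¹ := by
      intro j
      have h5 : x - zz r2 (j : ℕ) ≠ 0 := sub_ne_zero.2 (hz j)
      have h6 : -x - zz r2 (j : ℕ) ≠ 0 := sub_ne_zero.2 (hz' j)
      have h7 : x ^ 2 - zz r2 (j : ℕ) ^ 2 ≠ 0 := by
        have h8 : x ^ 2 - zz r2 (j : ℕ) ^ 2 =
            -((x - zz r2 (j : ℕ)) * (-x - zz r2 (j : ℕ))) := by ring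
        rw [h8]
        exact neg_ne_zero.2 (mul_ne_zero h5 h6)
      have h9 : (x - zz r2 (j : ℕ))⁻¹ + (-x - zz r2 (j : ℕ))⁻¹ =
          (-2 * zz r2 (j : ℕ)) / ((x - zz r2 (j : ℕ)) * (-x - zz r2 (j : ℕ))) := by
        rw [eq_div_iff (mul_ne_zero h5 h6), add_mul]
        have h10 : (x - zz r2 (j : ℕ))⁻¹ * ((x - zz r2 (j : ℕ)) * (-x - zz r2 (j : ℕ))) =
            -x - zz r2 (j : ℕ) := by
          rw [← mul_assoc, inv_mul_cancel₀ h5, one_mul]
        have h11 : (-x - zz r2 (j : ℕ))⁻¹ * ((x - zz r2 (j : ℕ)) * (-x - zz r2 (j : ℕ))) =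
            x - zz r2 (j : ℕ) := by
          rw [mul_comm (x - zz r2 (j : ℕ)), ← mul_assoc, inv_mul_cancel₀ h6, one_mul]
        rw [h10, h11]
        ring
      rw [h9]
      show 2 * zz r2 (j : ℕ) / (x ^ 2 - zz r2 (j : ℕ) ^ 2) = _
      rw [div_eq_div_iff h7 (mul_ne_zero h5 h6)]
      ring
    rw [Finset.sum_congr rfl fun j _ => h4 j, Finset.sum_add_distrib, hs, hs', add_zero]
  rw [zsum (fun y : ℝ => 2 * y / (x ^ 2 - y ^ 2)) r1 r2 n hn, ← Finset.sum_add_distrib] at h3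
  have h5 : ∀ k : Fin r2, (2 * (-((k : ℕ) : ℝ) - 1) / (x ^ 2 - (-((k : ℕ) : ℝ) - 1) ^ 2) +
      2 * (((k : ℕ) : ℝ) + 1) / (x ^ 2 - (((k : ℕ) : ℝ) + 1) ^ 2)) = 0 := by
    intro k
    have h6 : (-((k : ℕ) : ℝ) - 1) ^ 2 = (((k : ℕ) : ℝ) + 1) ^ 2 := by ring
    rw [h6, ← add_div]
    have h7 : 2 * (-((k : ℕ) : ℝ) - 1) + 2 * (((k : ℕ) : ℝ) + 1) = 0 := by ring
    rw [h7, zero_div]
  rw [Finset.sum_congr rfl fun k _ => h5 k, Finset.sum_const_zero, zero_add] at h3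
  have h6 : ∑ i : Fin r1, (2 * ((r2 : ℝ) + 1 + ((i : ℕ) : ℝ)) /
      (x ^ 2 - ((r2 : ℝ) + 1 + ((i : ℕ) : ℝ)) ^ 2)) < 0 := by
    apply Finset.sum_neg
    · intro i _
      apply div_neg_of_pos_of_neg
      · positivity
      · have h7 : |x| < (r2 : ℝ) + 1 + ((i : ℕ) : ℝ) := by
          rw [abs_lt]
          have h8 : (0 : ℝ) ≤ ((i : ℕ) : ℝ) := Nat.cast_nonneg _
          constructor <;> linarith
        have h9 := sq_lt_sq' (neg_lt_of_abs_lt h7) (lt_of_abs_lt h7)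
        linarith
    · exact ⟨⟨0, hr1⟩, Finset.mem_univ _⟩
  exact absurd h3 h6.ne

end Spec1X

open Spec1X in
theorem pr_Spec1 : StRolle → StCau → StSpec1 := by
  intro hR hC r1 r2 hr1
  obtain ⟨n, hn⟩ : ∃ n, r1 + 2 * r2 = n + 1 := ⟨r1 + 2 * r2 - 1, by omega⟩
  unfold Spec
  rw [hn, Nat.add_sub_cancel]
  obtain ⟨s, hs⟩ : ∃ s : ℂ, s ^ 2 = -1 / 2 := IsAlgClosed.exists_pow_nat_eq _ (by norm_num)
  have hzm : StrictMono fun i : Fin (n + 1) => zz r2 (i : ℕ) := fun i j hij => zz_lt r2 hij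
  obtain ⟨ζ, hζm, hζb, hζd, hζs⟩ := hR n (fun i => zz r2 (i : ℕ)) hzm
  -- the parameters
  set t : Ix r1 r2 → ℂ := fun x => match x with
    | Sum.inl i => (r2 : ℂ) + 1 + ((i : ℕ) : ℂ)
    | Sum.inr (Sum.inl _) => 0
    | Sum.inr (Sum.inr k) => (((k : ℕ) : ℂ) + 1) * s with ht
  have hfl : ∀ i : Fin r1, fac t (Sum.inl i) = X - C ((r2 : ℂ) + 1 + ((i : ℕ) : ℂ)) :=
    fun i => rfl
  have hc2 : ∀ k : Fin r2, 2 * ((((k : ℕ) : ℂ) + 1) * s) ^ 2 = -(((k : ℕ) : ℂ) + 1) ^ 2 := by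
    intro k
    rw [mul_pow, hs]
    ring
  have hfr0 : ∀ k : Fin r2, fac t (Sum.inr k) = (X - C 0) ^ 2 +
      C (2 * ((((k : ℕ) : ℂ) + 1) * s) ^ 2) := fun k => rfl
  have hfr : ∀ k : Fin r2, fac t (Sum.inr k) =
      (X - C (-((k : ℕ) : ℂ) - 1)) * (X - C (((k : ℕ) : ℂ) + 1)) := by
    intro k
    rw [hfr0, hc2]
    simp only [map_neg, map_pow, map_sub, map_add, map_one, map_zero]
    ring
  have hgg : gg t = (∏ i : Fin (n + 1), (X - C (zz r2 (i : ℕ)))).map Complex.ofRealHom := by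
    rw [Polynomial.map_prod]
    simp only [Polynomial.map_sub, Polynomial.map_X, Polynomial.map_C, Complex.ofRealHom_eq_coe]
    rw [zprod (fun x : ℝ => (X - C (x : ℂ) : ℂ[X])) r1 r2 n hn]
    unfold gg
    rw [Fintype.prod_sum_type, ← Finset.prod_mul_distrib, mul_comm]
    congr 1
    · refine Finset.prod_congr rfl fun k _ => ?_
      rw [hfr]
      push_cast
      rfl
    · refine Finset.prod_congr rfl fun i _ => ?_
      rw [hfl]
      push_cast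
      rfl
  have hne : ∀ (i : Fin n) (j : Fin (n + 1)), ζ i ≠ zz r2 (j : ℕ) := by
    intro i j hij
    rcases lt_or_ge i.castSucc j with h | h
    · have h1 : i.succ ≤ j := Fin.castSucc_lt_iff_succ_le.1 h
      have h2 := hzm.monotone h1
      have h3 := (hζb i).2
      rw [hij] at h3
      exact absurd h2 (not_le.2 h3)
    · have h2 := hzm.monotone h
      have h3 := (hζb i).1
      rw [hij] at h3
      exact absurd h2 (not_le.2 h3)
  have hlow : ∀ i : Fin n, -(r2 : ℝ) < ζ i := by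
    intro i
    have h1 := (hζb i).1
    have h2 := hzm.monotone (Fin.zero_le i.castSucc)
    have h3 : -(r2 : ℝ) ≤ zz r2 ((0 : Fin (n + 1)) : ℕ) := by
      unfold zz
      split_ifs
      · simp
      · rw [Fin.val_zero]
        push_cast
        linarith
    linarith
  have hsq : ∀ i j : Fin n, (ζ i) ^ 2 = (ζ j) ^ 2 → i = j := by
    intro i j hij
    rcases sq_eq_sq_iff_eq_or_eq_neg.1 hij with h | h
    · exact hζm.injective h
    · exfalso
      refine no_opp r1 r2 n hn hr1 (ζ j) (hlow j) (by rw [← h]; exact hlow i) (hne j)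
        (by rw [← h]; exact hne i) (hζs j) (by rw [← h]; exact hζs i)
  refine ⟨t, fun i => (ζ i : ℂ), ?_, ?_, ?_, ?_⟩
  · rw [hgg]
    apply Polynomial.Separable.map
    rw [Polynomial.separable_prod_X_sub_C_iff]
    exact hzm.injective
  · intro i j hij
    exact hζm.injective (Complex.ofReal_injective hij)
  · rw [hgg, Polynomial.derivative_map, hζd, Polynomial.map_mul, Polynomial.map_prod]
    simp only [Polynomial.map_sub, Polynomial.map_X, Polynomial.map_C, Complex.ofRealHom_eq_coe]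
    push_cast
    rfl
  · intro φ
    have h1 : DD t (fun l => ((ζ (φ l) : ℝ) : ℂ)) =
        (Matrix.of fun j l : Fin r2 => ∏ m ∈ Finset.univ.erase j,
          (((ζ (φ l) : ℝ) : ℂ) ^ 2 - (((m : ℕ) : ℂ) + 1) ^ 2)).det := by
      unfold DD
      congr 1
      ext j l
      simp only [Matrix.of_apply]
      rw [Polynomial.eval_prod]
      refine Finset.prod_congr rfl fun m _ => ?_
      rw [hfr]
      simp only [eval_mul, eval_sub, eval_X, eval_C]
      ring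
    rw [h1]
    refine hC ℂ r2 (fun l => ((ζ (φ l) : ℝ) : ℂ) ^ 2) (fun m => (((m : ℕ) : ℂ) + 1) ^ 2) ?_ ?_ ?_
    · intro l l' hll
      apply φ.injective
      apply hsq
      have h2 : (((ζ (φ l) : ℝ) : ℂ)) ^ 2 = (((ζ (φ l') : ℝ) : ℂ)) ^ 2 := hll
      exact_mod_cast h2
    · intro m m' hmm
      have h2 : (((m : ℕ) : ℂ) + 1) ^ 2 = (((m' : ℕ) : ℂ) + 1) ^ 2 := hmm
      have h3 : ((m : ℕ) + 1) ^ 2 = ((m' : ℕ) + 1) ^ 2 := by exact_mod_cast h2
      have h4 : (m : ℕ) + 1 = (m' : ℕ) + 1 := Nat.pow_left_injective (by norm_num : (2 : ℕ) ≠ 0) h3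
      exact Fin.ext (by omega)
    · intro l j hlj
      have h2 : (((ζ (φ l) : ℝ) : ℂ)) ^ 2 = (((j : ℕ) : ℂ) + 1) ^ 2 := hlj
      have h3 : (ζ (φ l)) ^ 2 = (((j : ℕ) : ℝ) + 1) ^ 2 := by exact_mod_cast h2
      rcases sq_eq_sq_iff_eq_or_eq_neg.1 h3 with h | h
      · refine hne (φ l) ⟨r2 + j, by omega⟩ ?_
        rw [h]
        show _ = zz r2 (r2 + (j : ℕ))
        rw [zz_pos]
      · refine hne (φ l) ⟨r2 - 1 - j, by omega⟩ ?_
        rw [h]
        show _ = zz r2 (r2 - 1 - (j : ℕ))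
        rw [zz_neg r2 j j.2]
        ring

end Pool.Agent.Work.MP_59f3ad_nt.Cod
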