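import Mathlib
import Pool.Agent.Work.MP_59f3ad_nt.Bdx.B02

/-!
MP_59f3ad_nt: the sum over the primes up to `P`.
-/

open Polynomial

namespace Pool.Agent.Work.MP_59f3ad_nt.Cod

namespace SumX

theorem pi_le_nat (y : ℕ) (hy : 2 ≤ y) :
    ((Nat.primeCounting y : ℕ) : ℝ) ≤ 5 * y / Real.log y := by
  have hy1 : (1 : ℝ) < (y : ℝ) := by exact_mod_cast hy
  have hpos : (0 : ℝ) < (y : ℝ) := by linarith
  have h := Chebyshev.pi_le_log4_mul_div hy1
  rw [Nat.floor_natCast] at h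
  have hlog : 0 < Real.log y := Real.log_pos hy1
  have hsq : Real.log (√(y : ℝ)) = Real.log y / 2 := Real.log_sqrt hpos.le
  have hspos : 0 < √(y : ℝ) := Real.sqrt_pos.mpr hpos
  have h1 : Real.log (√(y : ℝ)) ≤ √(y : ℝ) - 1 := Real.log_le_sub_one_of_pos hspos
  have hss : √(y : ℝ) * √(y : ℝ) = y := Real.mul_self_sqrt hpos.le
  have h2 : √(y : ℝ) * Real.log y ≤ 2 * y := by
    rw [hsq] at h1
    nlinarith
  have h4 : Real.log 4 ≤ 3 / 2 := by
    have : (4 : ℝ) = 2 ^ 2 := by norm_num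
    rw [this, Real.log_pow]
    have := Real.log_two_lt_d9
    push_cast
    linarith
  have h5 : Real.log 4 * y / Real.log (√(y : ℝ)) ≤ 3 * y / Real.log y := by
    rw [hsq, div_div_eq_mul_div]
    apply div_le_div_of_nonneg_right _ hlog.le
    nlinarith
  have h6 : √(y : ℝ) ≤ 2 * y / Real.log y := by
    rw [le_div_iff₀ hlog]
    exact h2
  calc ((Nat.primeCounting y : ℕ) : ℝ) ≤ _ := h
    _ ≤ 3 * y / Real.log y + 2 * y / Real.log y := by linarith
    _ = 5 * y / Real.log y := by ring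

theorem ncard_biUnion_le_sum {α ι : Type*} (s : Finset ι) (f : ι → Set α) :
    (⋃ i ∈ s, f i).ncard ≤ ∑ i ∈ s, (f i).ncard := by
  classical
  induction s using Finset.induction_on with
  | empty => simp
  | insert a s ha ih =>
    rw [Finset.set_biUnion_insert, Finset.sum_insert ha]
    exact (Set.ncard_union_le _ _).trans (Nat.add_le_add_left ih _)

end SumX

open SumX in
theorem pr_Sum : StSum := by
  intro σ _ k C Bad hBad
  classical
  refine ⟨5 * C, fun X y hX hy2 => ?_⟩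
  set S : Set (σ → ℤ) := {t : σ → ℤ | (∀ i, |t i| ≤ X) ∧
    ∃ p : ℕ, p.Prime ∧ p ≤ y ∧ t ∈ Bad p} with hS
  have hbox : {t : σ → ℤ | ∀ i, |t i| ≤ X}.Finite := by
    apply (Fintype.piFinset (fun _ : σ => Finset.Icc (-(X : ℤ)) X)).finite_toSet.subset
    intro t ht
    rw [Finset.mem_coe, Fintype.mem_piFinset]
    intro i
    rw [Finset.mem_Icc]
    exact abs_le.mp (ht i)
  set P := (Finset.range (y + 1)).filter Nat.Prime with hP
  have hPp : ∀ p ∈ P, p.Prime := fun p hp => (Finset.mem_filter.mp hp).2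
  have hPy : ∀ p ∈ P, p ≤ y := fun p hp => by
    have := (Finset.mem_range.mp (Finset.mem_filter.mp hp).1); omega
  have hsub : S ⊆ ⋃ p ∈ P, {t : σ → ℤ | (∀ i, |t i| ≤ X) ∧ t ∈ Bad p} := by
    rintro t ⟨hb, p, hp, hpX, ht⟩
    simp only [Set.mem_iUnion]
    refine ⟨p, ?_, hb, ht⟩
    rw [hP, Finset.mem_filter, Finset.mem_range]
    exact ⟨by omega, hp⟩
  have hfinU : (⋃ p ∈ P, {t : σ → ℤ | (∀ i, |t i| ≤ X) ∧ t ∈ Bad p}).Finite :=
    P.finite_toSet.biUnion (fun p _ => hbox.subset fun t ht => ht.1)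
  set d := Fintype.card σ with hd
  have hcard : S.ncard ≤ P.card * (C * (y ^ k * X ^ (d - k) + X ^ (d - 1))) := by
    calc S.ncard ≤ (⋃ p ∈ P, {t : σ → ℤ | (∀ i, |t i| ≤ X) ∧ t ∈ Bad p}).ncard :=
          Set.ncard_le_ncard hsub hfinU
      _ ≤ ∑ p ∈ P, {t : σ → ℤ | (∀ i, |t i| ≤ X) ∧ t ∈ Bad p}.ncard :=
          ncard_biUnion_le_sum _ _
      _ ≤ ∑ _p ∈ P, C * (y ^ k * X ^ (d - k) + X ^ (d - 1)) := by
          apply Finset.sum_le_sum
          intro p hp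
          refine (hBad p (hPp p hp) X hX).trans ?_
          gcongr
          exact hPy p hp
      _ = P.card * (C * (y ^ k * X ^ (d - k) + X ^ (d - 1))) := by
          rw [Finset.sum_const, smul_eq_mul]
  have hPcard : P.card = Nat.primeCounting y := by
    rw [hP, Nat.primeCounting, Nat.primeCounting', Nat.count_eq_card_filter_range]
  have hpi := pi_le_nat y hy2
  rw [← hPcard] at hpi
  have hy1 : (1 : ℝ) < (y : ℝ) := by exact_mod_cast hy2
  have hlogy : 0 < Real.log y := Real.log_pos hy1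
  have hmain : (S.ncard : ℝ) ≤ P.card * (C * ((y : ℝ) ^ k * (X : ℝ) ^ (d - k) +
      (X : ℝ) ^ (d - 1))) := by
    exact_mod_cast hcard
  have hpi' : (P.card : ℝ) * Real.log y ≤ 5 * y := by
    rwa [le_div_iff₀ hlogy] at hpi
  rw [le_div_iff₀ hlogy]
  have hnn : (0 : ℝ) ≤ C * ((y : ℝ) ^ k * (X : ℝ) ^ (d - k) + (X : ℝ) ^ (d - 1)) := by
    positivity
  calc (S.ncard : ℝ) * Real.log y
      ≤ (P.card * (C * ((y : ℝ) ^ k * (X : ℝ) ^ (d - k) + (X : ℝ) ^ (d - 1)))) *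
        Real.log y := mul_le_mul_of_nonneg_right hmain hlogy.le
    _ = (P.card * Real.log y) * (C * ((y : ℝ) ^ k * (X : ℝ) ^ (d - k) +
        (X : ℝ) ^ (d - 1))) := by ring
    _ ≤ (5 * y) * (C * ((y : ℝ) ^ k * (X : ℝ) ^ (d - k) + (X : ℝ) ^ (d - 1))) :=
        mul_le_mul_of_nonneg_right hpi' hnn
    _ = 5 * C * ((y : ℝ) ^ (k + 1) * (X : ℝ) ^ (d - k) + y * (X : ℝ) ^ (d - 1)) := by
        rw [pow_succ]; ring

end Pool.Agent.Work.MP_59f3ad_nt.Cod
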