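import Mathlib
import Pool.Agent.Work.MP_59f3ad_nt.Cod.Stmts

/-!
MP_59f3ad_nt, Cod: the Taylor expansion of the factors and of the product.
-/

open Polynomial

namespace Pool.Agent.Work.MP_59f3ad_nt.Cod

namespace TayX

/-- the first order expansion of a product -/
theorem prod_taylor {ι R : Type*} [DecidableEq ι] [CommRing R] (q : R) (F0 F1 D : ι → R)
    (h : ∀ i, q ^ 2 ∣ F1 i - F0 i - q * D i) (S : Finset ι) :
    q ^ 2 ∣ ∏ i ∈ S, F1 i - ∏ i ∈ S, F0 i - q * ∑ j ∈ S, D j * ∏ m ∈ S.erase j, F0 m := by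
  induction S using Finset.induction_on with
  | empty => simp
  | insert a S ha ih =>
    have e1 : ∑ j ∈ insert a S, D j * ∏ m ∈ (insert a S).erase j, F0 m =
        D a * ∏ m ∈ S, F0 m + F0 a * ∑ j ∈ S, D j * ∏ m ∈ S.erase j, F0 m := by
      rw [Finset.sum_insert ha, Finset.erase_insert ha, Finset.mul_sum]
      congr 1
      refine Finset.sum_congr rfl fun j hj => ?_
      have hja : a ≠ j := fun h => ha (h ▸ hj)
      rw [Finset.erase_insert_of_ne hja, Finset.prod_insert (fun h => ha (Finset.mem_of_mem_erase h))]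
      ring
    rw [e1, Finset.prod_insert ha, Finset.prod_insert ha]
    obtain ⟨u, hu⟩ := h a
    obtain ⟨v, hv⟩ := ih
    set P1 := ∏ i ∈ S, F1 i
    set P0 := ∏ i ∈ S, F0 i
    set E := ∑ j ∈ S, D j * ∏ m ∈ S.erase j, F0 m
    have h1 : F1 a = F0 a + q * D a + q ^ 2 * u := by rw [← hu]; ring
    have h2 : P1 = P0 + q * E + q ^ 2 * v := by rw [← hv]; ring
    refine ⟨u * P1 + D a * E + q * D a * v + F0 a * v, ?_⟩
    rw [h1, h2]
    ring

end TayX

open TayX in
theorem pr_Tay : StTay := by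
  intro r1 r2 t s p
  have hC : (C ((p : ℤ) ^ 2) : ℤ[X]) = C (p : ℤ) ^ 2 := by rw [map_pow]
  have h1 : ∀ j, C ((p : ℤ) ^ 2) ∣ fac (sh t s p) j - fac t j - C (p : ℤ) * dfac t s j := by
    intro j
    rcases j with i | k
    · have : fac (sh t s p) (Sum.inl i) - fac t (Sum.inl i) -
          C (p : ℤ) * dfac t s (Sum.inl i) = 0 := by
        simp only [fac, dfac, sh, map_add, map_mul]
        ring
      rw [this]
      exact dvd_zero _
    · refine ⟨C (s (Sum.inr (Sum.inl k))) ^ 2 + 2 * C (s (Sum.inr (Sum.inr k))) ^ 2, ?_⟩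
      simp only [fac, dfac, sh, map_add, map_mul, map_pow, map_ofNat C 2, map_ofNat C 4]
      ring
  refine ⟨h1, ?_⟩
  have h2 := prod_taylor (C (p : ℤ)) (fac t) (fac (sh t s p)) (dfac t s)
    (fun j => by rw [← hC]; exact h1 j) Finset.univ
  rw [hC]
  exact h2

end Pool.Agent.Work.MP_59f3ad_nt.Cod
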