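import Mathlib
import Pool.Agent.Work.MP_59f3ad_nt.Cod.Stmts

/-! MP_59f3ad_nt, Cod: the sum over the residue classes. -/

namespace Pool.Agent.Work.MP_59f3ad_nt.Cod

namespace TotX

/-- the arithmetic of the final bound. -/
theorem arith (n k C1 C2 C3 p H q e : ℕ) (hk : k ≤ n) (hq : 1 ≤ q)
    (hpq : p * q ≤ H) (he : e ≤ C1 * p ^ (n - 1)) :
    e * (C2 * (q + 1) ^ (n - 1)) + p ^ n * (C3 * q ^ (n - k)) ≤
      (C1 * C2 * 2 ^ (n - 1) + C3) * (p ^ k * H ^ (n - k) + H ^ (n - 1)) := by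
  have h1 : e * (C2 * (q + 1) ^ (n - 1)) ≤ C1 * C2 * 2 ^ (n - 1) * H ^ (n - 1) := by
    calc e * (C2 * (q + 1) ^ (n - 1)) ≤ (C1 * p ^ (n - 1)) * (C2 * (2 * q) ^ (n - 1)) := by
          apply Nat.mul_le_mul he
          apply Nat.mul_le_mul_left
          apply Nat.pow_le_pow_left
          omega
      _ = C1 * C2 * 2 ^ (n - 1) * (p * q) ^ (n - 1) := by
          rw [mul_pow, mul_pow]
          ring
      _ ≤ C1 * C2 * 2 ^ (n - 1) * H ^ (n - 1) := by
          apply Nat.mul_le_mul_left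
          exact Nat.pow_le_pow_left hpq _
  have h2 : p ^ n * (C3 * q ^ (n - k)) ≤ C3 * (p ^ k * H ^ (n - k)) := by
    have h3 : p ^ n = p ^ k * p ^ (n - k) := by
      rw [← pow_add]
      congr 1
      omega
    calc p ^ n * (C3 * q ^ (n - k)) = C3 * (p ^ k * (p * q) ^ (n - k)) := by
          rw [h3, mul_pow]
          ring
      _ ≤ C3 * (p ^ k * H ^ (n - k)) := by
          apply Nat.mul_le_mul_left
          apply Nat.mul_le_mul_left
          exact Nat.pow_le_pow_left hpq _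
  calc _ ≤ C1 * C2 * 2 ^ (n - 1) * H ^ (n - 1) + C3 * (p ^ k * H ^ (n - k)) := add_le_add h1 h2
    _ ≤ (C1 * C2 * 2 ^ (n - 1) + C3) * (p ^ k * H ^ (n - k) + H ^ (n - 1)) := by
        have h4 : (C1 * C2 * 2 ^ (n - 1) + C3) * (p ^ k * H ^ (n - k) + H ^ (n - 1)) =
          C1 * C2 * 2 ^ (n - 1) * H ^ (n - 1) + C3 * (p ^ k * H ^ (n - k)) +
          (C1 * C2 * 2 ^ (n - 1) * (p ^ k * H ^ (n - k)) + C3 * H ^ (n - 1)) := by ring
        rw [h4]
        exact Nat.le_add_right _ _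

theorem box_finite (σ : Type) [Fintype σ] (H : ℕ) : {t : σ → ℤ | ∀ i, |t i| ≤ H}.Finite := by
  classical
  have h : {t : σ → ℤ | ∀ i, |t i| ≤ H} ⊆ Set.Icc (fun _ => -(H : ℤ)) (fun _ => (H : ℤ)) := by
    intro t ht
    exact ⟨fun i => (abs_le.1 (ht i)).1, fun i => (abs_le.1 (ht i)).2⟩
  exact (Set.finite_Icc _ _).subset h

end TotX

open Classical in
theorem pr_Tot : StTot := by
  intro σ _ k C1 C2 C3 _ hk
  refine ⟨C1 * C2 * 2 ^ (Fintype.card σ - 1) + C3, ?_⟩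
  intro p hp H hpH S E hE h2 h3
  have hp0 : 0 < p := hp.out.pos
  have : NeZero p := ⟨hp0.ne'⟩
  obtain ⟨q, hq⟩ : ∃ q, q = H / p := ⟨_, rfl⟩
  have hq1 : 1 ≤ q := by
    rw [hq]
    exact (Nat.one_le_div_iff hp0).2 hpH
  have hpq : p * q ≤ H := by
    rw [hq]
    exact Nat.mul_div_le H p
  rw [← hq] at h2 h3
  obtain ⟨A, hA⟩ : ∃ A : (σ → ZMod p) → Set (σ → ℤ), A = fun c =>
    {t : σ → ℤ | (∀ i, |t i| ≤ H) ∧ (∀ i, (p : ℤ) ∣ t i - ((c i).val : ℤ)) ∧ t ∈ S} := ⟨_, rfl⟩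
  have hAfin : ∀ c, (A c).Finite := by
    intro c
    rw [hA]
    exact (TotX.box_finite σ H).subset (fun t ht => ht.1)
  have hcov : {t : σ → ℤ | (∀ i, |t i| ≤ H) ∧ t ∈ S} ⊆ ⋃ c ∈ (Finset.univ : Finset (σ → ZMod p)),
      A c := by
    intro t ht
    refine Set.mem_iUnion₂.2 ⟨fun i => ((t i : ℤ) : ZMod p), Finset.mem_univ _, ?_⟩
    rw [hA]
    refine ⟨ht.1, fun i => ?_, ht.2⟩
    rw [← ZMod.intCast_eq_intCast_iff_dvd_sub]
    simp
  have hle : ∀ c : σ → ZMod p, (A c).ncard ≤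
      if c ∈ E then C2 * (q + 1) ^ (Fintype.card σ - 1) else C3 * q ^ (Fintype.card σ - k) := by
    intro c
    by_cases hc : c ∈ E
    · rw [if_pos hc, hA]
      exact h2 _
    · rw [if_neg hc, hA]
      refine h3 _ (fun i => ⟨by positivity, ?_⟩) ?_
      · exact_mod_cast ZMod.val_lt (c i)
      · have : (fun i => (((c i).val : ℤ) : ZMod p)) = c := by
          funext i
          rw [Int.cast_natCast, ZMod.natCast_zmod_val]
        rw [this]
        exact hc
  have hcardE : (Finset.univ.filter (fun c : σ → ZMod p => c ∈ E)).card ≤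
      C1 * p ^ (Fintype.card σ - 1) := by
    refine le_trans (le_of_eq ?_) hE
    rw [Set.ncard_eq_toFinset_card']
    congr 1
    ext c
    simp
  have hcardN : (Finset.univ.filter (fun c : σ → ZMod p => c ∉ E)).card ≤
      p ^ Fintype.card σ := by
    refine (Finset.card_le_univ _).trans (le_of_eq ?_)
    rw [Fintype.card_fun, ZMod.card]
  calc _ ≤ (⋃ c ∈ (Finset.univ : Finset (σ → ZMod p)), A c).ncard :=
        Set.ncard_le_ncard hcov (Set.Finite.biUnion (Finset.finite_toSet _) fun c _ => hAfin c)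
    _ ≤ ∑ c ∈ (Finset.univ : Finset (σ → ZMod p)), (A c).ncard :=
        Finset.set_ncard_biUnion_le _ _
    _ ≤ ∑ c ∈ (Finset.univ : Finset (σ → ZMod p)),
        (if c ∈ E then C2 * (q + 1) ^ (Fintype.card σ - 1) else C3 * q ^ (Fintype.card σ - k)) :=
        Finset.sum_le_sum fun c _ => hle c
    _ = (Finset.univ.filter (fun c : σ → ZMod p => c ∈ E)).card *
          (C2 * (q + 1) ^ (Fintype.card σ - 1)) +
        (Finset.univ.filter (fun c : σ → ZMod p => c ∉ E)).card *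
          (C3 * q ^ (Fintype.card σ - k)) := by
        rw [Finset.sum_ite, Finset.sum_const, Finset.sum_const, smul_eq_mul, smul_eq_mul]
    _ ≤ (Finset.univ.filter (fun c : σ → ZMod p => c ∈ E)).card *
          (C2 * (q + 1) ^ (Fintype.card σ - 1)) +
        p ^ Fintype.card σ * (C3 * q ^ (Fintype.card σ - k)) := by
        apply Nat.add_le_add_left
        exact Nat.mul_le_mul_right _ hcardN
    _ ≤ _ := TotX.arith _ _ _ _ _ _ _ _ _ hk hq1 hpq hcardE

end Pool.Agent.Work.MP_59f3ad_nt.Cod
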